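import Pool.Agent.Work.MP_ae1ff6_cg.Interface

/-! # Block ARC (helper77): arcs of the circle -/

open Topology Filter Set
open scoped ComplexConjugate

set_option autoImplicit false

namespace Pool.CG

/-- every point of the circle has an argument in a given half open interval -/
theorem ARC_surj (s : ℝ) (z : Circle) :
    ∃ θ ∈ Ico s (s + 2 * Real.pi), Circle.exp θ = z := by
  obtain ⟨θ, rfl⟩ := Circle.exp_surjective z
  refine ⟨toIcoMod Real.two_pi_pos s θ, toIcoMod_mem_Ico _ _ _, ?_⟩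
  rw [Circle.exp_eq_exp]
  refine ⟨-toIcoDiv Real.two_pi_pos s θ, ?_⟩
  rw [toIcoMod, zsmul_eq_mul]
  push_cast
  ring

/-- block ARC -/
theorem blk_ARC : Stmt_ARC := by
  intro s t hst hts
  have hinj : InjOn Circle.exp (Ico s (s + 2 * Real.pi)) := Circle.exp_injOn_Ico (by linarith)
  have hs : s ∈ Ico s (s + 2 * Real.pi) := ⟨le_rfl, by linarith⟩
  have ht : t ∈ Ico s (s + 2 * Real.pi) := ⟨hst.le, hts⟩
  have hU : IsOpen (Circle.exp '' Ioo s t) := isLocalHomeomorph_circleExp.isOpenMap _ isOpen_Ioo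
  have hV : IsOpen (Circle.exp '' Ioo t (s + 2 * Real.pi)) :=
    isLocalHomeomorph_circleExp.isOpenMap _ isOpen_Ioo
  refine ⟨hU, ?_⟩
  rintro x ⟨u, hu, rfl⟩ y ⟨v, hv, rfl⟩
  have hu' : u ∈ Ico s (s + 2 * Real.pi) := ⟨hu.1.le, by linarith [hu.2]⟩
  have hv' : v ∈ Ico s (s + 2 * Real.pi) := ⟨by linarith [hv.1], hv.2⟩
  refine ⟨⟨fun h => ?_, fun h => ?_⟩, ⟨fun h => ?_, fun h => ?_⟩, ?_⟩
  · exact (ne_of_gt hu.1) (hinj hu' hs h)
  · exact (ne_of_lt hu.2) (hinj hu' ht h)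
  · exact (ne_of_gt (hst.trans hv.1)) (hinj hv' hs h)
  · exact (ne_of_gt hv.1) (hinj hv' ht h)
  · intro T hT hx hy
    by_contra hcon
    rw [not_or] at hcon
    have hsub : T ⊆ Circle.exp '' Ioo s t ∪ Circle.exp '' Ioo t (s + 2 * Real.pi) := by
      intro z hz
      obtain ⟨θ, hθ, rfl⟩ := ARC_surj s z
      rcases lt_trichotomy θ t with h | h | h
      · rcases hθ.1.lt_or_eq with h2 | h2
        · exact Or.inl ⟨θ, ⟨h2, h⟩, rfl⟩
        · exact absurd (h2 ▸ hz) hcon.1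
      · exact absurd (h ▸ hz) hcon.2
      · exact Or.inr ⟨θ, ⟨h, hθ.2⟩, rfl⟩
    obtain ⟨z, -, ⟨θ₁, h1, e1⟩, ⟨θ₂, h2, e2⟩⟩ := hT _ _ hU hV hsub ⟨_, hx, ⟨u, hu, rfl⟩⟩
      ⟨_, hy, ⟨v, hv, rfl⟩⟩
    have h3 : θ₁ = θ₂ := hinj ⟨h1.1.le, by linarith [h1.2]⟩ ⟨by linarith [h2.1], h2.2⟩
      (e1.trans e2.symm)
    linarith [h1.2, h2.1]

end Pool.CG
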