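import Pool.Agent.Work.MP_ae1ff6_cg.Interface

/-!
# Theorem CG, block ATT: attracting and repelling points (helper89)
-/

open Topology Filter Set
open scoped ComplexConjugate

set_option autoImplicit false

namespace Pool.CG

/-- limits of Moebius maps whose parameters tend to infinity -/
theorem ATT_lim (h1 : Stmt_MB1) {l : Filter H} {h : H → H} {a b : H → ℂ} {ζ η : Circle}
    (hpar : ∀ᶠ g in l, Par (h g) (a g) (b g)) (hb : Tendsto (fun g => ‖b g‖) l atTop)
    (hP : Tendsto (fun g => -conj (a g) / conj (b g)) l (𝓝 (η : ℂ)))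
    (hA : Tendsto (fun g => a g / conj (b g)) l (𝓝 (ζ : ℂ))) (z : Circle) (hz : z ≠ η) :
    Tendsto (fun g => h g z) l (𝓝 ζ) := by
  rw [tendsto_iff_dist_tendsto_zero]
  have hz' : 0 < ‖(z : ℂ) - (η : ℂ)‖ := by
    rw [norm_pos_iff, sub_ne_zero]
    exact fun h => hz (Circle.coe_inj.1 h)
  have hzP : Tendsto (fun g => ‖(z : ℂ) - -conj (a g) / conj (b g)‖) l (𝓝 ‖(z : ℂ) - (η : ℂ)‖) :=
    (tendsto_const_nhds.sub hP).norm
  have hbig : Tendsto (fun g => ‖b g‖ * (‖b g‖ * ‖(z : ℂ) - -conj (a g) / conj (b g)‖)) l atTop :=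
    hb.atTop_mul_atTop₀ (hb.atTop_mul_pos hz' hzP)
  have hAd : Tendsto (fun g => ‖a g / conj (b g) - (ζ : ℂ)‖) l (𝓝 0) := by
    have := (hA.sub_const (ζ : ℂ)).norm
    simpa using this
  have hsum : Tendsto (fun g => (‖b g‖ * (‖b g‖ * ‖(z : ℂ) - -conj (a g) / conj (b g)‖))⁻¹ +
      ‖a g / conj (b g) - (ζ : ℂ)‖) l (𝓝 0) := by
    have := hbig.inv_tendsto_atTop.add hAd
    simpa using this
  refine squeeze_zero' (Eventually.of_forall fun g => dist_nonneg) ?_ hsum
  filter_upwards [hpar, hb.eventually_gt_atTop 0] with g hg hbg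
  have hb0 : b g ≠ 0 := by
    intro h0
    rw [h0, norm_zero] at hbg
    exact lt_irrefl _ hbg
  have hcb : conj (b g) ≠ 0 := by
    intro h0
    exact hb0 ((map_eq_zero _).1 h0)
  have k := (h1.2 _ _ _ hg).2.2.1 hb0 z
  have k2 : conj (b g) * (z : ℂ) + conj (a g) = conj (b g) * ((z : ℂ) - -conj (a g) / conj (b g)) := by
    field_simp
    ring
  rw [k2, norm_mul, RCLike.norm_conj] at k
  have k3 : ‖(h g z : ℂ) - a g / conj (b g)‖ =
      (‖b g‖ * (‖b g‖ * ‖(z : ℂ) - -conj (a g) / conj (b g)‖))⁻¹ := eq_inv_of_mul_eq_one_left k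
  show dist (h g z : ℂ) (ζ : ℂ) ≤ _
  rw [dist_eq_norm]
  calc ‖(h g z : ℂ) - (ζ : ℂ)‖ = ‖((h g z : ℂ) - a g / conj (b g)) +
        (a g / conj (b g) - (ζ : ℂ))‖ := by rw [sub_add_sub_cancel]
    _ ≤ ‖(h g z : ℂ) - a g / conj (b g)‖ + ‖a g / conj (b g) - (ζ : ℂ)‖ := norm_add_le _ _
    _ = _ := by rw [k3]

theorem ATT_infinite (Γ : Subgroup H) (h : FirstKind Γ) : (Γ : Set H).Infinite := by
  intro hf
  have h2 : {w : Circle | ∃ γ ∈ Γ, w = γ 1}.Finite := by
    have : {w : Circle | ∃ γ ∈ Γ, w = γ 1} = (fun γ : H => γ 1) '' (Γ : Set H) := by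
      ext w
      constructor
      · rintro ⟨γ, hγ, rfl⟩
        exact ⟨γ, hγ, rfl⟩
      · rintro ⟨γ, hγ, rfl⟩
        exact ⟨γ, hγ, rfl⟩
    rw [this]
    exact hf.image _
  have h3 := h.dense 1
  have h4 : {w : Circle | ∃ γ ∈ Γ, w = γ 1} = univ := by
    rw [← h2.isClosed.closure_eq]
    exact h3.closure_eq
  rw [h4] at h2
  have hinj : Set.InjOn (Circle.exp : ℝ → Circle) (Ioo 0 1) := by
    intro x hx y hy hxy
    obtain ⟨m, hm⟩ := Circle.exp_eq_exp.1 hxy
    have hp := Real.pi_gt_three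
    have h5 : (m : ℝ) < 1 := by
      by_contra hc
      rw [not_lt] at hc
      nlinarith [hx.2, hy.1]
    have h6 : (-1 : ℝ) < m := by
      by_contra hc
      rw [not_lt] at hc
      nlinarith [hx.1, hy.2]
    have h7 : m < 1 := by exact_mod_cast h5
    have h8 : -1 < m := by exact_mod_cast h6
    have h9 : m = 0 := by omega
    rw [hm, h9]
    simp
  exact (Ioo_infinite (show (0 : ℝ) < 1 by norm_num)).image hinj
    (h2.subset (subset_univ _))

/-- limits of quotients along an ultrafilter -/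
theorem ATT_limit (u : Ultrafilter H) {F : H → ℂ} (h : Tendsto (fun g => ‖F g‖) (u : Filter H) (𝓝 1)) :
    ∃ ζ : Circle, Tendsto F (u : Filter H) (𝓝 (ζ : ℂ)) := by
  have hK : IsCompact (Metric.closedBall (0 : ℂ) 2) := isCompact_closedBall _ _
  have hev : ∀ᶠ g in (u : Filter H), F g ∈ Metric.closedBall (0 : ℂ) 2 := by
    have := h.eventually (gt_mem_nhds (show (1 : ℝ) < 2 by norm_num))
    filter_upwards [this] with g hg
    rw [mem_closedBall_zero_iff]
    exact hg.le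
  obtain ⟨p, -, hp⟩ := hK.ultrafilter_le_nhds (u.map F) (by
    rw [Filter.le_principal_iff]
    exact hev)
  have hp' : Tendsto F (u : Filter H) (𝓝 p) := hp
  have hn : ‖p‖ = 1 := tendsto_nhds_unique hp'.norm h
  exact ⟨⟨p, mem_sphere_zero_iff_norm.2 hn⟩, hp'⟩

theorem blk_ATT (h1 : Stmt_MB1) (h2 : Stmt_MB2) (h3 : Stmt_PIG) : Stmt_ATT := by
  intro Γ hΓ
  have hinf := ATT_infinite Γ hΓ
  have hne : (cofinite ⊓ 𝓟 (Γ : Set H)).NeBot := hinf.cofinite_inf_principal_neBot
  let u : Ultrafilter H := Ultrafilter.of (cofinite ⊓ 𝓟 (Γ : Set H))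
  have hu : (u : Filter H) ≤ cofinite ⊓ 𝓟 (Γ : Set H) := Ultrafilter.of_le _
  have huΓ : (Γ : Set H) ∈ (u : Filter H) := hu (mem_inf_of_right (mem_principal_self _))
  have huc : (u : Filter H) ≤ cofinite := hu.trans inf_le_left
  have hpar : ∀ g : H, ∃ p : ℂ × ℂ, g ∈ Γ → Par g p.1 p.2 := by
    intro g
    by_cases hg : g ∈ Γ
    · obtain ⟨α, β, h⟩ := (h1.1 g).1 (hΓ.mob g hg)
      exact ⟨(α, β), fun _ => h⟩
    · exact ⟨0, fun h => absurd h hg⟩
  choose F hF using hpar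
  have evP : ∀ᶠ g in (u : Filter H), Par g (F g).1 (F g).2 := by
    filter_upwards [huΓ] with g hg
    exact hF g hg
  -- the parameters tend to infinity
  have hfin : ∀ R : ℝ, {g : H | g ∈ Γ ∧ ‖(F g).2‖ ≤ R}.Finite := by
    intro R
    by_contra hc
    obtain ⟨ε, hε, hd⟩ := hΓ.discrete
    obtain ⟨g, hg, g', hg', hne', hnear⟩ := h3 _ R hc (fun g hg => ⟨_, _, hF g hg.1, hg.2⟩) ε hε
    have := hd (g⁻¹ * g') (Γ.mul_mem (Γ.inv_mem hg.1) hg'.1) hnear
    exact hne' (inv_mul_eq_one.1 this)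
  have hβ : Tendsto (fun g => ‖(F g).2‖) (u : Filter H) atTop := by
    rw [tendsto_atTop]
    intro R
    have : {g : H | g ∈ Γ ∧ ‖(F g).2‖ ≤ R}ᶜ ∈ (u : Filter H) :=
      huc (hfin R).compl_mem_cofinite
    filter_upwards [this, huΓ] with g k1 k2
    by_contra hc
    exact k1 ⟨k2, (not_le.1 hc).le⟩
  have hrat : Tendsto (fun g => ‖(F g).1‖ / ‖(F g).2‖) (u : Filter H) (𝓝 1) := by
    have k1 : Tendsto (fun g => 1 + ‖(F g).2‖⁻¹) (u : Filter H) (𝓝 1) := by
      have := (tendsto_const_nhds (x := (1 : ℝ))).add hβ.inv_tendsto_atTop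
      simpa using this
    refine tendsto_of_tendsto_of_tendsto_of_le_of_le' tendsto_const_nhds k1 ?_ ?_
    · filter_upwards [evP, hβ.eventually_gt_atTop 0] with g k2 k3
      rw [one_le_div k3]
      have k4 := k2.1
      by_contra hc
      rw [not_le] at hc
      nlinarith [norm_nonneg (F g).1]
    · filter_upwards [evP, hβ.eventually_gt_atTop 0] with g k2 k3
      have k4 := (h1.2 _ _ _ k2).2.2.2.1
      rw [div_le_iff₀ k3, add_mul, one_mul, inv_mul_cancel₀ k3.ne']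
      exact k4
  have hPn : Tendsto (fun g => ‖-conj (F g).1 / conj (F g).2‖) (u : Filter H) (𝓝 1) := by
    have : (fun g => ‖-conj (F g).1 / conj (F g).2‖) = fun g => ‖(F g).1‖ / ‖(F g).2‖ := by
      funext g
      rw [norm_div, norm_neg, RCLike.norm_conj, RCLike.norm_conj]
    rw [this]
    exact hrat
  have hAn : Tendsto (fun g => ‖(F g).1 / conj (F g).2‖) (u : Filter H) (𝓝 1) := by
    have : (fun g => ‖(F g).1 / conj (F g).2‖) = fun g => ‖(F g).1‖ / ‖(F g).2‖ := by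
      funext g
      rw [norm_div, RCLike.norm_conj]
    rw [this]
    exact hrat
  obtain ⟨η, hη⟩ := ATT_limit u hPn
  obtain ⟨ζ, hζ⟩ := ATT_limit u hAn
  refine ⟨u, ζ, η, u.neBot, huΓ, fun z hz => ?_, fun z hz => ?_⟩
  · exact ATT_lim h1 (h := fun g => g) evP hβ hη hζ z hz
  · refine ATT_lim h1 (h := fun g => g⁻¹) (a := fun g => conj (F g).1) (b := fun g => -(F g).2)
      ?_ ?_ ?_ ?_ z hz
    · filter_upwards [evP] with g hg
      exact h2.2.1 g _ _ hg
    · simpa using hβ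
    · have : (fun g => -conj (conj (F g).1) / conj (-(F g).2)) =
          fun g => (F g).1 / conj (F g).2 := by
        funext g
        rw [Complex.conj_conj, map_neg, neg_div_neg_eq]
      rw [this]
      exact hζ
    · have : (fun g => conj (F g).1 / conj (-(F g).2)) =
          fun g => -conj (F g).1 / conj (F g).2 := by
        funext g
        rw [map_neg, div_neg, neg_div]
      rw [this]
      exact hη

end Pool.CG
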