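import Pool.Agent.Work.MP_ae1ff6_cg.Interface

/-!
# Block BDC: groups which displace geodesics are convergence groups
-/

open Topology Filter Set
open scoped ComplexConjugate

set_option autoImplicit false

namespace Pool.CG

theorem BDC_unif (h : H) (ε : ℝ) (hε : 0 < ε) :
    ∃ δ : ℝ, 0 < δ ∧ ∀ x y : Circle, ε ≤ dist (h x) (h y) → δ ≤ dist x y := by
  have h1 : UniformContinuous h := CompactSpace.uniformContinuous_of_continuous h.continuous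
  obtain ⟨δ, hδ, h2⟩ := Metric.uniformContinuous_iff.1 h1 ε hε
  refine ⟨δ, hδ, fun x y hxy => ?_⟩
  by_contra hcon
  exact absurd (h2 (not_le.1 hcon)) (not_lt.2 hxy)

theorem BDC_caseA (hCNV : Stmt_CNV) (Γ : Subgroup H) (hΓ : FirstKind Γ) (ε : ℝ) (hε : 0 < ε)
    (h : H) : {g : H | h⁻¹ * g ∈ Γ ∧ Mv ε g}.Finite := by
  obtain ⟨δ, hδ, h1⟩ := BDC_unif h ε hε
  have h2 := hCNV Γ hΓ (min ε δ) (lt_min hε hδ)
  refine (h2.image (fun γ => h * γ)).subset ?_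
  rintro g ⟨hg, a, b, c, ⟨f1, f2, f3⟩, ⟨f4, f5, f6⟩⟩
  have e : ∀ z, g z = h ((h⁻¹ * g) z) := by
    intro z
    change g z = h (h.symm (g z))
    rw [h.apply_symm_apply]
  refine ⟨h⁻¹ * g, ⟨hg, a, b, c, ⟨?_, ?_, ?_⟩, ⟨?_, ?_, ?_⟩⟩, ?_⟩
  · exact (min_le_left _ _).trans f1
  · exact (min_le_left _ _).trans f2
  · exact (min_le_left _ _).trans f3
  · refine (min_le_right _ _).trans (h1 _ _ ?_)
    rw [← e, ← e]
    exact f4
  · refine (min_le_right _ _).trans (h1 _ _ ?_)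
    rw [← e, ← e]
    exact f5
  · refine (min_le_right _ _).trans (h1 _ _ ?_)
    rw [← e, ← e]
    exact f6
  · change h * (h⁻¹ * g) = g
    rw [mul_inv_cancel_left]

theorem BDC_lim (u : Ultrafilter H) (f : H → Circle) : ∃ ℓ : Circle, Tendsto f u (𝓝 ℓ) :=
  ⟨(u.map f).lim, (u.map f).le_nhds_lim⟩

theorem BDC_ne (u : Ultrafilter H) (f f' : H → Circle) (ℓ ℓ' : Circle) (ε : ℝ) (hε : 0 < ε)
    (h1 : Tendsto f u (𝓝 ℓ)) (h2 : Tendsto f' u (𝓝 ℓ')) (h3 : ∀ᶠ g in (u : Filter H),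
      ε ≤ dist (f g) (f' g)) : ℓ ≠ ℓ' := by
  have h4 : ε ≤ dist ℓ ℓ' := ge_of_tendsto (h1.dist h2) h3
  intro h
  rw [h, dist_self] at h4
  linarith

theorem blk_BDC (hLHI : Stmt_LHI) (hLFV : Stmt_LFV) (hLOP : Stmt_LOP) (hLSX : Stmt_LSX)
    (hCNV : Stmt_CNV) (hDNS : Stmt_DNS) : Stmt_BDC := by
  classical
  intro Γ G hΓ _ _ hD ε hε
  by_contra hcon
  have hinf : {g : H | g ∈ G ∧ Mv ε g}.Infinite := hcon
  obtain ⟨T, hT⟩ : ∃ T : Set H, T = {g : H | g ∈ G ∧ Mv ε g} := ⟨_, rfl⟩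
  rw [← hT] at hinf
  have hne := hinf.cofinite_inf_principal_neBot
  obtain ⟨u, hu⟩ : ∃ u : Ultrafilter H, (u : Filter H) ≤ cofinite ⊓ 𝓟 T :=
    ⟨Ultrafilter.of _, Ultrafilter.of_le _⟩
  have huc : (u : Filter H) ≤ cofinite := hu.trans inf_le_left
  have huT : T ∈ (u : Filter H) := (hu.trans inf_le_right) (mem_principal_self T)
  have hfin : ∀ S : Set H, S.Finite → S ∉ (u : Filter H) := by
    intro S hS hSu
    have h1 : Sᶜ ∈ (u : Filter H) := huc hS.compl_mem_cofinite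
    have h2 := inter_mem hSu h1
    rw [inter_compl_self] at h2
    exact u.empty_notMem h2
  have hTG : ∀ᶠ g in (u : Filter H), g ∈ G := by
    filter_upwards [huT] with g hg
    rw [hT] at hg
    exact hg.1
  -- case B
  have hB : ∀ h : H, ∀ᶠ g in (u : Filter H), h⁻¹ * g ∉ Γ := by
    intro h
    have h1 : {g : H | h⁻¹ * g ∈ Γ} ∉ u := by
      intro h2
      apply hfin _ (BDC_caseA hCNV Γ hΓ ε hε h)
      filter_upwards [huT, h2] with g hg hg2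
      rw [hT] at hg
      exact ⟨hg2, hg.2⟩
    exact Ultrafilter.eventually_not.2 h1
  have hmeets : ∀ γ ∈ Γ, ∀ δ ∈ Γ, ∀ p q r s : Circle, Axis γ p q → Axis δ r s →
      ∀ᶠ g in (u : Filter H), ¬ Meets g p q r s := by
    intro γ hγ δ hδ p q r s h1 h2
    obtain ⟨F, hF, h3⟩ := hD γ hγ δ hδ p q r s h1 h2
    have h4 : ∀ᶠ g in (u : Filter H), ∀ h ∈ F, h⁻¹ * g ∉ Γ :=
      (eventually_all_finite hF).2 fun h _ => hB h
    filter_upwards [h4, hTG] with g hg hgG hm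
    obtain ⟨h, hh, h5⟩ := h3 g hgG hm
    exact hg h hh h5
  -- limits
  choose L hL using fun z : Circle => BDC_lim u (fun g : H => g z)
  have hch : ∀ g : H, ∃ a b c : Circle, g ∈ T → Far ε a b c ∧ Far ε (g a) (g b) (g c) := by
    intro g
    by_cases hg : g ∈ T
    · have hg' := hg
      rw [hT] at hg'
      obtain ⟨-, a, b, c, h1, h2⟩ := hg'
      exact ⟨a, b, c, fun _ => ⟨h1, h2⟩⟩
    · exact ⟨1, 1, 1, fun h => absurd h hg⟩
  choose a b c habc using hch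
  obtain ⟨a0, ha0⟩ := BDC_lim u a
  obtain ⟨b0, hb0⟩ := BDC_lim u b
  obtain ⟨c0, hc0⟩ := BDC_lim u c
  obtain ⟨a1, ha1⟩ := BDC_lim u (fun g => g (a g))
  obtain ⟨b1, hb1⟩ := BDC_lim u (fun g => g (b g))
  obtain ⟨c1, hc1⟩ := BDC_lim u (fun g => g (c g))
  have hab0 : a0 ≠ b0 := BDC_ne u a b a0 b0 ε hε ha0 hb0 (by
    filter_upwards [huT] with g hg using (habc g hg).1.1)
  have hbc0 : b0 ≠ c0 := BDC_ne u b c b0 c0 ε hε hb0 hc0 (by
    filter_upwards [huT] with g hg using (habc g hg).1.2.1)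
  have hac0 : a0 ≠ c0 := BDC_ne u a c a0 c0 ε hε ha0 hc0 (by
    filter_upwards [huT] with g hg using (habc g hg).1.2.2)
  have hab1 : a1 ≠ b1 := BDC_ne u _ _ a1 b1 ε hε ha1 hb1 (by
    filter_upwards [huT] with g hg using (habc g hg).2.1)
  have hbc1 : b1 ≠ c1 := BDC_ne u _ _ b1 c1 ε hε hb1 hc1 (by
    filter_upwards [huT] with g hg using (habc g hg).2.2.1)
  have hac1 : a1 ≠ c1 := BDC_ne u _ _ a1 c1 ε hε ha1 hc1 (by
    filter_upwards [huT] with g hg using (habc g hg).2.2.2)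
  -- claim 1
  have claim1 : ∀ γ ∈ Γ, ∀ p q : Circle, Axis γ p q → L p = L q := by
    intro γ hγ p q hax
    by_contra hne2
    obtain ⟨A, B, U, V, hA, hBn, hU, hU2, hV, hV2, hlink⟩ := hLOP (L p) (L q) hne2
    obtain ⟨δ, hδ, r, hr, s, hs, hax2⟩ := hDNS Γ hΓ U V hU hU2 hV hV2
    have h1 : ∀ᶠ g in (u : Filter H), g p ∈ A := hL p hA
    have h2 : ∀ᶠ g in (u : Filter H), g q ∈ B := hL q hBn
    obtain ⟨g, hg1, hg2, hg3⟩ := (h1.and (h2.and (hmeets γ hγ δ hδ p q r s hax hax2))).exists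
    exact hg3 (Or.inl (hlink _ hg1 _ hg2 _ hr _ hs))
  -- claim 2
  have claim2 : ∀ γ ∈ Γ, ∀ x y : Circle, Axis γ x y → ∀ (f f' : H → Circle) (v v' : Circle),
      Tendsto (fun g : H => g (f g)) u (𝓝 v) → Tendsto (fun g : H => g (f' g)) u (𝓝 v') →
      (∀ᶠ g in (u : Filter H), Link x y (f g) (f' g)) → L x = v ∨ L x = v' := by
    intro γ hγ x y hax f f' v v' h1 h2 h3
    have h4 := hL y
    rw [← claim1 γ hγ x y hax] at h4
    refine hLFV H (u : Filter H) (fun g => g x) (fun g => g y) (fun g => g (f g))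
      (fun g => g (f' g)) (L x) v v' (hL x) h4 h1 h2 ?_
    filter_upwards [h3] with g hg
    exact hLHI g _ _ _ _ hg
  obtain ⟨U₁, V₁, A₁, B₁, C₁, hU₁, hU₁', hV₁, hV₁', hA₁, hB₁, hC₁, hl₁⟩ :=
    hLSX a0 b0 c0 hab0 hac0
  obtain ⟨γ₁, hγ₁, p₁, hp₁, q₁, hq₁, hax₁⟩ := hDNS Γ hΓ U₁ V₁ hU₁ hU₁' hV₁ hV₁'
  obtain ⟨U₂, V₂, B₂, A₂, C₂, hU₂, hU₂', hV₂, hV₂', hB₂, hA₂, hC₂, hl₂⟩ :=
    hLSX b0 a0 c0 hab0.symm hbc0
  obtain ⟨γ₂, hγ₂, p₂, hp₂, q₂, hq₂, hax₂⟩ := hDNS Γ hΓ U₂ V₂ hU₂ hU₂' hV₂ hV₂'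
  have hLp₁ : L p₁ = a1 := by
    have h1 := claim2 γ₁ hγ₁ p₁ q₁ hax₁ a b a1 b1 ha1 hb1 (by
      filter_upwards [ha0 hA₁, hb0 hB₁] with g hg1 hg2
      exact (hl₁ p₁ hp₁ q₁ hq₁ (a g) hg1).1 (b g) hg2)
    have h2 := claim2 γ₁ hγ₁ p₁ q₁ hax₁ a c a1 c1 ha1 hc1 (by
      filter_upwards [ha0 hA₁, hc0 hC₁] with g hg1 hg2
      exact (hl₁ p₁ hp₁ q₁ hq₁ (a g) hg1).2 (c g) hg2)
    rcases h1 with h1 | h1
    · exact h1
    · rcases h2 with h2 | h2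
      · exact h2
      · exact absurd (h1.symm.trans h2) hbc1
  have hLp₂ : L p₂ = b1 := by
    have h1 := claim2 γ₂ hγ₂ p₂ q₂ hax₂ b a b1 a1 hb1 ha1 (by
      filter_upwards [hb0 hB₂, ha0 hA₂] with g hg1 hg2
      exact (hl₂ p₂ hp₂ q₂ hq₂ (b g) hg1).1 (a g) hg2)
    have h2 := claim2 γ₂ hγ₂ p₂ q₂ hax₂ b c b1 c1 hb1 hc1 (by
      filter_upwards [hb0 hB₂, hc0 hC₂] with g hg1 hg2
      exact (hl₂ p₂ hp₂ q₂ hq₂ (b g) hg1).2 (c g) hg2)
    rcases h1 with h1 | h1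
    · exact h1
    · rcases h2 with h2 | h2
      · exact h2
      · exact absurd (h1.symm.trans h2) hac1
  obtain ⟨γ, hγ, p, hp, q, hq, hax⟩ := hDNS Γ hΓ (interior A₁) (interior B₂) isOpen_interior
    ⟨a0, mem_interior_iff_mem_nhds.2 hA₁⟩ isOpen_interior ⟨b0, mem_interior_iff_mem_nhds.2 hB₂⟩
  have hLp : L p = a1 := by
    have h1 := claim2 γ₁ hγ₁ p₁ q₁ hax₁ (fun _ => p) c (L p) c1 (hL p) hc1 (by
      filter_upwards [hc0 hC₁] with g hg2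
      exact (hl₁ p₁ hp₁ q₁ hq₁ p (interior_subset hp)).2 (c g) hg2)
    rcases h1 with h1 | h1
    · rw [← h1]
      exact hLp₁
    · exact absurd (hLp₁.symm.trans h1) hac1
  have hLq : L q = b1 := by
    have h1 := claim2 γ₂ hγ₂ p₂ q₂ hax₂ (fun _ => q) c (L q) c1 (hL q) hc1 (by
      filter_upwards [hc0 hC₂] with g hg2
      exact (hl₂ p₂ hp₂ q₂ hq₂ q (interior_subset hq)).2 (c g) hg2)
    rcases h1 with h1 | h1
    · rw [← h1]
      exact hLp₂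
    · exact absurd (hLp₂.symm.trans h1) hbc1
  have h9 := claim1 γ hγ p q hax
  rw [hLp, hLq] at h9
  exact hab1 h9

end Pool.CG
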