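import Pool.Agent.Work.MP_ae1ff6_cg.Interface

/-! # Block BND -/

open Topology Filter Set
open scoped ComplexConjugate

set_option autoImplicit false

namespace Pool.CG

theorem BND_norm (α β : ℂ) (hβ : β ≠ 0) (z : ℂ) :
    ‖conj β * z + conj α‖ = ‖β‖ * ‖z - (-(conj α) / conj β)‖ := by
  have hc : conj β ≠ 0 := (map_ne_zero (starRingEnd ℂ)).mpr hβ
  have h : conj β * z + conj α = conj β * (z - (-(conj α) / conj β)) := by
    rw [mul_sub, mul_div_cancel₀ _ hc]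
    ring
  rw [h, norm_mul, Complex.norm_conj]

theorem BND_far (P : ℂ) (ε : ℝ) (x y : Circle) (h : ε ≤ dist x y) (hx : ‖(x : ℂ) - P‖ < ε / 2) :
    ε / 2 ≤ ‖(y : ℂ) - P‖ := by
  by_contra hy
  rw [not_le] at hy
  have h1 : dist x y = ‖(x : ℂ) - y‖ := dist_eq_norm (x : ℂ) (y : ℂ)
  have h2 : ‖(x : ℂ) - y‖ ≤ ‖(x : ℂ) - P‖ + ‖(y : ℂ) - P‖ := by
    have h3 : (x : ℂ) - y = ((x : ℂ) - P) - ((y : ℂ) - P) := by ring
    rw [h3]
    exact norm_sub_le _ _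
  linarith

theorem BND_pair (g : H) (α β : ℂ) (ε : ℝ) (hβ : β ≠ 0) (hε : 0 < ε)
    (hd : ∀ z w : Circle, dist (g z) (g w) * (‖conj β * (z : ℂ) + conj α‖ *
      ‖conj β * (w : ℂ) + conj α‖) = dist z w) (x y : Circle) (h : ε ≤ dist (g x) (g y))
    (hx : ε / 2 ≤ ‖(x : ℂ) - (-(conj α) / conj β)‖)
    (hy : ε / 2 ≤ ‖(y : ℂ) - (-(conj α) / conj β)‖) : ‖β‖ ^ 2 * ε ^ 3 ≤ 8 := by
  have h1 := hd x y
  rw [BND_norm α β hβ, BND_norm α β hβ] at h1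
  have h2 : dist x y ≤ 2 := by
    have h7 : dist x y = ‖(x : ℂ) - y‖ := dist_eq_norm (x : ℂ) (y : ℂ)
    rw [h7]
    refine (norm_sub_le _ _).trans ?_
    rw [Circle.norm_coe, Circle.norm_coe]
    norm_num
  have hb : 0 ≤ ‖β‖ := norm_nonneg β
  have h3 : ‖β‖ * (ε / 2) ≤ ‖β‖ * ‖(x : ℂ) - (-(conj α) / conj β)‖ :=
    mul_le_mul_of_nonneg_left hx hb
  have h4 : ‖β‖ * (ε / 2) ≤ ‖β‖ * ‖(y : ℂ) - (-(conj α) / conj β)‖ :=
    mul_le_mul_of_nonneg_left hy hb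
  have h0 : 0 ≤ ‖β‖ * (ε / 2) := by positivity
  have h5 : (‖β‖ * (ε / 2)) * (‖β‖ * (ε / 2)) ≤
      (‖β‖ * ‖(x : ℂ) - (-(conj α) / conj β)‖) * (‖β‖ * ‖(y : ℂ) - (-(conj α) / conj β)‖) :=
    mul_le_mul h3 h4 h0 (h0.trans h3)
  have h6 : ε * ((‖β‖ * (ε / 2)) * (‖β‖ * (ε / 2))) ≤ 2 := by
    calc ε * ((‖β‖ * (ε / 2)) * (‖β‖ * (ε / 2)))
        ≤ dist (g x) (g y) * ((‖β‖ * ‖(x : ℂ) - (-(conj α) / conj β)‖) *
          (‖β‖ * ‖(y : ℂ) - (-(conj α) / conj β)‖)) :=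
        mul_le_mul h h5 (mul_nonneg h0 h0) dist_nonneg
      _ = dist x y := h1
      _ ≤ 2 := h2
  nlinarith

theorem blk_BND (h1 : Stmt_MB1) : Stmt_BND := by
  intro g α β ε hg hε hm
  obtain ⟨-, hd, -⟩ := h1.2 g α β hg
  rcases eq_or_ne β 0 with hβ | hβ
  · rw [hβ, norm_zero]
    norm_num
  · obtain ⟨a, b, c, ⟨hab, hbc, hac⟩, hgab, hgbc, hgac⟩ := hm
    by_cases ha : ε / 2 ≤ ‖(a : ℂ) - (-(conj α) / conj β)‖
    · by_cases hb : ε / 2 ≤ ‖(b : ℂ) - (-(conj α) / conj β)‖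
      · exact BND_pair g α β ε hβ hε hd a b hgab ha hb
      · exact BND_pair g α β ε hβ hε hd a c hgac ha
          (BND_far _ ε b c hbc (not_le.mp hb))
    · exact BND_pair g α β ε hβ hε hd b c hgbc (BND_far _ ε a b hab (not_le.mp ha))
        (BND_far _ ε a c hac (not_le.mp ha))

end Pool.CG
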