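import Pool.Agent.Work.MP_ae1ff6_cg.Interface

/-! # Block CDB: convergence groups displace geodesics -/

open Topology Filter Set
open scoped ComplexConjugate

set_option autoImplicit false

namespace Pool.CG

/-- the stabilizer of a point -/
def CDB_st (x : Circle) : Subgroup H where
  carrier := {g | g x = x}
  mul_mem' := fun {a b} (ha : a x = x) (hb : b x = x) => by
    show a (b x) = x
    rw [hb, ha]
  one_mem' := rfl
  inv_mem' := fun {a} (ha : a x = x) => by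
    show a.symm x = x
    have h := a.symm_apply_apply x
    rwa [ha] at h

theorem CDB_fix {g : H} {x : Circle} (h : g x = x) (n : ℤ) : (g ^ n) x = x :=
  (CDB_st x).zpow_mem (show g ∈ CDB_st x from h) n

theorem CDB_inv_apply (g : H) (x : Circle) : g (g⁻¹ x) = x := g.apply_symm_apply x

theorem CDB_exists (p q : Circle) : ∃ z : Circle, z ≠ p ∧ z ≠ q := by
  classical
  have hinf : Infinite Circle := by
    refine Infinite.of_injective (fun n : ℕ => Circle.exp (1 / ((n : ℝ) + 1))) ?_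
    intro a b hab
    have hpi := Real.pi_gt_three
    have hI : ∀ n : ℕ, (1 / ((n : ℝ) + 1)) ∈ Set.Ico (0 : ℝ) (0 + 2 * Real.pi) := fun n => by
      refine ⟨by positivity, ?_⟩
      have h1 : (1 : ℝ) / ((n : ℝ) + 1) ≤ 1 := by
        rw [div_le_one (by positivity)]
        linarith [(Nat.cast_nonneg n : (0 : ℝ) ≤ n)]
      linarith
    have h2 := Circle.exp_injOn_Ico (a := 0) (b := 0 + 2 * Real.pi) (by linarith) (hI a) (hI b) hab
    have ha : (0 : ℝ) < (a : ℝ) + 1 := by positivity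
    have hb : (0 : ℝ) < (b : ℝ) + 1 := by positivity
    rw [div_eq_div_iff ha.ne' hb.ne'] at h2
    have h3 : (a : ℝ) = b := by linarith
    exact_mod_cast h3
  obtain ⟨z, hz⟩ := Infinite.exists_notMem_finset ({p, q} : Finset Circle)
  rw [Finset.mem_insert, Finset.mem_singleton, not_or] at hz
  exact ⟨z, hz⟩

theorem blk_CDB (hLHI : Stmt_LHI) (hLUB : Stmt_LUB) (hHYP : Stmt_HYP) : Stmt_CDB := by
  intro Γ G hΓ hle hnorm hconv γ hγ δ hδ p q r s hax hbx
  obtain ⟨ρ₁, hρ₁, H1⟩ := hHYP γ p q (hΓ.mob γ hγ) hax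
  obtain ⟨ρ₂, hρ₂, H2⟩ := hHYP δ r s (hΓ.mob δ hδ) hbx
  obtain ⟨ε₁, hε₁, H3⟩ := hLUB r s ρ₂ hρ₂
  obtain ⟨z₀, hz₀p, hz₀q⟩ := CDB_exists p q
  have hpq : 0 < dist p q := dist_pos.2 hax.1
  have hrs : 0 < dist r s := dist_pos.2 hbx.1
  have hzp : 0 < dist z₀ p := dist_pos.2 hz₀p
  have hzq : 0 < dist z₀ q := dist_pos.2 hz₀q
  obtain ⟨ε, hε, e1, e2, e3, e4, e5, e6, e7⟩ : ∃ ε : ℝ, 0 < ε ∧ ε ≤ ρ₁ ∧ ε ≤ ρ₂ ∧ ε ≤ ε₁ ∧
      ε ≤ dist p q ∧ ε ≤ dist r s / 2 ∧ ε ≤ dist z₀ p ∧ ε ≤ dist z₀ q := by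
    refine ⟨min ρ₁ (min ρ₂ (min ε₁ (min (dist p q) (min (dist r s / 2) (min (dist z₀ p)
      (dist z₀ q)))))), by positivity, ?_, ?_, ?_, ?_, ?_, ?_, ?_⟩
    · exact min_le_left _ _
    · exact (min_le_right _ _).trans (min_le_left _ _)
    · exact (min_le_right _ _).trans ((min_le_right _ _).trans (min_le_left _ _))
    · exact (min_le_right _ _).trans ((min_le_right _ _).trans ((min_le_right _ _).trans
        (min_le_left _ _)))
    · exact (min_le_right _ _).trans ((min_le_right _ _).trans ((min_le_right _ _).trans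
        ((min_le_right _ _).trans (min_le_left _ _))))
    · exact (min_le_right _ _).trans ((min_le_right _ _).trans ((min_le_right _ _).trans
        ((min_le_right _ _).trans ((min_le_right _ _).trans (min_le_left _ _)))))
    · exact (min_le_right _ _).trans ((min_le_right _ _).trans ((min_le_right _ _).trans
        ((min_le_right _ _).trans ((min_le_right _ _).trans (min_le_right _ _)))))
  have hδr : ∀ m : ℤ, (δ ^ m) r = r := CDB_fix ((hbx.2 r).2 (Or.inl rfl))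
  have hδs : ∀ m : ℤ, (δ ^ m) s = s := CDB_fix ((hbx.2 s).2 (Or.inr rfl))
  have hγp : ∀ m : ℤ, (γ ^ m) p = p := CDB_fix ((hax.2 p).2 (Or.inl rfl))
  have hγq : ∀ m : ℤ, (γ ^ m) q = q := CDB_fix ((hax.2 q).2 (Or.inr rfl))
  refine ⟨{g' | g' ∈ G ∧ Mv ε g'}, hconv ε hε, fun g hg hmeet => ?_⟩
  have hconj : ∀ κ ∈ Γ, g⁻¹ * κ * g ∈ Γ := fun κ hκ => by
    have h := hnorm g⁻¹ (G.inv_mem hg) κ hκ
    rwa [inv_inv] at h
  rcases hmeet with hL | hE
  · -- a crossing
    obtain ⟨⟨h1, h2⟩, ⟨h3, h4⟩, -⟩ := id hL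
    obtain ⟨m, hm1, hm2⟩ := H2 (g p) (Ne.symm h1) (Ne.symm h3)
    have hL2 : Link ((δ ^ m) (g p)) ((δ ^ m) (g q)) r s := by
      have h5 := hLHI (δ ^ m) _ _ _ _ hL
      rwa [hδr, hδs] at h5
    have h6 := H3 _ _ hm1 hm2 hL2
    obtain ⟨r', hr', hx', hy'⟩ : ∃ r' : Circle, (r' = r ∨ r' = s) ∧
        ρ₂ ≤ dist ((δ ^ m) (g p)) r' ∧ dist r s / 2 ≤ dist ((δ ^ m) (g q)) r' := by
      rcases le_total (dist r s / 2) (dist ((δ ^ m) (g q)) r) with h7 | h7
      · exact ⟨r, Or.inl rfl, hm1, h7⟩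
      · refine ⟨s, Or.inr rfl, hm2, ?_⟩
        have h8 := dist_triangle_left r s ((δ ^ m) (g q))
        linarith
    let k : H := δ ^ m * g
    have hkp : k p = (δ ^ m) (g p) := rfl
    have hkq : k q = (δ ^ m) (g q) := rfl
    have hkz : k (k⁻¹ r') = r' := CDB_inv_apply k r'
    have hzp' : k⁻¹ r' ≠ p := fun h => by
      rw [h, hkp] at hkz
      rw [hkz, dist_self] at hx'
      linarith
    have hzq' : k⁻¹ r' ≠ q := fun h => by
      rw [h, hkq] at hkz
      rw [hkz, dist_self] at hy'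
      linarith
    obtain ⟨n, hn1, hn2⟩ := H1 _ hzp' hzq'
    refine ⟨k * (γ ^ n)⁻¹, ⟨?_, p, q, (γ ^ n) (k⁻¹ r'), ⟨e4, ?_, ?_⟩, ?_⟩, ?_⟩
    · exact G.mul_mem (G.mul_mem (G.zpow_mem (hle hδ) m) hg)
        (G.inv_mem (G.zpow_mem (hle hγ) n))
    · rw [dist_comm]
      exact e1.trans hn2
    · rw [dist_comm]
      exact e1.trans hn1
    · have f1 : (k * (γ ^ n)⁻¹) p = (δ ^ m) (g p) := by
        show k ((γ ^ n)⁻¹ p) = _
        rw [← zpow_neg, hγp, hkp]
      have f2 : (k * (γ ^ n)⁻¹) q = (δ ^ m) (g q) := by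
        show k ((γ ^ n)⁻¹ q) = _
        rw [← zpow_neg, hγq, hkq]
      have f3 : (k * (γ ^ n)⁻¹) ((γ ^ n) (k⁻¹ r')) = r' := by
        show k ((γ ^ n)⁻¹ ((γ ^ n) (k⁻¹ r'))) = _
        have f4 : (γ ^ n)⁻¹ ((γ ^ n) (k⁻¹ r')) = k⁻¹ r' := (γ ^ n).symm_apply_apply _
        rw [f4, hkz]
      rw [f1, f2, f3]
      exact ⟨e3.trans h6, e5.trans hy', e2.trans hx'⟩
    · have f5 : (k * (γ ^ n)⁻¹)⁻¹ * g = γ ^ n * (g⁻¹ * (δ ^ m)⁻¹ * g) := by
        show (δ ^ m * g * (γ ^ n)⁻¹)⁻¹ * g = _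
        group
      rw [f5]
      exact Γ.mul_mem (Γ.zpow_mem hγ n) (hconj _ (Γ.inv_mem (Γ.zpow_mem hδ m)))
  · -- equal geodesics
    have hgp : g p = r ∨ g p = s := by
      have h : g p ∈ ({r, s} : Set Circle) := hE ▸ Set.mem_insert _ _
      exact h
    have hgq : g q = r ∨ g q = s := by
      have h : g q ∈ ({r, s} : Set Circle) := hE ▸ Set.mem_insert_of_mem _ rfl
      exact h
    have hpq' : g p ≠ g q := fun h => hax.1 (g.injective h)
    have hzr : g z₀ ≠ r := fun h => by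
      have h5 : r ∈ ({g p, g q} : Set Circle) := hE ▸ Set.mem_insert _ _
      rcases h5 with h6 | h6
      · exact hz₀p (g.injective (h.trans h6))
      · exact hz₀q (g.injective (h.trans h6))
    have hzs : g z₀ ≠ s := fun h => by
      have h5 : s ∈ ({g p, g q} : Set Circle) := hE ▸ Set.mem_insert_of_mem _ rfl
      rcases h5 with h6 | h6
      · exact hz₀p (g.injective (h.trans h6))
      · exact hz₀q (g.injective (h.trans h6))
    obtain ⟨m, hm1, hm2⟩ := H2 (g z₀) hzr hzs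
    refine ⟨δ ^ m * g, ⟨G.mul_mem (G.zpow_mem (hle hδ) m) hg, p, q, z₀, ⟨e4, ?_, ?_⟩, ?_⟩, ?_⟩
    · rw [dist_comm]
      exact e7
    · rw [dist_comm]
      exact e6
    · have f1 : (δ ^ m * g) p = g p := by
        show (δ ^ m) (g p) = g p
        rcases hgp with h | h <;> rw [h]
        · exact hδr m
        · exact hδs m
      have f2 : (δ ^ m * g) q = g q := by
        show (δ ^ m) (g q) = g q
        rcases hgq with h | h <;> rw [h]
        · exact hδr m
        · exact hδs m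
      have f3 : (δ ^ m * g) z₀ = (δ ^ m) (g z₀) := rfl
      rw [f1, f2, f3]
      refine ⟨?_, ?_, ?_⟩
      · rcases hgp with h | h <;> rcases hgq with h' | h'
        · exact absurd (h.trans h'.symm) hpq'
        · rw [h, h']
          linarith
        · rw [h, h', dist_comm]
          linarith
        · exact absurd (h.trans h'.symm) hpq'
      · rw [dist_comm]
        rcases hgq with h | h <;> rw [h]
        · exact e2.trans hm1
        · exact e2.trans hm2
      · rw [dist_comm]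
        rcases hgp with h | h <;> rw [h]
        · exact e2.trans hm1
        · exact e2.trans hm2
    · have f5 : (δ ^ m * g)⁻¹ * g = g⁻¹ * (δ ^ m)⁻¹ * g := by group
      rw [f5]
      exact hconj _ (Γ.inv_mem (Γ.zpow_mem hδ m))

end Pool.CG
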