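import Pool.Agent.Work.MP_ae1ff6_cg.Interface

/-!
# Block CNV: discrete groups of Möbius maps are convergence groups
-/

open Topology Filter Set
open scoped ComplexConjugate

set_option autoImplicit false

namespace Pool.CG

theorem blk_CNV (h1 : Stmt_MB1) (h2 : Stmt_BND) (h3 : Stmt_PIG) : Stmt_CNV := by
  intro Γ hΓ ε hε
  by_contra hinf
  obtain ⟨ε₀, hε₀, hd⟩ := hΓ.discrete
  obtain ⟨g, hg, g', hg', hne, hz⟩ := h3 {g : H | g ∈ Γ ∧ Mv ε g} (Real.sqrt (8 / ε ^ 3)) hinf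
    (by
      rintro g ⟨hg, hm⟩
      obtain ⟨α, β, hp⟩ := (h1.1 g).1 (hΓ.mob g hg)
      refine ⟨α, β, hp, ?_⟩
      apply Real.le_sqrt_of_sq_le
      rw [le_div_iff₀ (by positivity)]
      exact h2 g α β ε hp hε hm) ε₀ hε₀
  have h4 : g⁻¹ * g' = 1 := hd _ (Γ.mul_mem (Γ.inv_mem hg.1) hg'.1) hz
  exact hne (inv_mul_eq_one.1 h4)

end Pool.CG
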