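import Pool.Agent.Work.MP_ae1ff6_cg.Interface

/-! # Groups of mapping classes and convergence groups, block CYC (helper95) -/

open Topology Filter Set
open scoped ComplexConjugate

set_option autoImplicit false

namespace Pool.CG

theorem CYC_conj (Γ : Subgroup H) (f : H) (hn : ∀ γ, γ ∈ Γ ↔ f * γ * f⁻¹ ∈ Γ) (n : ℤ) (γ : H)
    (hγ : γ ∈ Γ) : (f ^ n)⁻¹ * γ * f ^ n ∈ Γ := by
  have h1 : f ∈ Subgroup.normalizer (Γ : Set H) := Subgroup.mem_normalizer_iff.2 hn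
  have h2 : (f ^ n)⁻¹ ∈ Subgroup.normalizer (Γ : Set H) := inv_mem (zpow_mem h1 n)
  have h3 := (Subgroup.mem_normalizer_iff.1 h2 γ).1 hγ
  rwa [inv_inv] at h3

theorem CYC_norm (Γ : Subgroup H) (f : H) (hn : ∀ γ, γ ∈ Γ ↔ f * γ * f⁻¹ ∈ Γ) :
    Γ ⊔ Subgroup.zpowers f ≤ Subgroup.normalizer (Γ : Set H) := by
  have h1 : f ∈ Subgroup.normalizer (Γ : Set H) := Subgroup.mem_normalizer_iff.2 hn
  refine sup_le Subgroup.le_normalizer ?_
  rw [Subgroup.zpowers_le]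
  exact h1

theorem CYC_mem (Γ : Subgroup H) (f : H) (hn : ∀ γ, γ ∈ Γ ↔ f * γ * f⁻¹ ∈ Γ) (g : H)
    (hg : g ∈ Γ ⊔ Subgroup.zpowers f) : ∃ κ ∈ Γ, ∃ n : ℤ, g = κ * f ^ n := by
  have h1 : f ∈ Subgroup.normalizer (Γ : Set H) := Subgroup.mem_normalizer_iff.2 hn
  have h2 : Subgroup.zpowers f ≤ Subgroup.normalizer (Γ : Set H) := by
    rw [Subgroup.zpowers_le]; exact h1
  have h3 := Subgroup.coe_mul_of_right_le_normalizer_left Γ (Subgroup.zpowers f) h2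
  have h4 : g ∈ (↑(Γ ⊔ Subgroup.zpowers f) : Set H) := hg
  rw [h3] at h4
  obtain ⟨κ, hκ, x, hx, rfl⟩ := h4
  obtain ⟨n, rfl⟩ := Subgroup.mem_zpowers_iff.1 hx
  exact ⟨κ, hκ, n, rfl⟩

/-- block CYC -/
theorem blk_CYC : Stmt_CYC := by
  intro hM Γ f hF hn
  obtain ⟨m1, m2⟩ := hM Γ (Γ ⊔ Subgroup.zpowers f) hF le_sup_left (by
    intro g hg γ hγ
    exact (Subgroup.mem_normalizer_iff.1 (CYC_norm Γ f hn hg) γ).1 hγ)
  refine ⟨?_, m2⟩
  rw [m1]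
  constructor
  · intro hD
    by_cases hp : ∃ n : ℕ, 0 < n ∧ f ^ n ∈ Γ
    · exact Or.inl hp
    · right
      intro γ hγ δ hδ p q r s hpq hrs
      obtain ⟨F, hFf, hFm⟩ := hD γ hγ δ hδ p q r s hpq hrs
      have h1 : {n : ℤ | ∃ κ ∈ Γ, Meets (κ * f ^ n) p q r s} ⊆
          ⋃ h ∈ F, {n : ℤ | ∃ κ ∈ Γ, h⁻¹ * (κ * f ^ n) ∈ Γ} := by
        rintro n ⟨κ, hκ, hm⟩
        have hG : κ * f ^ n ∈ Γ ⊔ Subgroup.zpowers f :=
          mul_mem (Subgroup.mem_sup_left hκ)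
            (Subgroup.mem_sup_right (Subgroup.zpow_mem_zpowers f n))
        obtain ⟨h, hh, hx⟩ := hFm _ hG hm
        exact mem_iUnion₂.2 ⟨h, hh, κ, hκ, hx⟩
      refine (hFf.biUnion fun h _ => ?_).subset h1
      refine Set.Subsingleton.finite ?_
      rintro n ⟨κ, hκ, hx⟩ m ⟨κ', hκ', hx'⟩
      have h2 : (f ^ n)⁻¹ * (κ⁻¹ * κ') * f ^ n * f ^ (m - n) ∈ Γ := by
        have h3 := mul_mem (inv_mem hx) hx'
        have h4 : (h⁻¹ * (κ * f ^ n))⁻¹ * (h⁻¹ * (κ' * f ^ m)) =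
            (f ^ n)⁻¹ * (κ⁻¹ * κ') * f ^ n * f ^ (m - n) := by
          rw [zpow_sub]
          group
        rwa [h4] at h3
      have h3 : f ^ (m - n) ∈ Γ := by
        have h5 := CYC_conj Γ f hn n _ (mul_mem (inv_mem hκ) hκ')
        exact (Subgroup.mul_mem_cancel_left Γ h5).1 h2
      by_contra hne
      apply hp
      refine ⟨(m - n).natAbs, ?_, ?_⟩
      · exact Int.natAbs_pos.2 (sub_ne_zero.2 (Ne.symm hne))
      · rcases Int.natAbs_eq (m - n) with h6 | h6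
        · have h7 : f ^ (((m - n).natAbs : ℕ) : ℤ) ∈ Γ := by rw [← h6]; exact h3
          rwa [zpow_natCast] at h7
        · have h7 : f ^ (((m - n).natAbs : ℕ) : ℤ) ∈ Γ := by
            have h8 : (((m - n).natAbs : ℕ) : ℤ) = -(m - n) := by rw [h6]; simp
            rw [h8, zpow_neg]
            exact inv_mem h3
          rwa [zpow_natCast] at h7
  · rintro (⟨n, hn0, hnΓ⟩ | hS)
    · intro γ hγ δ hδ p q r s hpq hrs
      refine ⟨(fun j : ℤ => f ^ j) '' Set.Ico 0 (n : ℤ), (Set.finite_Ico _ _).image _, ?_⟩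
      intro g hg _
      obtain ⟨κ, hκ, m, rfl⟩ := CYC_mem Γ f hn g hg
      have hn1 : (0 : ℤ) < n := by exact_mod_cast hn0
      refine ⟨f ^ (m % n), ⟨m % n, ⟨Int.emod_nonneg _ hn1.ne', Int.emod_lt_of_pos _ hn1⟩, rfl⟩, ?_⟩
      have h1 : (f ^ (m % n))⁻¹ * (κ * f ^ m) =
          (f ^ (m % n))⁻¹ * κ * f ^ (m % n) * (f ^ n) ^ (m / n) := by
        have h2 : f ^ m = f ^ (m % n) * (f ^ n) ^ (m / n) := by
          rw [← zpow_natCast, ← zpow_mul, ← zpow_add, Int.emod_add_mul_ediv]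
        rw [h2]
        group
      rw [h1]
      exact mul_mem (CYC_conj Γ f hn _ _ hκ) (zpow_mem hnΓ _)
    · intro γ hγ δ hδ p q r s hpq hrs
      refine ⟨(fun j : ℤ => f ^ j) '' {n : ℤ | ∃ κ ∈ Γ, Meets (κ * f ^ n) p q r s},
        (hS γ hγ δ hδ p q r s hpq hrs).image _, ?_⟩
      intro g hg hm
      obtain ⟨κ, hκ, m, rfl⟩ := CYC_mem Γ f hn g hg
      refine ⟨f ^ m, ⟨m, ⟨κ, hκ, hm⟩, rfl⟩, ?_⟩
      have h1 := CYC_conj Γ f hn m _ hκ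
      rwa [mul_assoc] at h1

end Pool.CG
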