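import Pool.Agent.Work.MP_ae1ff6_cg.Interface

/-! # Block DNS: density of the axes -/

open Topology Filter Set
open scoped ComplexConjugate

set_option autoImplicit false

namespace Pool.CG

theorem DNS_conn : ConnectedSpace Circle := by
  haveI : ConnectedSpace ℝ := inferInstance
  exact Function.Surjective.connectedSpace
    (f := Circle.exp) (fun z => ⟨Complex.arg z, by simp⟩) (by fun_prop)

theorem DNS_nontriv : Nontrivial Circle := by
  refine ⟨⟨1, Circle.exp Real.pi, fun h => ?_⟩⟩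
  have h2 : ((1 : Circle) : ℂ) = (Circle.exp Real.pi : ℂ) := congrArg _ h
  rw [Circle.coe_exp, Complex.exp_pi_mul_I] at h2
  norm_num at h2

theorem DNS_punct (V : Set Circle) (hV : IsOpen V) (hne : V.Nonempty) (w : Circle) :
    (V \ {w}).Nonempty := by
  haveI := DNS_conn
  haveI := DNS_nontriv
  by_contra hcon
  rw [Set.not_nonempty_iff_eq_empty, Set.diff_eq_empty] at hcon
  obtain ⟨v, hv⟩ := hne
  have hvw : v = w := hcon hv
  subst hvw
  have h1 : NeBot (𝓝[≠] v) := ConnectedSpace.neBot_nhdsWithin_compl_of_nontrivial_of_t1space v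
  have h2 : V ∈ 𝓝[≠] v := mem_nhdsWithin_of_mem_nhds (hV.mem_nhds hv)
  have h3 : V ∩ {v}ᶜ ∈ 𝓝[≠] v := inter_mem h2 self_mem_nhdsWithin
  have h4 : V ∩ {v}ᶜ = ∅ := by
    ext x
    simp only [Set.mem_inter_iff, Set.mem_compl_iff, Set.mem_singleton_iff, Set.mem_empty_iff_false,
      iff_false, not_and, not_not]
    exact fun hx => hcon hx
  rw [h4] at h3
  exact empty_notMem _ h3

theorem blk_DNS (hATT : Stmt_ATT) (hHFP : Stmt_HFP) : Stmt_DNS := by
  intro Γ hΓ U V hU hUne hV hVne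
  obtain ⟨l, ζ, η, hl, hΓl, h1, h2⟩ := hATT Γ hΓ
  obtain ⟨s, hsU, σ, hσ, rfl⟩ := (hΓ.dense ζ).inter_open_nonempty U hU hUne
  obtain ⟨t, ⟨htV, htne⟩, τ, hτ, rfl⟩ := (hΓ.dense η).inter_open_nonempty (V \ {σ ζ})
    (hV.sdiff isClosed_singleton) (DNS_punct V hV hVne (σ ζ))
  have htne' : σ ζ ≠ τ η := fun h => htne h.symm
  set l' : Filter H := Filter.map (fun g : H => σ * g * τ⁻¹) l with hl'
  haveI : l'.NeBot := hl.map _
  have hmem : ∀ᶠ g in l', g ∈ Γ := by
    rw [hl', Filter.eventually_map]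
    filter_upwards [hΓl] with g hg
    exact Γ.mul_mem (Γ.mul_mem hσ hg) (Γ.inv_mem hτ)
  have hmob : ∀ᶠ g in l', IsMob g := hmem.mono fun g hg => hΓ.mob g hg
  have hA : ∀ z, z ≠ τ η → Tendsto (fun g : H => g z) l' (𝓝 (σ ζ)) := by
    intro z hz
    rw [hl', Filter.tendsto_map'_iff]
    have hz' : τ⁻¹ z ≠ η := by
      intro h
      apply hz
      rw [← h]
      exact (τ.apply_symm_apply z).symm
    exact (σ.continuous.tendsto ζ).comp (h1 (τ⁻¹ z) hz')
  have hB : ∀ z, z ≠ σ ζ → Tendsto (fun g : H => g⁻¹ z) l' (𝓝 (τ η)) := by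
    intro z hz
    rw [hl', Filter.tendsto_map'_iff]
    have hz' : σ⁻¹ z ≠ ζ := by
      intro h
      apply hz
      rw [← h]
      exact (σ.apply_symm_apply z).symm
    have h3 := (τ.continuous.tendsto η).comp (h2 (σ⁻¹ z) hz')
    refine h3.congr fun g => ?_
    change τ (g⁻¹ (σ⁻¹ z)) = (σ * g * τ⁻¹)⁻¹ z
    have : (σ * g * τ⁻¹)⁻¹ = τ * (g⁻¹ * σ⁻¹) := by group
    rw [this]
    rfl
  have hfin := hHFP l' (σ ζ) (τ η) inferInstance hmob htne' hA hB U (hU.mem_nhds hsU) V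
    (hV.mem_nhds htV)
  obtain ⟨γ, hγ, p, hp, q, hq, hax⟩ := (hmem.and hfin).exists
  exact ⟨γ, hγ, p, hp, q, hq, hax⟩

end Pool.CG
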