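import Pool.Agent.Work.MP_ae1ff6_cg.Interface2

/-! # Block EMB: realizations by Moebius maps are realizations in the weak sense -/

open Topology Filter Set
open scoped ComplexConjugate

set_option autoImplicit false

namespace Pool.CG

theorem blk_EMB : Stmt_EMB := by
  intro G hG
  obtain ⟨h, hh⟩ := hG
  refine ⟨(MulAut.conj h).toMonoidHom.comp G.subtype, (h⁻¹ : H), fun g => hh g g.2,
    (h⁻¹ : H).continuous, (h⁻¹ : H).surjective, fun g x => ?_⟩
  show h.symm (h ((g : H) (h.symm x))) = (g : H) (h.symm x)
  rw [Homeomorph.symm_apply_apply]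

end Pool.CG
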