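import Pool.Agent.Work.MP_ae1ff6_cg.Interface

/-! # Block HFP: fixed points near the attracting and the repelling point -/

open Topology Filter Set
open scoped ComplexConjugate

set_option autoImplicit false

namespace Pool.CG

theorem HFP_dist (z w : Circle) : dist z w = ‖(z : ℂ) - w‖ := by
  show dist (z : ℂ) (w : ℂ) = _
  exact dist_eq_norm _ _

theorem HFP_far (z w : Circle) (P : ℂ) :
    dist z w / 2 ≤ ‖(z : ℂ) - P‖ ∨ dist z w / 2 ≤ ‖(w : ℂ) - P‖ := by
  by_contra h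
  push Not at h
  have h1 : dist z w ≤ ‖(z : ℂ) - P‖ + ‖(w : ℂ) - P‖ := by
    rw [HFP_dist]
    calc ‖(z : ℂ) - w‖ = ‖((z : ℂ) - P) - (w - P)‖ := by congr 1; ring
      _ ≤ _ := norm_sub_le _ _
  linarith

theorem HFP_near (hMB1 : Stmt_MB1) {g : H} {α β : ℂ} (hP : Par g α β) {z w ζ : Circle} {δ R : ℝ}
    (hβ : R ≤ ‖β‖) (hR : 1 ≤ R) (hd : 0 < dist z w) (h1 : dist (g z) ζ < δ)
    (h2 : dist (g w) ζ < δ) : ‖α / conj β - ζ‖ ≤ 2 / (R * dist z w) + δ := by
  have hβ0 : β ≠ 0 := by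
    intro h
    rw [h, norm_zero] at hβ
    linarith
  have hB0 : conj β ≠ 0 := by
    simpa using hβ0
  have hβp : 0 < ‖β‖ := norm_pos_iff.2 hβ0
  obtain ⟨-, -, h3, -, -⟩ := hMB1.2 g α β hP
  have key : ∀ x : Circle, dist z w / 2 ≤ ‖(x : ℂ) - (-conj α / conj β)‖ → dist (g x) ζ < δ →
      ‖α / conj β - ζ‖ ≤ 2 / (R * dist z w) + δ := by
    intro x hx hxδ
    have e1 : conj β * (x : ℂ) + conj α = conj β * ((x : ℂ) - (-conj α / conj β)) := by
      field_simp
      ring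
    have e2 : ‖conj β * (x : ℂ) + conj α‖ = ‖β‖ * ‖(x : ℂ) - (-conj α / conj β)‖ := by
      rw [e1, norm_mul, RCLike.norm_conj]
    have e3 := h3 hβ0 x
    rw [e2] at e3
    have e4 : R * dist z w / 2 ≤ ‖β‖ * (‖β‖ * ‖(x : ℂ) - (-conj α / conj β)‖) := by
      have h5 : R * 1 ≤ ‖β‖ * ‖β‖ := mul_le_mul hβ (hR.trans hβ) zero_le_one hβp.le
      calc R * dist z w / 2 = (R * 1) * (dist z w / 2) := by ring
        _ ≤ (‖β‖ * ‖β‖) * ‖(x : ℂ) - (-conj α / conj β)‖ :=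
            mul_le_mul h5 hx (by positivity) (by positivity)
        _ = _ := by ring
    have e5 : 0 < R * dist z w / 2 := by positivity
    have e6 : ‖(g x : ℂ) - α / conj β‖ ≤ 2 / (R * dist z w) := by
      have h6 : ‖(g x : ℂ) - α / conj β‖ * (R * dist z w / 2) ≤ 1 := by
        calc _ ≤ ‖(g x : ℂ) - α / conj β‖ * (‖β‖ * (‖β‖ * ‖(x : ℂ) - (-conj α / conj β)‖)) :=
              mul_le_mul_of_nonneg_left e4 (norm_nonneg _)
          _ = 1 := e3
      rw [le_div_iff₀ (by positivity)]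
      linarith
    rw [HFP_dist] at hxδ
    calc ‖α / conj β - ζ‖ = ‖(α / conj β - g x) + ((g x : ℂ) - ζ)‖ := by congr 1; ring
      _ ≤ ‖α / conj β - g x‖ + ‖(g x : ℂ) - ζ‖ := norm_add_le _ _
      _ ≤ _ := by
          rw [norm_sub_rev (α / conj β)]
          linarith
  rcases HFP_far z w (-conj α / conj β) with h | h
  · exact key z h h1
  · exact key w h h2

theorem HFP_root (a : ℝ) (ha : 1 < |a|) : ∃ c : ℝ, c ^ 2 = a ^ 2 - 1 ∧ c ≠ 0 ∧ |a - c| ≤ 1 := by
  have h1 : 0 < a ^ 2 - 1 := by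
    have h2 : 1 < |a| ^ 2 := by nlinarith
    rw [sq_abs] at h2
    linarith
  have hs := Real.sqrt_pos.2 h1
  have hsq := Real.sq_sqrt h1.le
  rcases lt_or_ge 0 a with h | h
  · rw [abs_of_pos h] at ha
    refine ⟨√(a ^ 2 - 1), hsq, hs.ne', ?_⟩
    have h3 : (a - √(a ^ 2 - 1)) * (a + √(a ^ 2 - 1)) = 1 := by nlinarith
    rw [abs_le]
    constructor <;> nlinarith
  · rw [abs_of_nonpos h] at ha
    refine ⟨-√(a ^ 2 - 1), by nlinarith, neg_ne_zero.2 hs.ne', ?_⟩
    have h3 : (a + √(a ^ 2 - 1)) * (a - √(a ^ 2 - 1)) = 1 := by nlinarith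
    rw [abs_le]
    constructor <;> nlinarith

theorem HFP_axis (hMB1 : Stmt_MB1) {g : H} {α β : ℂ} (hP : Par g α β) (hα : 1 < |α.re|) :
    ∃ p q : Circle, Axis g p q ∧ ‖(p : ℂ) - α / conj β‖ ≤ 1 / ‖β‖ ∧
      ‖(q : ℂ) - -conj α / conj β‖ ≤ 1 / ‖β‖ := by
  obtain ⟨c, hc, hc0, hac⟩ := HFP_root α.re hα
  have hnα : ‖α‖ ^ 2 = α.re ^ 2 + α.im ^ 2 := by
    rw [Complex.sq_norm, Complex.normSq_apply]
    ring
  have hnβ : ‖β‖ ^ 2 = α.im ^ 2 + c ^ 2 := by
    have := hP.1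
    linarith
  have hβp : 0 < ‖β‖ := by
    have h1 : 0 < ‖β‖ ^ 2 := by
      rw [hnβ]
      positivity
    have h2 : ‖β‖ ≠ 0 := by
      intro h
      rw [h] at h1
      norm_num at h1
    exact lt_of_le_of_ne (norm_nonneg β) (Ne.symm h2)
  have hβ0 : β ≠ 0 := norm_pos_iff.1 hβp
  have hB0 : conj β ≠ 0 := by
    simpa using hβ0
  have hnB : ‖conj β‖ = ‖β‖ := RCLike.norm_conj β
  have hβB : β * conj β = ((α.im : ℂ)) ^ 2 + (c : ℂ) ^ 2 := by
    rw [Complex.mul_conj, ← Complex.sq_norm, hnβ]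
    push_cast
    ring
  have hI := Complex.I_sq
  have hαe : α = (α.re : ℂ) + (α.im : ℂ) * Complex.I := (Complex.re_add_im α).symm
  have hαc : conj α = (α.re : ℂ) - (α.im : ℂ) * Complex.I := by
    apply Complex.ext <;> simp
  have hd : conj α - α = -(2 * ((α.im : ℂ) * Complex.I)) := by
    apply Complex.ext
    · simp
    · simp
      ring
  have hn1 : ‖(α.im : ℂ) * Complex.I + c‖ = ‖β‖ := by
    have h1 : ‖(α.im : ℂ) * Complex.I + c‖ ^ 2 = ‖β‖ ^ 2 := by
      rw [Complex.sq_norm, Complex.normSq_apply, hnβ]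
      simp
      ring
    exact (pow_left_inj₀ (norm_nonneg _) (norm_nonneg _) two_ne_zero).1 h1
  have hn2 : ‖(α.im : ℂ) * Complex.I - c‖ = ‖β‖ := by
    have h1 : ‖(α.im : ℂ) * Complex.I - c‖ ^ 2 = ‖β‖ ^ 2 := by
      rw [Complex.sq_norm, Complex.normSq_apply, hnβ]
      simp
      ring
    exact (pow_left_inj₀ (norm_nonneg _) (norm_nonneg _) two_ne_zero).1 h1
  have hp : ‖((α.im : ℂ) * Complex.I + c) / conj β‖ = 1 := by
    rw [norm_div, hn1, hnB, div_self hβp.ne']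
  have hq : ‖((α.im : ℂ) * Complex.I - c) / conj β‖ = 1 := by
    rw [norm_div, hn2, hnB, div_self hβp.ne']
  let p : Circle := ⟨_, mem_sphere_zero_iff_norm.2 hp⟩
  let q : Circle := ⟨_, mem_sphere_zero_iff_norm.2 hq⟩
  have hpe : conj β * (p : ℂ) = (α.im : ℂ) * Complex.I + c := mul_div_cancel₀ _ hB0
  have hqe : conj β * (q : ℂ) = (α.im : ℂ) * Complex.I - c := mul_div_cancel₀ _ hB0
  have key : ∀ z : Circle, conj β * (conj β * (((z : ℂ) - p) * ((z : ℂ) - q))) =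
      conj β * ((z : ℂ) * (conj β * z + conj α) - (α * z + β)) := by
    intro z
    calc conj β * (conj β * (((z : ℂ) - p) * ((z : ℂ) - q))) =
          (conj β * z - conj β * p) * (conj β * z - conj β * q) := by ring
      _ = (conj β * z) ^ 2 - 2 * ((α.im : ℂ) * Complex.I) * (conj β * z) +
            ((α.im : ℂ) ^ 2 * Complex.I ^ 2 - (c : ℂ) ^ 2) := by
          rw [hpe, hqe]
          ring
      _ = (conj β * z) ^ 2 + (conj α - α) * (conj β * z) - β * conj β := by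
          rw [hI, hβB, hd]
          ring
      _ = _ := by ring
  have hfix : ∀ z : Circle, g z = z ↔ z = p ∨ z = q := by
    intro z
    have h1 := hP.2 z
    have hD := (hMB1.2 g α β hP).1 z
    constructor
    · intro h
      rw [h] at h1
      have h2 := key z
      rw [h1, sub_self, mul_zero] at h2
      have h3 : ((z : ℂ) - p) * ((z : ℂ) - q) = 0 :=
        (mul_eq_zero.1 ((mul_eq_zero.1 h2).resolve_left hB0)).resolve_left hB0
      rcases mul_eq_zero.1 h3 with h4 | h4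
      · exact Or.inl (Subtype.ext (sub_eq_zero.1 h4))
      · exact Or.inr (Subtype.ext (sub_eq_zero.1 h4))
    · intro h
      have h3 : ((z : ℂ) - p) * ((z : ℂ) - q) = 0 := by
        rcases h with h | h <;> rw [h]
        · rw [sub_self, zero_mul]
        · rw [sub_self, mul_zero]
      have h2 := key z
      rw [h3, mul_zero, mul_zero] at h2
      have h4 := (mul_eq_zero.1 h2.symm).resolve_left hB0
      apply Subtype.ext
      refine mul_right_cancel₀ hD ?_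
      rw [h1]
      exact (sub_eq_zero.1 h4).symm
  refine ⟨p, q, ⟨?_, hfix⟩, ?_, ?_⟩
  · intro h
    rw [h, hqe] at hpe
    have h1 : (c : ℂ) = 0 := by linear_combination -(1 / 2 : ℂ) * hpe
    exact hc0 (by exact_mod_cast h1)
  · have e0 : (α.im : ℂ) * Complex.I + c - α = ((c - α.re : ℝ) : ℂ) := by
      apply Complex.ext <;> simp
    have e : (p : ℂ) - α / conj β = ((c - α.re : ℝ) : ℂ) / conj β := by
      rw [← e0, ← hpe]
      field_simp
    rw [e, norm_div, hnB, Complex.norm_real, Real.norm_eq_abs, abs_sub_comm]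
    gcongr
  · have e0 : (α.im : ℂ) * Complex.I - c + conj α = ((α.re - c : ℝ) : ℂ) := by
      apply Complex.ext
      · simp
        ring
      · simp
    have e : (q : ℂ) - -conj α / conj β = ((α.re - c : ℝ) : ℂ) / conj β := by
      rw [← e0, ← hqe]
      field_simp
      ring
    rw [e, norm_div, hnB, Complex.norm_real, Real.norm_eq_abs]
    gcongr

theorem HFP_inf : Infinite Circle := by
  refine Infinite.of_injective (fun n : ℕ => Circle.exp (1 / ((n : ℝ) + 1))) ?_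
  intro a b hab
  have hpi := Real.pi_gt_three
  have hI : ∀ n : ℕ, (1 / ((n : ℝ) + 1)) ∈ Set.Ico (0 : ℝ) (0 + 2 * Real.pi) := fun n => by
    refine ⟨by positivity, ?_⟩
    have h1 : (1 : ℝ) / ((n : ℝ) + 1) ≤ 1 := by
      rw [div_le_one (by positivity)]
      linarith [(Nat.cast_nonneg n : (0 : ℝ) ≤ n)]
    linarith
  have h2 := Circle.exp_injOn_Ico (a := 0) (b := 0 + 2 * Real.pi) (by linarith) (hI a) (hI b) hab
  have ha : (0 : ℝ) < (a : ℝ) + 1 := by positivity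
  have hb : (0 : ℝ) < (b : ℝ) + 1 := by positivity
  rw [div_eq_div_iff ha.ne' hb.ne'] at h2
  have h3 : (a : ℝ) = b := by linarith
  exact_mod_cast h3

theorem HFP_two (ζ η : Circle) :
    ∃ z w : Circle, z ≠ w ∧ z ≠ ζ ∧ z ≠ η ∧ w ≠ ζ ∧ w ≠ η := by
  classical
  have := HFP_inf
  obtain ⟨z, hz⟩ := Infinite.exists_notMem_finset ({ζ, η} : Finset Circle)
  obtain ⟨w, hw⟩ := Infinite.exists_notMem_finset ({z, ζ, η} : Finset Circle)
  rw [Finset.mem_insert, Finset.mem_singleton, not_or] at hz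
  rw [Finset.mem_insert, Finset.mem_insert, Finset.mem_singleton, not_or, not_or] at hw
  exact ⟨z, w, Ne.symm hw.1, hz.1, hz.2, hw.2.1, hw.2.2⟩

theorem HFP_one (hMB1 : Stmt_MB1) (hMB2 : Stmt_MB2) {g : H} (hg : IsMob g) {z w ζ η : Circle}
    {ε R δ : ℝ} (hε : 0 < ε) (hd : 0 < dist z w) (he : 0 < dist ζ η) (hδ : 0 < δ)
    (hR0 : 1 ≤ R) (hR1 : 16 ≤ R * (dist z w * dist ζ η)) (hR2 : 8 ≤ R * (dist z w * ε))
    (hR3 : 4 ≤ R * ε) (hR4 : 4 < R * dist ζ η) (hδ1 : δ ≤ ε / 4) (hδ2 : δ ≤ dist ζ η / 8)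
    (hδ3 : 2 * δ * (2 * R + 1) ^ 2 ≤ dist z w) (h1 : dist (g z) ζ < δ) (h2 : dist (g w) ζ < δ)
    (h3 : dist (g⁻¹ z) η < δ) (h4 : dist (g⁻¹ w) η < δ) :
    ∃ p q : Circle, Axis g p q ∧ dist p ζ < ε ∧ dist q η < ε := by
  obtain ⟨α, β, hP⟩ := (hMB1.1 g).1 hg
  have hRp : 0 < R := by linarith
  -- `β` is large
  have hβ : R ≤ ‖β‖ := by
    by_contra hlt
    rw [not_le] at hlt
    obtain ⟨-, h5, -, -, h6⟩ := hMB1.2 g α β hP
    have h7 := h5 z w
    have h8 : dist (g z) (g w) < 2 * δ := by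
      have h9 := dist_triangle_right (g z) (g w) ζ
      linarith
    have h10 : ‖conj β * (z : ℂ) + conj α‖ * ‖conj β * (w : ℂ) + conj α‖ ≤ (2 * R + 1) ^ 2 := by
      rw [pow_two]
      refine mul_le_mul ((h6 z).2.trans (by linarith)) ((h6 w).2.trans (by linarith))
        (norm_nonneg _) (by linarith)
    have h11 : dist (g z) (g w) * (‖conj β * (z : ℂ) + conj α‖ * ‖conj β * (w : ℂ) + conj α‖) ≤
        dist (g z) (g w) * (2 * R + 1) ^ 2 := mul_le_mul_of_nonneg_left h10 dist_nonneg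
    have h12 : dist (g z) (g w) * (2 * R + 1) ^ 2 < 2 * δ * (2 * R + 1) ^ 2 :=
      mul_lt_mul_of_pos_right h8 (by positivity)
    linarith
  have hβp : 0 < ‖β‖ := by linarith
  have hβ0 : β ≠ 0 := norm_pos_iff.1 hβp
  have hB0 : conj β ≠ 0 := by
    simpa using hβ0
  have hM := HFP_near hMB1 hP hβ hR0 hd h1 h2
  have hP' := hMB2.2.1 g α β hP
  have hN := HFP_near hMB1 hP' (by rwa [norm_neg]) hR0 hd h3 h4
  rw [map_neg, div_neg, ← neg_div] at hN
  have f1 : 2 / (R * dist z w) ≤ dist ζ η / 8 := by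
    rw [div_le_div_iff₀ (by positivity) (by norm_num)]
    nlinarith
  have f2 : 2 / (R * dist z w) ≤ ε / 4 := by
    rw [div_le_div_iff₀ (by positivity) (by norm_num)]
    nlinarith
  have f3 : 1 / ‖β‖ ≤ ε / 4 := by
    rw [div_le_div_iff₀ hβp (by norm_num)]
    nlinarith
  have f4 : dist ζ η / 2 ≤ ‖α / conj β - -conj α / conj β‖ := by
    have g1 : dist ζ η ≤ ‖α / conj β - ζ‖ + ‖α / conj β - -conj α / conj β‖ +
        ‖-conj α / conj β - η‖ := by
      rw [HFP_dist]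
      calc ‖(ζ : ℂ) - η‖ = ‖(ζ - α / conj β) + (α / conj β - -conj α / conj β) +
            (-conj α / conj β - η)‖ := by congr 1; ring
        _ ≤ ‖(ζ - α / conj β) + (α / conj β - -conj α / conj β)‖ +
            ‖-conj α / conj β - η‖ := norm_add_le _ _
        _ ≤ ‖ζ - α / conj β‖ + ‖α / conj β - -conj α / conj β‖ +
            ‖-conj α / conj β - η‖ := by
            gcongr
            exact norm_add_le _ _
        _ = _ := by rw [norm_sub_rev (ζ : ℂ)]
    linarith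
  have f5 : ‖α / conj β - -conj α / conj β‖ = 2 * |α.re| / ‖β‖ := by
    have g2 : α / conj β - -conj α / conj β = ((2 * α.re : ℝ) : ℂ) / conj β := by
      rw [← Complex.add_conj]
      ring
    rw [g2, norm_div, RCLike.norm_conj, Complex.norm_real, Real.norm_eq_abs, abs_mul]
    norm_num
  have f6 : 1 < |α.re| := by
    rw [f5, div_le_div_iff₀ (by norm_num) hβp] at f4
    nlinarith
  obtain ⟨p, q, hax, hp, hq⟩ := HFP_axis hMB1 hP f6
  refine ⟨p, q, hax, ?_, ?_⟩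
  · rw [HFP_dist]
    calc ‖(p : ℂ) - ζ‖ = ‖((p : ℂ) - α / conj β) + (α / conj β - ζ)‖ := by congr 1; ring
      _ ≤ ‖(p : ℂ) - α / conj β‖ + ‖α / conj β - ζ‖ := norm_add_le _ _
      _ < ε := by linarith
  · rw [HFP_dist]
    calc ‖(q : ℂ) - η‖ = ‖((q : ℂ) - -conj α / conj β) + (-conj α / conj β - η)‖ := by
          congr 1; ring
      _ ≤ ‖(q : ℂ) - -conj α / conj β‖ + ‖-conj α / conj β - η‖ := norm_add_le _ _
      _ < ε := by linarith

theorem blk_HFP (hMB1 : Stmt_MB1) (hMB2 : Stmt_MB2) : Stmt_HFP := by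
  intro l ζ η hl hmob hne hz hz' A hA B hB
  obtain ⟨ε₁, hε₁, hεA⟩ := Metric.mem_nhds_iff.1 hA
  obtain ⟨ε₂, hε₂, hεB⟩ := Metric.mem_nhds_iff.1 hB
  obtain ⟨z, w, hzw, hzζ, hzη, hwζ, hwη⟩ := HFP_two ζ η
  have hd : 0 < dist z w := dist_pos.2 hzw
  have he : 0 < dist ζ η := dist_pos.2 hne
  have hε : 0 < min ε₁ ε₂ := lt_min hε₁ hε₂
  set ε := min ε₁ ε₂
  obtain ⟨R, hR0, hR1, hR2, hR3, hR4⟩ : ∃ R : ℝ, 1 ≤ R ∧ 16 ≤ R * (dist z w * dist ζ η) ∧
      8 ≤ R * (dist z w * ε) ∧ 4 ≤ R * ε ∧ 4 < R * dist ζ η := by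
    refine ⟨1 + 16 / (dist z w * dist ζ η) + 8 / (dist z w * ε) + 4 / ε + 4 / dist ζ η,
      ?_, ?_, ?_, ?_, ?_⟩
    · have : 0 < 16 / (dist z w * dist ζ η) + 8 / (dist z w * ε) + 4 / ε + 4 / dist ζ η := by
        positivity
      linarith
    · have e1 : 16 / (dist z w * dist ζ η) * (dist z w * dist ζ η) = 16 :=
        div_mul_cancel₀ _ (by positivity)
      have e2 : 0 < (1 + 8 / (dist z w * ε) + 4 / ε + 4 / dist ζ η) * (dist z w * dist ζ η) := by
        positivity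
      linarith
    · have e1 : 8 / (dist z w * ε) * (dist z w * ε) = 8 := div_mul_cancel₀ _ (by positivity)
      have e2 : 0 < (1 + 16 / (dist z w * dist ζ η) + 4 / ε + 4 / dist ζ η) * (dist z w * ε) := by
        positivity
      linarith
    · have e1 : 4 / ε * ε = 4 := div_mul_cancel₀ _ (by positivity)
      have e2 : 0 < (1 + 16 / (dist z w * dist ζ η) + 8 / (dist z w * ε) + 4 / dist ζ η) * ε := by
        positivity
      linarith
    · have e1 : 4 / dist ζ η * dist ζ η = 4 := div_mul_cancel₀ _ (by positivity)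
      have e2 : 0 < (1 + 16 / (dist z w * dist ζ η) + 8 / (dist z w * ε) + 4 / ε) *
          dist ζ η := by
        positivity
      linarith
  have hRp : 0 < R := by linarith
  obtain ⟨δ, hδ, hδ1, hδ2, hδ3⟩ : ∃ δ : ℝ, 0 < δ ∧ δ ≤ ε / 4 ∧ δ ≤ dist ζ η / 8 ∧
      2 * δ * (2 * R + 1) ^ 2 ≤ dist z w := by
    refine ⟨min (ε / 4) (min (dist ζ η / 8) (dist z w / (2 * (2 * R + 1) ^ 2))), by positivity,
      min_le_left _ _, (min_le_right _ _).trans (min_le_left _ _), ?_⟩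
    have e1 : min (ε / 4) (min (dist ζ η / 8) (dist z w / (2 * (2 * R + 1) ^ 2))) ≤
        dist z w / (2 * (2 * R + 1) ^ 2) := (min_le_right _ _).trans (min_le_right _ _)
    rw [le_div_iff₀ (by positivity)] at e1
    linarith
  filter_upwards [hmob, (hz z hzη).eventually (Metric.ball_mem_nhds ζ hδ),
    (hz w hwη).eventually (Metric.ball_mem_nhds ζ hδ),
    (hz' z hzζ).eventually (Metric.ball_mem_nhds η hδ),
    (hz' w hwζ).eventually (Metric.ball_mem_nhds η hδ)] with g hg h1 h2 h3 h4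
  obtain ⟨p, q, hax, hp, hq⟩ := HFP_one hMB1 hMB2 hg hε hd he hδ hR0 hR1 hR2 hR3 hR4 hδ1 hδ2 hδ3
    h1 h2 h3 h4
  exact ⟨p, hεA (Metric.mem_ball.2 (hp.trans_le (min_le_left _ _))), q,
    hεB (Metric.mem_ball.2 (hq.trans_le (min_le_right _ _))), hax⟩

end Pool.CG
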