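import Pool.Agent.Work.MP_ae1ff6_cg.Interface

/-!
Block HYP: the fundamental domain of a hyperbolic element.
-/

open Topology Filter Set
open scoped ComplexConjugate

set_option autoImplicit false

namespace Pool.CG

theorem HYP_mulconj (p : Circle) : (p : ℂ) * conj (p : ℂ) = 1 := by
  rw [Complex.mul_conj, Circle.normSq_coe]
  simp

theorem HYP_real (α β : ℂ) (p : Circle)
    (h : (p : ℂ) * (conj β * (p : ℂ) + conj α) = α * (p : ℂ) + β) :
    conj (conj β * (p : ℂ) + conj α) = conj β * (p : ℂ) + conj α := by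
  have h1 := HYP_mulconj p
  rw [map_add, map_mul, Complex.conj_conj, Complex.conj_conj]
  have h2 : (p : ℂ) ≠ 0 := Circle.coe_ne_zero p
  have h3 : (p : ℂ) * (β * conj (p : ℂ) + α) = (p : ℂ) * (conj β * (p : ℂ) + conj α) := by
    rw [h]
    linear_combination β * h1
  exact mul_left_cancel₀ h2 h3

theorem HYP_norms (α β : ℂ) (hαβ : ‖α‖ ^ 2 - ‖β‖ ^ 2 = 1) (hβ : β ≠ 0) (p q : Circle)
    (hpq : p ≠ q) (hp : (p : ℂ) * (conj β * (p : ℂ) + conj α) = α * (p : ℂ) + β)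
    (hq : (q : ℂ) * (conj β * (q : ℂ) + conj α) = α * (q : ℂ) + β) :
    ‖conj β * (p : ℂ) + conj α‖ ≠ ‖conj β * (q : ℂ) + conj α‖ := by
  have hpq' : (p : ℂ) - (q : ℂ) ≠ 0 := by
    intro h
    exact hpq (Circle.ext (sub_eq_zero.mp h))
  have hcb : conj β ≠ 0 := by
    intro h
    apply hβ
    have := congrArg conj h
    rwa [Complex.conj_conj, map_zero] at this
  have hsum : conj β * ((p : ℂ) + q) = α - conj α := by
    apply mul_right_cancel₀ hpq'
    linear_combination hp - hq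
  have hprod : conj β * (p : ℂ) * q = - β := by
    apply mul_right_cancel₀ hpq'
    linear_combination (q : ℂ) * hp - (p : ℂ) * hq
  have hab : α * conj α - β * conj β = 1 := by
    rw [Complex.mul_conj, Complex.mul_conj, Complex.normSq_eq_norm_sq, Complex.normSq_eq_norm_sq]
    exact_mod_cast hαβ
  have hDD : (conj β * (p : ℂ) + conj α) * (conj β * (q : ℂ) + conj α) = 1 := by
    linear_combination conj β * hprod + conj α * hsum + hab
  intro hn
  have hrp := HYP_real α β p hp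
  have hrq := HYP_real α β q hq
  obtain ⟨x, hx⟩ := Complex.conj_eq_iff_real.mp hrp
  obtain ⟨y, hy⟩ := Complex.conj_eq_iff_real.mp hrq
  rw [hx, hy, Complex.norm_real, Complex.norm_real, Real.norm_eq_abs, Real.norm_eq_abs] at hn
  rw [hx, hy] at hDD
  have hxy : x * y = 1 := by exact_mod_cast hDD
  have hxy2 : x = y := by
    rcases abs_eq_abs.mp hn with h | h
    · exact h
    · exfalso
      rw [h] at hxy
      nlinarith [mul_self_nonneg y]
  have h0 : conj β * ((p : ℂ) - q) = 0 := by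
    have h1 : (conj β * (p : ℂ) + conj α) - (conj β * (q : ℂ) + conj α) = 0 := by
      rw [hx, hy, hxy2, sub_self]
    linear_combination h1
  rcases mul_eq_zero.mp h0 with h | h
  · exact hcb h
  · exact hpq' h

theorem HYP_exp_ne (a b : ℝ) (ha : 0 ≤ a) (hb : 0 ≤ b) (ha2 : a ≤ 2) (hb2 : b ≤ 2)
    (hab : a ≠ b) : Circle.exp a ≠ Circle.exp b := by
  intro h
  have hpi := Real.pi_gt_three
  have h1 := Circle.arg_exp (x := a) (by linarith) (by linarith)
  have h2 := Circle.arg_exp (x := b) (by linarith) (by linarith)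
  rw [h] at h1
  exact hab (h1.symm.trans h2)

theorem HYP_third (p q : Circle) : ∃ z : Circle, z ≠ p ∧ z ≠ q := by
  by_contra hc
  push Not at hc
  have h01 := HYP_exp_ne 0 1 le_rfl zero_le_one zero_le_two one_le_two zero_ne_one
  have h02 := HYP_exp_ne 0 2 le_rfl zero_le_two zero_le_two le_rfl two_ne_zero.symm
  have h12 := HYP_exp_ne 1 2 zero_le_one zero_le_two one_le_two le_rfl (by norm_num)
  by_cases h0 : Circle.exp 0 = p
  · have e1 : Circle.exp 1 ≠ p := fun h => h01 (h0.trans h.symm)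
    have e2 : Circle.exp 2 ≠ p := fun h => h02 (h0.trans h.symm)
    exact h12 ((hc _ e1).trans (hc _ e2).symm)
  · have e0 := hc _ h0
    by_cases h1 : Circle.exp 1 = p
    · have e2 : Circle.exp 2 ≠ p := fun h => h12 (h1.trans h.symm)
      exact h02 (e0.trans (hc _ e2).symm)
    · exact h01 (e0.trans (hc _ h1).symm)

theorem HYP_beta (γ : H) (p q : Circle) (hA : Axis γ p q) (α β : ℂ)
    (hP : Par γ α β) : β ≠ 0 := by
  intro hβ
  subst hβ
  obtain ⟨z, hzp, hzq⟩ := HYP_third p q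
  have hp : γ p = p := (hA.2 p).mpr (Or.inl rfl)
  have e1 := hP.2 p
  rw [hp, map_zero, zero_mul, zero_add, add_zero] at e1
  have e2 : conj α = α := by
    have h2 : (p : ℂ) ≠ 0 := Circle.coe_ne_zero p
    apply mul_left_cancel₀ h2
    rw [e1, mul_comm]
  have hα : α ≠ 0 := by
    intro h
    have := hP.1
    rw [h, norm_zero] at this
    norm_num at this
  have e3 := hP.2 z
  rw [map_zero, zero_mul, zero_add, add_zero, e2] at e3
  have e4 : γ z = z := by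
    apply Circle.ext
    apply mul_right_cancel₀ hα
    rw [e3, mul_comm]
  rcases (hA.2 z).mp e4 with h | h
  · exact hzp h
  · exact hzq h

theorem HYP_iter (γ : H) (p q : Circle) (hA : Axis γ p q) (Λ : ℝ) (hΛ : 0 < Λ)
    (h : ∀ z, z ≠ p → z ≠ q → dist (γ z) p / dist (γ z) q = Λ * (dist z p / dist z q)) (n : ℤ) :
    ∀ z, z ≠ p → z ≠ q →
      dist ((γ ^ n) z) p / dist ((γ ^ n) z) q = Λ ^ n * (dist z p / dist z q) := by
  have hp : γ p = p := (hA.2 p).mpr (Or.inl rfl)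
  have hq : γ q = q := (hA.2 q).mpr (Or.inr rfl)
  have hne : ∀ z, z ≠ p → z ≠ q → γ z ≠ p ∧ γ z ≠ q := by
    intro z hzp hzq
    refine ⟨fun h => hzp (γ.injective (h.trans hp.symm)),
      fun h => hzq (γ.injective (h.trans hq.symm))⟩
  induction n using Int.induction_on with
  | zero =>
    intro z _ _
    rw [zpow_zero, zpow_zero, one_mul]
    rfl
  | succ i ih =>
    intro z hzp hzq
    have h2 : (γ ^ ((i : ℤ) + 1)) z = (γ ^ (i : ℤ)) (γ z) := by
      rw [zpow_add_one]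
      rfl
    rw [h2, ih (γ z) (hne z hzp hzq).1 (hne z hzp hzq).2, h z hzp hzq, zpow_add_one₀ hΛ.ne']
    ring
  | pred i ih =>
    intro z hzp hzq
    obtain ⟨z', hz'⟩ := γ.surjective z
    have hz'p : z' ≠ p := by
      rintro rfl
      exact hzp (hz'.symm.trans hp)
    have hz'q : z' ≠ q := by
      rintro rfl
      exact hzq (hz'.symm.trans hq)
    have h2 : (γ ^ (-(i : ℤ) - 1)) z = (γ ^ (-(i : ℤ))) z' := by
      rw [zpow_sub_one, ← hz']
      change (γ ^ (-(i : ℤ))) (γ⁻¹ (γ z')) = _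
      have h3 : γ⁻¹ (γ z') = z' := γ.symm_apply_apply z'
      rw [h3]
    rw [h2, ih z' hz'p hz'q, ← hz', h z' hz'p hz'q, zpow_sub_one₀ hΛ.ne']
    field_simp

theorem blk_HYP (h1 : Stmt_MB1) : Stmt_HYP := by
  intro γ p q hM hA
  obtain ⟨α, β, hP⟩ := (h1.1 γ).mp hM
  have hβ := HYP_beta γ p q hA α β hP
  obtain ⟨hD0, hD1, -, -, -⟩ := h1.2 γ α β hP
  have hp : γ p = p := (hA.2 p).mpr (Or.inl rfl)
  have hq : γ q = q := (hA.2 q).mpr (Or.inr rfl)
  have ep := hP.2 p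
  rw [hp] at ep
  have eq := hP.2 q
  rw [hq] at eq
  have hn := HYP_norms α β hP.1 hβ p q hA.1 ep eq
  obtain ⟨a, ha, ha0⟩ : ∃ a : ℝ, a = ‖conj β * (p : ℂ) + conj α‖ ∧ 0 < a :=
    ⟨_, rfl, norm_pos_iff.mpr (hD0 p)⟩
  obtain ⟨b, hb, hb0⟩ : ∃ b : ℝ, b = ‖conj β * (q : ℂ) + conj α‖ ∧ 0 < b :=
    ⟨_, rfl, norm_pos_iff.mpr (hD0 q)⟩
  rw [← ha, ← hb] at hn
  obtain ⟨Λ, hΛ, hΛ0, hΛ1⟩ : ∃ Λ : ℝ, Λ = b / a ∧ 0 < Λ ∧ Λ ≠ 1 := by
    refine ⟨_, rfl, div_pos hb0 ha0, ?_⟩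
    intro h
    rw [div_eq_one_iff_eq ha0.ne'] at h
    exact hn h.symm
  have hstep : ∀ z, z ≠ p → z ≠ q →
      dist (γ z) p / dist (γ z) q = Λ * (dist z p / dist z q) := by
    intro z hzp hzq
    have e1 := hD1 z p
    have e2 := hD1 z q
    rw [hp, ← ha] at e1
    rw [hq, ← hb] at e2
    have hd : 0 < ‖conj β * (z : ℂ) + conj α‖ := norm_pos_iff.mpr (hD0 z)
    have hne : dist (γ z) q ≠ 0 := by
      intro h
      have h2 := dist_eq_zero.mp h
      exact hzq (γ.injective (h2.trans hq.symm))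
    rw [← e1, ← e2, hΛ]
    field_simp
  obtain ⟨K, hK1, hK⟩ : ∃ K : ℝ, 1 < K ∧ ∀ x : ℝ, 0 < x → ∃ n : ℤ, 1 ≤ Λ ^ n * x ∧
      Λ ^ n * x ≤ K := by
    rcases lt_or_gt_of_ne hΛ1 with h | h
    · refine ⟨Λ⁻¹, (one_lt_inv₀ hΛ0).mpr h, fun x hx => ?_⟩
      obtain ⟨n, hn1, hn2⟩ := exists_mem_Ico_zpow hx ((one_lt_inv₀ hΛ0).mpr h)
      refine ⟨n, ?_, ?_⟩
      · rw [inv_zpow] at hn1
        have h3 : 0 < Λ ^ n := zpow_pos hΛ0 n
        calc (1 : ℝ) = Λ ^ n * (Λ ^ n)⁻¹ := (mul_inv_cancel₀ h3.ne').symm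
          _ ≤ Λ ^ n * x := mul_le_mul_of_nonneg_left hn1 h3.le
      · have h3 : 0 < Λ ^ n := zpow_pos hΛ0 n
        have h4 : Λ⁻¹ ^ (n + 1) = (Λ ^ n)⁻¹ * Λ⁻¹ := by
          rw [zpow_add_one₀ (inv_ne_zero hΛ0.ne'), inv_zpow]
        rw [h4] at hn2
        calc Λ ^ n * x ≤ Λ ^ n * ((Λ ^ n)⁻¹ * Λ⁻¹) := mul_le_mul_of_nonneg_left hn2.le h3.le
          _ = Λ⁻¹ := by rw [← mul_assoc, mul_inv_cancel₀ h3.ne', one_mul]
    · refine ⟨Λ, h, fun x hx => ?_⟩
      obtain ⟨n, hn1, hn2⟩ := exists_mem_Ico_zpow hx h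
      refine ⟨-n, ?_, ?_⟩
      · have h3 : 0 < Λ ^ n := zpow_pos hΛ0 n
        rw [zpow_neg]
        calc (1 : ℝ) = (Λ ^ n)⁻¹ * Λ ^ n := (inv_mul_cancel₀ h3.ne').symm
          _ ≤ (Λ ^ n)⁻¹ * x := mul_le_mul_of_nonneg_left hn1 (inv_pos.mpr h3).le
      · have h3 : 0 < Λ ^ n := zpow_pos hΛ0 n
        rw [zpow_neg]
        rw [zpow_add_one₀ hΛ0.ne'] at hn2
        calc (Λ ^ n)⁻¹ * x ≤ (Λ ^ n)⁻¹ * (Λ ^ n * Λ) :=
              mul_le_mul_of_nonneg_left hn2.le (inv_pos.mpr h3).le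
          _ = Λ := by rw [← mul_assoc, inv_mul_cancel₀ h3.ne', one_mul]
  have hpq : 0 < dist p q := dist_pos.mpr hA.1
  refine ⟨dist p q / (2 * K), by positivity, fun z hzp hzq => ?_⟩
  have hx : 0 < dist z p / dist z q := div_pos (dist_pos.mpr hzp) (dist_pos.mpr hzq)
  obtain ⟨n, hn1, hn2⟩ := hK _ hx
  rw [← HYP_iter γ p q hA Λ hΛ0 hstep n z hzp hzq] at hn1 hn2
  have hwq : 0 < dist ((γ ^ n) z) q := by
    rcases (dist_nonneg (x := (γ ^ n) z) (y := q)).lt_or_eq with h | h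
    · exact h
    · rw [← h, div_zero] at hn1
      norm_num at hn1
  rw [le_div_iff₀ hwq, one_mul] at hn1
  rw [div_le_iff₀ hwq] at hn2
  have htri : dist p q ≤ dist ((γ ^ n) z) p + dist ((γ ^ n) z) q := by
    rw [dist_comm ((γ ^ n) z) p]
    exact dist_triangle p ((γ ^ n) z) q
  have hmain : dist p q / (2 * K) ≤ dist ((γ ^ n) z) q := by
    rw [div_le_iff₀ (by positivity)]
    nlinarith
  exact ⟨n, hmain.trans hn1, hmain⟩

end Pool.CG
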