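import Pool.Agent.Work.MP_ae1ff6_cg.Interface

/-!
# Theorem CG, block LFV: limits of separating pairs (helper89)
-/

open Topology Filter Set
open scoped ComplexConjugate

set_option autoImplicit false

namespace Pool.CG

theorem LFV_inj {x y : ℝ} (h : Circle.exp x = Circle.exp y) (h1 : x < y + 2 * Real.pi)
    (h2 : y < x + 2 * Real.pi) : x = y := by
  obtain ⟨m, hm⟩ := Circle.exp_eq_exp.1 h
  have hp := Real.two_pi_pos
  have h3 : (m : ℝ) < 1 := by
    by_contra hc
    rw [not_lt] at hc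
    nlinarith
  have h4 : (-1 : ℝ) < m := by
    by_contra hc
    rw [not_lt] at hc
    nlinarith
  have h5 : m < 1 := by exact_mod_cast h3
  have h6 : -1 < m := by exact_mod_cast h4
  have h7 : m = 0 := by omega
  rw [hm, h7]
  simp

theorem LFV_surj (a : ℝ) (z : Circle) : ∃ φ : ℝ, a ≤ φ ∧ φ < a + 2 * Real.pi ∧
    Circle.exp φ = z := by
  have hp := Real.two_pi_pos
  have h1 := toIcoMod_mem_Ico hp a (Complex.arg z)
  refine ⟨toIcoMod hp a (Complex.arg z), h1.1, h1.2, ?_⟩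
  conv_rhs => rw [← Circle.exp_arg z]
  rw [Circle.exp_eq_exp]
  refine ⟨-toIcoDiv hp a (Complex.arg z), ?_⟩
  unfold toIcoMod
  rw [zsmul_eq_mul]
  push_cast
  ring

theorem blk_LFV : Stmt_LFV := by
  intro ι l _ x y u v ℓ u' v' hx hy hu hv hL
  by_contra hne
  rw [not_or] at hne
  obtain ⟨hu', hv'⟩ := hne
  have hp := Real.two_pi_pos
  obtain ⟨θ, -, -, hθ⟩ := LFV_surj 0 ℓ
  have key : ∀ w : Circle, ℓ ≠ w → ∃ s : ℝ, θ < s ∧ s < θ + 2 * Real.pi ∧ Circle.exp s = w := by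
    intro w hw
    obtain ⟨s, h1, h2, h3⟩ := LFV_surj θ w
    refine ⟨s, lt_of_le_of_ne h1 ?_, h2, h3⟩
    rintro rfl
    exact hw (hθ.symm.trans h3)
  obtain ⟨s, s1, s2, s3⟩ := key u' hu'
  obtain ⟨t, t1, t2, t3⟩ := key v' hv'
  obtain ⟨δ, d0, d1, d2, d3, d4⟩ : ∃ δ : ℝ, 0 < δ ∧ δ < s - θ ∧ δ < t - θ ∧
      δ < θ + 2 * Real.pi - s ∧ δ < θ + 2 * Real.pi - t := by
    refine ⟨min (min (s - θ) (t - θ)) (min (θ + 2 * Real.pi - s) (θ + 2 * Real.pi - t)) / 2,
      ?_, ?_, ?_, ?_, ?_⟩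
    · have : 0 < min (min (s - θ) (t - θ)) (min (θ + 2 * Real.pi - s) (θ + 2 * Real.pi - t)) :=
        lt_min (lt_min (by linarith) (by linarith)) (lt_min (by linarith) (by linarith))
      linarith
    all_goals
      have h0 : 0 < min (min (s - θ) (t - θ)) (min (θ + 2 * Real.pi - s) (θ + 2 * Real.pi - t)) :=
        lt_min (lt_min (by linarith) (by linarith)) (lt_min (by linarith) (by linarith))
      have h1 := min_le_left (min (s - θ) (t - θ)) (min (θ + 2 * Real.pi - s) (θ + 2 * Real.pi - t))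
      have h2 := min_le_right (min (s - θ) (t - θ))
        (min (θ + 2 * Real.pi - s) (θ + 2 * Real.pi - t))
      have h3 := min_le_left (s - θ) (t - θ)
      have h4 := min_le_right (s - θ) (t - θ)
      have h5 := min_le_left (θ + 2 * Real.pi - s) (θ + 2 * Real.pi - t)
      have h6 := min_le_right (θ + 2 * Real.pi - s) (θ + 2 * Real.pi - t)
      linarith
  set K : Set Circle := Circle.exp '' Icc (θ + δ) (θ + 2 * Real.pi - δ) with hK
  set K' : Set Circle := Circle.exp '' Icc (θ - δ) (θ + δ) with hK'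
  have hcont : Continuous (Circle.exp : ℝ → Circle) := Circle.exp.continuous
  have cK : IsClosed K := (isCompact_Icc.image hcont).isClosed
  have cK' : IsClosed K' := (isCompact_Icc.image hcont).isClosed
  have pK : IsPreconnected K := isPreconnected_Icc.image _ hcont.continuousOn
  have hcov : ∀ z : Circle, z ∉ K' → z ∈ K := by
    intro z hz
    obtain ⟨φ, h1, h2, h3⟩ := LFV_surj (θ - δ) z
    refine ⟨φ, ⟨?_, by linarith⟩, h3⟩
    by_contra hc
    rw [not_le] at hc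
    exact hz ⟨φ, ⟨h1, hc.le⟩, h3⟩
  have hmem : ∀ r : ℝ, θ + δ < r → r < θ + 2 * Real.pi - δ → Circle.exp r ∉ K' := by
    rintro r h1 h2 ⟨φ, ⟨h3, h4⟩, h5⟩
    have := LFV_inj h5 (by linarith) (by linarith)
    linarith
  have hℓ : ℓ ∉ K := by
    rintro ⟨φ, ⟨h3, h4⟩, h5⟩
    rw [← hθ] at h5
    have := LFV_inj h5 (by linarith) (by linarith)
    linarith
  have e1 : ∀ᶠ i in l, x i ∉ K := hx.eventually (cK.isOpen_compl.mem_nhds hℓ)
  have e2 : ∀ᶠ i in l, y i ∉ K := hy.eventually (cK.isOpen_compl.mem_nhds hℓ)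
  have e3 : ∀ᶠ i in l, u i ∉ K' := hu.eventually (cK'.isOpen_compl.mem_nhds (by
    rw [← s3]
    exact hmem s (by linarith) (by linarith)))
  have e4 : ∀ᶠ i in l, v i ∉ K' := hv.eventually (cK'.isOpen_compl.mem_nhds (by
    rw [← t3]
    exact hmem t (by linarith) (by linarith)))
  obtain ⟨i, h1, h2, h3, h4, h5⟩ := (e1.and (e2.and (e3.and (e4.and hL)))).exists
  rcases h5.2.2 K pK (hcov _ h3) (hcov _ h4) with h6 | h6
  · exact h1 h6
  · exact h2 h6

end Pool.CG
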