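import Pool.Agent.Work.MP_ae1ff6_cg.Interface

/-!
Block LOP: open sets of separating pairs.
-/

open Topology Filter Set
open scoped ComplexConjugate

set_option autoImplicit false

namespace Pool.CG

theorem LOP_param (x y : Circle) (hxy : x ≠ y) : ∃ s t : ℝ, s < t ∧ t < s + 2 * Real.pi ∧
    Circle.exp s = x ∧ Circle.exp t = y := by
  obtain ⟨s, hs⟩ : ∃ s : ℝ, Circle.exp s = x := ⟨Complex.arg (x : ℂ), Circle.exp_arg x⟩
  have hpi : (0 : ℝ) < 2 * Real.pi := Real.two_pi_pos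
  have hm := toIcoMod_mem_Ico hpi s (Complex.arg (y : ℂ))
  have hy : Circle.exp (toIcoMod hpi s (Complex.arg (y : ℂ))) = y := by
    have h1 : toIcoMod hpi s (Complex.arg (y : ℂ)) =
        Complex.arg (y : ℂ) - (toIcoDiv hpi s (Complex.arg (y : ℂ)) : ℤ) • (2 * Real.pi) := rfl
    rw [h1]
    have h2 := Circle.periodic_exp.sub_zsmul_eq (x := Complex.arg (y : ℂ))
      (toIcoDiv hpi s (Complex.arg (y : ℂ)))
    rw [h2]
    exact Circle.exp_arg y
  refine ⟨s, toIcoMod hpi s (Complex.arg (y : ℂ)), ?_, hm.2, hs, hy⟩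
  rcases lt_or_eq_of_le hm.1 with h | h
  · exact h
  · exfalso
    apply hxy
    rw [← hs, ← hy, ← h]

theorem blk_LOP (h1 : Stmt_ARC) : Stmt_LOP := by
  intro x y hxy
  obtain ⟨s, t, hst, hts, rfl, rfl⟩ := LOP_param x y hxy
  obtain ⟨δ, hδ, hδ1, hδ2⟩ : ∃ δ : ℝ, 0 < δ ∧ 4 * δ ≤ t - s ∧ 4 * δ ≤ s + 2 * Real.pi - t := by
    refine ⟨min (t - s) (s + 2 * Real.pi - t) / 4, ?_, ?_, ?_⟩
    · have : 0 < min (t - s) (s + 2 * Real.pi - t) := lt_min (by linarith) (by linarith)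
      linarith
    · have := min_le_left (t - s) (s + 2 * Real.pi - t)
      linarith
    · have := min_le_right (t - s) (s + 2 * Real.pi - t)
      linarith
  have hpi : (0 : ℝ) < 2 * Real.pi := Real.two_pi_pos
  refine ⟨Circle.exp '' Ioo (s - δ) (s + δ), Circle.exp '' Ioo (t - δ) (t + δ),
    Circle.exp '' Ioo (s + δ) (t - δ), Circle.exp '' Ioo (t + δ) (s + 2 * Real.pi - δ),
    ?_, ?_, ?_, ?_, ?_, ?_, ?_⟩
  · exact (h1 (s - δ) (s + δ) (by linarith) (by linarith)).1.mem_nhds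
      ⟨s, ⟨by linarith, by linarith⟩, rfl⟩
  · exact (h1 (t - δ) (t + δ) (by linarith) (by linarith)).1.mem_nhds
      ⟨t, ⟨by linarith, by linarith⟩, rfl⟩
  · exact (h1 (s + δ) (t - δ) (by linarith) (by linarith)).1
  · exact ⟨_, (s + t) / 2, ⟨by linarith, by linarith⟩, rfl⟩
  · exact (h1 (t + δ) (s + 2 * Real.pi - δ) (by linarith) (by linarith)).1
  · exact ⟨_, (t + s + 2 * Real.pi) / 2, ⟨by linarith, by linarith⟩, rfl⟩
  · rintro a ⟨s', hs', rfl⟩ b ⟨t', ht', rfl⟩ c ⟨u, hu, rfl⟩ d ⟨v, hv, rfl⟩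
    refine (h1 s' t' (by linarith [hs'.2, ht'.1]) (by linarith [hs'.1, ht'.2])).2 _
      ⟨u, ⟨by linarith [hs'.2, hu.1], by linarith [ht'.1, hu.2]⟩, rfl⟩ _
      ⟨v, ⟨by linarith [ht'.2, hv.1], by linarith [hs'.1, hv.2]⟩, rfl⟩

end Pool.CG
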