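import Pool.Agent.Work.MP_ae1ff6_cg.Interface

/-!
# Block LSX: arcs around a point and two other points
-/

open Topology Filter Set
open scoped ComplexConjugate

set_option autoImplicit false

namespace Pool.CG

theorem LSX_symm {a b c d : Circle} (h : Link a b c d) : Link b a c d :=
  ⟨⟨h.1.2, h.1.1⟩, ⟨h.2.1.2, h.2.1.1⟩, fun t ht hc hd => (h.2.2 t ht hc hd).symm⟩

theorem LSX_par (s : ℝ) (z : Circle) (hz : Circle.exp s ≠ z) :
    ∃ t ∈ Ioo s (s + 2 * Real.pi), Circle.exp t = z := by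
  have h1 : Circle.exp (toIcoMod Real.two_pi_pos s (Complex.arg (z : ℂ))) = z := by
    unfold toIcoMod
    rw [Circle.periodic_exp.sub_zsmul_eq]
    exact Circle.exp_arg z
  have h3 := toIcoMod_mem_Ico Real.two_pi_pos s (Complex.arg (z : ℂ))
  refine ⟨_, ⟨lt_of_le_of_ne h3.1 ?_, h3.2⟩, h1⟩
  intro h4
  rw [← h4] at h1
  exact hz h1

theorem blk_LSX (hARC : Stmt_ARC) : Stmt_LSX := by
  intro a b c hab hac
  obtain ⟨s, hs⟩ : ∃ s, Circle.exp s = a := ⟨_, Circle.exp_arg a⟩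
  subst hs
  obtain ⟨t, ht, rfl⟩ := LSX_par s b hab
  obtain ⟨t', ht', rfl⟩ := LSX_par s c hac
  obtain ⟨δ, hδ, h1, h2, h3, h4⟩ : ∃ δ : ℝ, 0 < δ ∧ s + 4 * δ ≤ t ∧ s + 4 * δ ≤ t' ∧
      t + 4 * δ ≤ s + 2 * Real.pi ∧ t' + 4 * δ ≤ s + 2 * Real.pi := by
    refine ⟨min (min (t - s) (t' - s)) (min (s + 2 * Real.pi - t) (s + 2 * Real.pi - t')) / 4,
      ?_, ?_, ?_, ?_, ?_⟩
    · have e1 : 0 < t - s := sub_pos.2 ht.1
      have e2 : 0 < t' - s := sub_pos.2 ht'.1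
      have e3 : 0 < s + 2 * Real.pi - t := sub_pos.2 ht.2
      have e4 : 0 < s + 2 * Real.pi - t' := sub_pos.2 ht'.2
      have := lt_min (lt_min e1 e2) (lt_min e3 e4)
      linarith
    all_goals
      have e1 := min_le_left (min (t - s) (t' - s))
        (min (s + 2 * Real.pi - t) (s + 2 * Real.pi - t'))
      have e2 := min_le_right (min (t - s) (t' - s))
        (min (s + 2 * Real.pi - t) (s + 2 * Real.pi - t'))
      have e3 := min_le_left (t - s) (t' - s)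
      have e4 := min_le_right (t - s) (t' - s)
      have e5 := min_le_left (s + 2 * Real.pi - t) (s + 2 * Real.pi - t')
      have e6 := min_le_right (s + 2 * Real.pi - t) (s + 2 * Real.pi - t')
      linarith
  have hopen : ∀ u v : ℝ, u < v → v < u + 2 * Real.pi → IsOpen (Circle.exp '' Ioo u v) :=
    fun u v huv hv => (hARC u v huv hv).1
  have hnhd : ∀ u : ℝ, Circle.exp '' Ioo (u - δ) (u + δ) ∈ 𝓝 (Circle.exp u) := by
    intro u
    refine (hopen (u - δ) (u + δ) (by linarith) (by linarith)).mem_nhds ?_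
    exact ⟨u, ⟨by linarith, by linarith⟩, rfl⟩
  have hlink : ∀ t : ℝ, s + 4 * δ ≤ t → t + 4 * δ ≤ s + 2 * Real.pi →
      ∀ p ∈ Circle.exp '' Ioo (s + δ) (s + 2 * δ), ∀ q ∈ Circle.exp '' Ioo (s - 2 * δ) (s - δ),
      ∀ a' ∈ Circle.exp '' Ioo (s - δ) (s + δ), ∀ b' ∈ Circle.exp '' Ioo (t - δ) (t + δ),
      Link p q a' b' := by
    rintro t ht1 ht2 _ ⟨σ, hσ, rfl⟩ _ ⟨τ, hτ, rfl⟩ _ ⟨α, hα, rfl⟩ _ ⟨β, hβ, rfl⟩
    apply LSX_symm
    refine (hARC τ σ (by linarith [hσ.1, hτ.2]) (by linarith [hσ.2, hτ.1])).2 _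
      ⟨α, ⟨by linarith [hα.1, hτ.2], by linarith [hα.2, hσ.1]⟩, rfl⟩ _
      ⟨β, ⟨by linarith [hβ.1, hσ.2], by linarith [hβ.2, hτ.1]⟩, rfl⟩
  refine ⟨Circle.exp '' Ioo (s + δ) (s + 2 * δ), Circle.exp '' Ioo (s - 2 * δ) (s - δ),
    Circle.exp '' Ioo (s - δ) (s + δ), Circle.exp '' Ioo (t - δ) (t + δ),
    Circle.exp '' Ioo (t' - δ) (t' + δ), hopen _ _ (by linarith) (by linarith),
    (nonempty_Ioo.2 (by linarith)).image _, hopen _ _ (by linarith) (by linarith),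
    (nonempty_Ioo.2 (by linarith)).image _, hnhd s, hnhd t, hnhd t', ?_⟩
  intro p hp q hq a' ha'
  exact ⟨fun b' hb' => hlink t h1 h3 p hp q hq a' ha' b' hb',
    fun c' hc' => hlink t' h2 h4 p hp q hq a' ha' c' hc'⟩

end Pool.CG

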