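import Pool.Agent.Work.MP_ae1ff6_cg.Interface

/-! Block LUB (helper69). -/

open Topology Filter Set
open scoped ComplexConjugate

set_option autoImplicit false

namespace Pool.CG

theorem blk_LUB (h1 : Stmt_LFV) : Stmt_LUB := by
  intro r s ρ hρ
  by_contra hcon
  push Not at hcon
  have hex : ∀ n : ℕ, ∃ x y : Circle, ρ ≤ dist x r ∧ ρ ≤ dist x s ∧ Link x y r s ∧
      dist x y < 1 / ((n : ℝ) + 1) := fun n => by
    obtain ⟨x, y, a, b, c, d⟩ := hcon (1 / ((n : ℝ) + 1)) (by positivity)
    exact ⟨x, y, a, b, c, d⟩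
  choose x y hxr hxs hl hd using hex
  obtain ⟨ℓ, -, φ, hφ, hlim⟩ := isCompact_univ.tendsto_subseq (fun n => mem_univ (x n))
  have hd0 : Tendsto (fun n => dist (x (φ n)) (y (φ n))) atTop (𝓝 0) := by
    have h2 : Tendsto (fun n => dist (x n) (y n)) atTop (𝓝 0) :=
      squeeze_zero (fun _ => dist_nonneg) (fun n => (hd n).le) tendsto_one_div_add_atTop_nhds_zero_nat
    exact h2.comp hφ.tendsto_atTop
  have hy : Tendsto (fun n => y (φ n)) atTop (𝓝 ℓ) := hlim.congr_dist hd0
  have h3 := h1 ℕ atTop (fun n => x (φ n)) (fun n => y (φ n)) (fun _ => r) (fun _ => s) ℓ r s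
    hlim hy tendsto_const_nhds tendsto_const_nhds (Eventually.of_forall fun n => hl (φ n))
  have h4 : ρ ≤ dist ℓ r := by
    refine ge_of_tendsto (hlim.dist tendsto_const_nhds) (Eventually.of_forall fun n => hxr (φ n))
  have h5 : ρ ≤ dist ℓ s := by
    refine ge_of_tendsto (hlim.dist tendsto_const_nhds) (Eventually.of_forall fun n => hxs (φ n))
  rcases h3 with h | h
  · rw [h, dist_self] at h4
    linarith
  · rw [h, dist_self] at h5
    linarith

end Pool.CG
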