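import Pool.Agent.Work.MP_ae1ff6_cg.Interface

/-!
# Block MB1 (MP_ae1ff6_gt): formulas for Möbius maps of the circle (helper88)
-/

open Topology Filter Set
open scoped ComplexConjugate

set_option autoImplicit false

namespace Pool.CG

theorem MB1_conj (z : ℂ) : ‖conj z‖ = ‖z‖ := by
  rw [Complex.norm_conj]

theorem MB1_mul (z : ℂ) : z * conj z = ((‖z‖ ^ 2 : ℝ) : ℂ) := by
  rw [Complex.mul_conj, Complex.normSq_eq_norm_sq]

theorem MB1_det (α β : ℂ) (h : ‖α‖ ^ 2 - ‖β‖ ^ 2 = 1) : α * conj α - β * conj β = 1 := by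
  rw [MB1_mul, MB1_mul, ← Complex.ofReal_sub, h, Complex.ofReal_one]

theorem MB1_lt (α β : ℂ) (h : ‖α‖ ^ 2 - ‖β‖ ^ 2 = 1) : ‖β‖ < ‖α‖ := by
  have h1 := norm_nonneg α
  have h2 := norm_nonneg β
  by_contra hc
  rw [not_lt] at hc
  nlinarith

theorem MB1_le (α β : ℂ) (h : ‖α‖ ^ 2 - ‖β‖ ^ 2 = 1) : ‖α‖ ≤ ‖β‖ + 1 := by
  have h1 := norm_nonneg α
  have h2 := norm_nonneg β
  by_contra hc
  rw [not_le] at hc
  nlinarith

theorem MB1_lower (α β : ℂ) (z : Circle) : ‖α‖ - ‖β‖ ≤ ‖conj β * (z : ℂ) + conj α‖ := by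
  have h1 : ‖conj β * (z : ℂ)‖ = ‖β‖ := by rw [norm_mul, MB1_conj, Circle.norm_coe, mul_one]
  have h2 : ‖conj α‖ ≤ ‖conj β * (z : ℂ) + conj α‖ + ‖conj β * (z : ℂ)‖ := by
    have := norm_sub_le (conj β * (z : ℂ) + conj α) (conj β * (z : ℂ))
    rwa [add_sub_cancel_left] at this
  rw [h1, MB1_conj] at h2
  linarith

theorem MB1_upper (α β : ℂ) (z : Circle) : ‖conj β * (z : ℂ) + conj α‖ ≤ ‖β‖ + ‖α‖ := by
  refine (norm_add_le _ _).trans ?_
  rw [norm_mul, MB1_conj, MB1_conj, Circle.norm_coe, mul_one]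

theorem MB1_ne (α β : ℂ) (h : ‖α‖ ^ 2 - ‖β‖ ^ 2 = 1) (z : Circle) :
    conj β * (z : ℂ) + conj α ≠ 0 := by
  have h1 := MB1_lt α β h
  have h2 := MB1_lower α β z
  rw [← norm_pos_iff]
  linarith

theorem MB1_dist (z w : Circle) : dist z w = ‖(z : ℂ) - w‖ := by
  rw [← dist_eq_norm]
  rfl

theorem blk_MB1 : Stmt_MB1 := by
  refine ⟨fun g => ⟨?_, ?_⟩, ?_⟩
  · rintro ⟨α, β, h, hg⟩
    refine ⟨α, β, h, fun z => ?_⟩
    rw [hg z, div_mul_cancel₀ _ (MB1_ne α β h z)]
  · rintro ⟨α, β, h, hg⟩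
    refine ⟨α, β, h, fun z => ?_⟩
    rw [eq_div_iff (MB1_ne α β h z)]
    exact hg z
  · rintro g α β ⟨h, hg⟩
    have hdet := MB1_det α β h
    have hle := MB1_le α β h
    have hlt := MB1_lt α β h
    have hβ0 := norm_nonneg β
    refine ⟨MB1_ne α β h, ?_, ?_, hle, ?_⟩
    · intro z w
      rw [MB1_dist, MB1_dist, ← norm_mul, ← norm_mul]
      congr 1
      have e1 := hg z
      have e2 := hg w
      calc ((g z : ℂ) - g w) * ((conj β * (z : ℂ) + conj α) * (conj β * (w : ℂ) + conj α))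
          = ((g z : ℂ) * (conj β * (z : ℂ) + conj α)) * (conj β * (w : ℂ) + conj α) -
            ((g w : ℂ) * (conj β * (w : ℂ) + conj α)) * (conj β * (z : ℂ) + conj α) := by ring
        _ = (α * (z : ℂ) + β) * (conj β * (w : ℂ) + conj α) -
            (α * (w : ℂ) + β) * (conj β * (z : ℂ) + conj α) := by rw [e1, e2]
        _ = (α * conj α - β * conj β) * ((z : ℂ) - w) := by ring
        _ = (z : ℂ) - w := by rw [hdet, one_mul]
    · intro hβ z
      have hβ' : conj β ≠ 0 := by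
        rw [Ne, map_eq_zero]
        exact hβ
      have e1 := hg z
      have e3 : ((g z : ℂ) - α / conj β) * (conj β * (conj β * (z : ℂ) + conj α)) = -1 := by
        calc ((g z : ℂ) - α / conj β) * (conj β * (conj β * (z : ℂ) + conj α))
            = conj β * ((g z : ℂ) * (conj β * (z : ℂ) + conj α)) -
              (α / conj β * conj β) * (conj β * (z : ℂ) + conj α) := by ring
          _ = conj β * (α * (z : ℂ) + β) - α * (conj β * (z : ℂ) + conj α) := by
              rw [e1, div_mul_cancel₀ _ hβ']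
          _ = -(α * conj α - β * conj β) := by ring
          _ = -1 := by rw [hdet]
      have e4 := congrArg (fun x : ℂ => ‖x‖) e3
      simp only [norm_mul, MB1_conj, norm_neg, norm_one] at e4
      exact e4
    · intro z
      constructor
      · refine le_trans ?_ (MB1_lower α β z)
        rw [div_le_iff₀ (by positivity)]
        nlinarith
      · exact (MB1_upper α β z).trans (by linarith)

end Pool.CG
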