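import Pool.Agent.Work.MP_ae1ff6_cg.Interface

/-!
Block MB2: products and inverses of Moebius maps.
-/

open Topology Filter Set
open scoped ComplexConjugate

set_option autoImplicit false

namespace Pool.CG

theorem MB2_norm (α β α' β' : ℂ) (h : ‖α‖ ^ 2 - ‖β‖ ^ 2 = 1) (h' : ‖α'‖ ^ 2 - ‖β'‖ ^ 2 = 1) :
    ‖α * α' + β * conj β'‖ ^ 2 - ‖α * β' + β * conj α'‖ ^ 2 = 1 := by
  have e : ((‖α * α' + β * conj β'‖ ^ 2 - ‖α * β' + β * conj α'‖ ^ 2 : ℝ) : ℂ) =
      ((‖α‖ ^ 2 - ‖β‖ ^ 2 : ℝ) : ℂ) * ((‖α'‖ ^ 2 - ‖β'‖ ^ 2 : ℝ) : ℂ) := by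
    push_cast
    rw [← Complex.mul_conj', ← Complex.mul_conj', ← Complex.mul_conj', ← Complex.mul_conj',
      ← Complex.mul_conj', ← Complex.mul_conj']
    simp only [map_add, map_mul, Complex.conj_conj]
    ring
  rw [h, h'] at e
  have e2 : ((‖α * α' + β * conj β'‖ ^ 2 - ‖α * β' + β * conj α'‖ ^ 2 : ℝ) : ℂ) = ((1 : ℝ) : ℂ) := by
    rw [e]; norm_num
  exact Complex.ofReal_injective e2

theorem blk_MB2 (_ : Stmt_MB1) : Stmt_MB2 := by
  refine ⟨?_, ?_, ?_⟩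
  · rintro g g' α β α' β' ⟨h1, h2⟩ ⟨h1', h2'⟩
    refine ⟨MB2_norm α β α' β' h1 h1', ?_⟩
    intro z
    have e1 := h2' z
    have e2 := h2 (g' z)
    have e3 : ((g * g') z : Circle) = g (g' z) := rfl
    rw [e3]
    simp only [map_add, map_mul, Complex.conj_conj]
    linear_combination ((g (g' z) : ℂ) * conj β - α) * e1 * (-1) +
      (conj β' * (z : ℂ) + conj α') * e2
  · rintro g α β ⟨h1, h2⟩
    refine ⟨?_, ?_⟩
    · rw [Complex.norm_conj, norm_neg]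
      exact h1
    · intro z
      have e1 := h2 (g⁻¹ z)
      have e3 : g (g⁻¹ z) = z := g.apply_symm_apply z
      rw [e3] at e1
      simp only [map_neg, Complex.conj_conj]
      linear_combination -e1
  · refine ⟨by simp, ?_⟩
    intro z
    have e3 : ((1 : H) z : Circle) = z := rfl
    rw [e3]
    simp

end Pool.CG
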