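import Pool.Agent.Work.MP_ae1ff6_cg.Interface

/-! # Groups of mapping classes and convergence groups: block MB3 -/

open Topology Filter Set
open scoped ComplexConjugate

set_option autoImplicit false

namespace Pool.CG

lemma MB3_roots (a b c x y z : ℂ) (hxy : x ≠ y) (hyz : y ≠ z) (hxz : x ≠ z)
    (hx : a * x ^ 2 + b * x + c = 0) (hy : a * y ^ 2 + b * y + c = 0)
    (hz : a * z ^ 2 + b * z + c = 0) : a = 0 ∧ b = 0 ∧ c = 0 := by
  have h1 : (x - y) * (a * (x + y) + b) = 0 := by linear_combination hx - hy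
  have h2 : (y - z) * (a * (y + z) + b) = 0 := by linear_combination hy - hz
  have h1' : a * (x + y) + b = 0 := by
    rcases mul_eq_zero.mp h1 with h | h
    · exact absurd (sub_eq_zero.mp h) hxy
    · exact h
  have h2' : a * (y + z) + b = 0 := by
    rcases mul_eq_zero.mp h2 with h | h
    · exact absurd (sub_eq_zero.mp h) hyz
    · exact h
  have h3 : (x - z) * a = 0 := by linear_combination h1' - h2'
  have ha : a = 0 := by
    rcases mul_eq_zero.mp h3 with h | h
    · exact absurd (sub_eq_zero.mp h) hxz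
    · exact h
  have hb : b = 0 := by
    rw [ha] at h1'
    linear_combination h1'
  refine ⟨ha, hb, ?_⟩
  rw [ha, hb] at hx
  linear_combination hx

theorem blk_MB3 (h1 : Stmt_MB1) : Stmt_MB3 := by
  intro g hg x y z hxy hyz hxz hx hy hz
  obtain ⟨α, β, hn, hp⟩ := (h1.1 g).mp hg
  have hq : ∀ w : Circle, g w = w →
      conj β * (w : ℂ) ^ 2 + (conj α - α) * (w : ℂ) + (-β) = 0 := by
    intro w hw
    have := hp w
    rw [hw] at this
    linear_combination this
  have hc : ∀ v w : Circle, v ≠ w → (v : ℂ) ≠ w := fun v w h h' => h (Circle.ext h')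
  obtain ⟨hb, ha, _⟩ := MB3_roots _ _ _ _ _ _ (hc _ _ hxy) (hc _ _ hyz) (hc _ _ hxz) (hq x hx)
    (hq y hy) (hq z hz)
  have hβ : β = 0 := (map_eq_zero _).mp hb
  have hα : conj α = α := sub_eq_zero.mp ha
  have hα0 : α ≠ 0 := by
    rintro rfl
    rw [hβ, norm_zero] at hn
    norm_num at hn
  refine Homeomorph.ext fun w => ?_
  have := hp w
  rw [hb, hα, hβ, zero_mul, zero_add, add_zero, mul_comm] at this
  exact Circle.ext (mul_left_cancel₀ hα0 this)

end Pool.CG
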