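import Pool.Agent.Work.MP_ae1ff6_cg.Interface

/-!
# Block RLZ: realized groups are convergence groups
-/

open Topology Filter Set
open scoped ComplexConjugate

set_option autoImplicit false

namespace Pool.CG

theorem RLZ_unif (h : H) (ε : ℝ) (hε : 0 < ε) :
    ∃ δ : ℝ, 0 < δ ∧ ∀ x y : Circle, dist x y < δ → dist (h x) (h y) < ε := by
  have h1 : UniformContinuous h := CompactSpace.uniformContinuous_of_continuous h.continuous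
  obtain ⟨δ, hδ, h2⟩ := Metric.uniformContinuous_iff.1 h1 ε hε
  exact ⟨δ, hδ, fun x y hxy => h2 hxy⟩

theorem RLZ_third (p q : Circle) : ∃ r : Circle, r ≠ p ∧ r ≠ q := by
  have h1 : Nontrivial Circle := by
    refine ⟨⟨1, -1, ?_⟩⟩
    intro h
    have h2 := congrArg (fun z : Circle => (z : ℂ)) h
    have h3 : (1 : ℂ) = -1 := h2
    norm_num at h3
  have h2 : Infinite Circle := PreconnectedSpace.infinite
  obtain ⟨r, hr⟩ := Set.Infinite.nonempty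
    (((Set.finite_singleton q).insert p).infinite_compl (α := Circle))
  refine ⟨r, ?_, ?_⟩
  · intro h
    exact hr (by rw [h]; exact Set.mem_insert _ _)
  · intro h
    exact hr (by rw [h]; exact Set.mem_insert_of_mem _ rfl)

theorem RLZ_mv (h : H) (ε : ℝ) (hε : 0 < ε) :
    ∃ ε' : ℝ, 0 < ε' ∧ ∀ g : H, Mv ε g → Mv ε' (h * g * h⁻¹) := by
  obtain ⟨δ, hδ, h1⟩ := RLZ_unif h⁻¹ ε hε
  have h2 : ∀ x y : Circle, ε ≤ dist x y → δ ≤ dist (h x) (h y) := by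
    intro x y hxy
    by_contra hcon
    have h3 := h1 _ _ (not_le.1 hcon)
    have e : ∀ z, h⁻¹ (h z) = z := fun z => h.symm_apply_apply z
    rw [e, e] at h3
    exact absurd h3 (not_lt.2 hxy)
  refine ⟨δ, hδ, ?_⟩
  rintro g ⟨a, b, c, ⟨f1, f2, f3⟩, ⟨f4, f5, f6⟩⟩
  have e : ∀ z, (h * g * h⁻¹) (h z) = h (g z) := by
    intro z
    change h (g (h.symm (h z))) = h (g z)
    rw [h.symm_apply_apply]
  refine ⟨h a, h b, h c, ⟨h2 _ _ f1, h2 _ _ f2, h2 _ _ f3⟩, ?_⟩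
  rw [e, e, e]
  exact ⟨h2 _ _ f4, h2 _ _ f5, h2 _ _ f6⟩

/-- elements near to the identity -/
theorem RLZ_near (hMB1 : Stmt_MB1) (hBND : Stmt_BND) (hPIG : Stmt_PIG) (G : Subgroup H) (h : H)
    (hh : ∀ g ∈ G, IsMob (h * g * h⁻¹)) (ε : ℝ) (hε : 0 < ε)
    (hinf : {g : H | g ∈ G ∧ Mv ε g}.Infinite) (η : ℝ) (hη : 0 < η) :
    ∃ k ∈ G, k ≠ 1 ∧ ∀ z, dist (k z) z < η := by
  obtain ⟨ε', hε', hmv⟩ := RLZ_mv h ε hε
  have hinj : Function.Injective (fun g : H => h * g * h⁻¹) := by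
    intro g g' hgg
    have h1 : h * g * h⁻¹ = h * g' * h⁻¹ := hgg
    exact mul_left_cancel (mul_right_cancel h1)
  have hinf' := hinf.image (hinj.injOn (s := {g : H | g ∈ G ∧ Mv ε g}))
  obtain ⟨η', hη', hu⟩ := RLZ_unif h⁻¹ η hη
  have hpar : ∀ g ∈ (fun g : H => h * g * h⁻¹) '' {g : H | g ∈ G ∧ Mv ε g},
      ∃ α β, Par g α β ∧ ‖β‖ ≤ 1 + 8 / ε' ^ 3 := by
    rintro g ⟨g', ⟨hg1, hg2⟩, rfl⟩
    obtain ⟨α, β, hp⟩ := (hMB1.1 _).1 (hh g' hg1)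
    refine ⟨α, β, hp, ?_⟩
    have h3 := hBND _ α β ε' hp hε' (hmv g' hg2)
    have h4 : 0 < ε' ^ 3 := pow_pos hε' 3
    have h5 : ‖β‖ ^ 2 ≤ 8 / ε' ^ 3 := by
      rw [le_div_iff₀ h4]
      exact h3
    have h6 : 0 ≤ 8 / ε' ^ 3 := by positivity
    rcases le_total ‖β‖ 1 with h7 | h7
    · linarith
    · nlinarith
  obtain ⟨g1, hg1, g2, hg2, hne, hd⟩ := hPIG _ _ hinf' hpar η' hη'
  obtain ⟨k1, ⟨hk1, -⟩, rfl⟩ := hg1
  obtain ⟨k2, ⟨hk2, -⟩, rfl⟩ := hg2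
  refine ⟨k1⁻¹ * k2, G.mul_mem (G.inv_mem hk1) hk2, ?_, ?_⟩
  · intro h1
    apply hne
    have h2 : k1 = k2 := by
      rw [← mul_one k1, ← h1, mul_inv_cancel_left]
    rw [h2]
  · intro z
    have h1 := hd (h z)
    have e1 : (h * k1 * h⁻¹)⁻¹ * (h * k2 * h⁻¹) = h * (k1⁻¹ * k2) * h⁻¹ := by group
    have h2 : dist ((h * (k1⁻¹ * k2) * h⁻¹) (h z)) (h z) < η' := by
      rw [← e1]
      exact h1
    have e2 : (h * (k1⁻¹ * k2) * h⁻¹) (h z) = h ((k1⁻¹ * k2) z) := by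
      change h ((k1⁻¹ * k2) (h.symm (h z))) = h ((k1⁻¹ * k2) z)
      rw [h.symm_apply_apply]
    rw [e2] at h2
    have h3 := hu _ _ h2
    have e3 : ∀ z, h⁻¹ (h z) = z := fun z => h.symm_apply_apply z
    rw [e3, e3] at h3
    exact h3

theorem RLZ_inv (k : H) (η : ℝ) (h : ∀ z, dist (k z) z < η) : ∀ z, dist (k⁻¹ z) z < η := by
  intro z
  have h1 := h (k⁻¹ z)
  have e : k (k⁻¹ z) = z := k.apply_symm_apply z
  rw [e, dist_comm] at h1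
  exact h1

/-- commutation -/
theorem RLZ_comm (Γ G : Subgroup H) (hΓG : Γ ≤ G) (hn : ∀ g ∈ G, ∀ γ ∈ Γ, g * γ * g⁻¹ ∈ Γ)
    (ε₀ : ℝ) (hε₀ : 0 < ε₀) (hdisc : ∀ γ ∈ Γ, (∀ z, dist (γ z) z < ε₀) → γ = 1)
    (γ : H) (hγ : γ ∈ Γ) :
    ∃ η : ℝ, 0 < η ∧ ∀ k ∈ G, (∀ z, dist (k z) z < η) → k * γ = γ * k := by
  obtain ⟨δ, hδ, hu⟩ := RLZ_unif γ (ε₀ / 2) (half_pos hε₀)
  refine ⟨min (ε₀ / 2) δ, lt_min (half_pos hε₀) hδ, fun k hk hd => ?_⟩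
  have hd' := RLZ_inv k _ hd
  have h1 : k * γ * k⁻¹ * γ⁻¹ ∈ Γ := Γ.mul_mem (hn k hk γ hγ) (Γ.inv_mem hγ)
  have h2 : k * γ * k⁻¹ * γ⁻¹ = 1 := by
    apply hdisc _ h1
    intro z
    obtain ⟨w, hw⟩ : ∃ w, w = γ⁻¹ z := ⟨_, rfl⟩
    have hz : γ w = z := by
      rw [hw]
      exact γ.apply_symm_apply z
    have e1 : (k * γ * k⁻¹ * γ⁻¹) z = k (γ (k⁻¹ w)) := by
      rw [hw]
      rfl
    have h3 : dist (k (γ (k⁻¹ w))) (γ (k⁻¹ w)) < ε₀ / 2 :=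
      lt_of_lt_of_le (hd _) (min_le_left _ _)
    have h4 : dist (γ (k⁻¹ w)) (γ w) < ε₀ / 2 :=
      hu _ _ (lt_of_lt_of_le (hd' w) (min_le_right _ _))
    rw [e1]
    calc dist (k (γ (k⁻¹ w))) z ≤ dist (k (γ (k⁻¹ w))) (γ (k⁻¹ w)) + dist (γ (k⁻¹ w)) z :=
          dist_triangle _ _ _
      _ < ε₀ / 2 + ε₀ / 2 := by
          rw [← hz]
          exact add_lt_add h3 h4
      _ = ε₀ := by ring
  have h3 : k * γ * k⁻¹ * γ⁻¹ * γ * k = 1 * γ * k := by rw [h2]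
  have h4 : k * γ * k⁻¹ * γ⁻¹ * γ * k = k * γ := by group
  rw [h4, one_mul] at h3
  exact h3

theorem RLZ_fix (k γ : H) (p q : Circle) (hax : Axis γ p q) (hc : k * γ = γ * k) (η : ℝ)
    (hη : η ≤ dist p q) (hd : ∀ z, dist (k z) z < η) : k p = p ∧ k q = q := by
  have h1 : ∀ z, γ z = z → γ (k z) = k z := by
    intro z hz
    have h2 := congrArg (fun f : H => f z) hc
    have h3 : k (γ z) = γ (k z) := h2
    rw [hz] at h3
    exact h3.symm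
  constructor
  · have h2 := (hax.2 _).1 (h1 p ((hax.2 p).2 (Or.inl rfl)))
    rcases h2 with h2 | h2
    · exact h2
    · have h3 := hd p
      rw [h2, dist_comm] at h3
      linarith
  · have h2 := (hax.2 _).1 (h1 q ((hax.2 q).2 (Or.inr rfl)))
    rcases h2 with h2 | h2
    · have h3 := hd q
      rw [h2] at h3
      linarith
    · exact h2

theorem blk_RLZ (hMB1 : Stmt_MB1) (hMB3 : Stmt_MB3) (hBND : Stmt_BND) (hPIG : Stmt_PIG)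
    (hDNS : Stmt_DNS) : Stmt_RLZ := by
  classical
  intro Γ G hΓ hΓG hn ⟨h, hh⟩ ε hε
  by_contra hcon
  have hinf : {g : H | g ∈ G ∧ Mv ε g}.Infinite := hcon
  have hnear := RLZ_near hMB1 hBND hPIG G h hh ε hε hinf
  obtain ⟨ε₀, hε₀, hdisc⟩ := hΓ.discrete
  obtain ⟨γ₁, hγ₁, p₁, -, q₁, -, hax₁⟩ := hDNS Γ hΓ univ univ isOpen_univ univ_nonempty
    isOpen_univ univ_nonempty
  obtain ⟨r, hr1, hr2⟩ := RLZ_third p₁ q₁
  obtain ⟨γ₂, hγ₂, p₂, hp₂, q₂, -, hax₂⟩ := hDNS Γ hΓ ({p₁, q₁} : Set Circle)ᶜ univ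
    ((Set.finite_singleton q₁).insert p₁).isClosed.isOpen_compl
    ⟨r, by
      intro hmem
      rcases hmem with h1 | h1
      · exact hr1 h1
      · exact hr2 h1⟩ isOpen_univ univ_nonempty
  have hp21 : p₂ ≠ p₁ := fun h1 => hp₂ (Or.inl h1)
  have hp2q : p₂ ≠ q₁ := fun h1 => hp₂ (Or.inr h1)
  obtain ⟨η₁, hη₁, hc₁⟩ := RLZ_comm Γ G hΓG hn ε₀ hε₀ hdisc γ₁ hγ₁
  obtain ⟨η₂, hη₂, hc₂⟩ := RLZ_comm Γ G hΓG hn ε₀ hε₀ hdisc γ₂ hγ₂
  have hd1 : 0 < dist p₁ q₁ := dist_pos.2 hax₁.1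
  have hd2 : 0 < dist p₂ q₂ := dist_pos.2 hax₂.1
  obtain ⟨k, hk, hk1, hkd⟩ := hnear (min (min η₁ η₂) (min (dist p₁ q₁) (dist p₂ q₂)))
    (lt_min (lt_min hη₁ hη₂) (lt_min hd1 hd2))
  have hkd1 : ∀ z, dist (k z) z < η₁ := fun z =>
    lt_of_lt_of_le (hkd z) ((min_le_left _ _).trans (min_le_left _ _))
  have hkd2 : ∀ z, dist (k z) z < η₂ := fun z =>
    lt_of_lt_of_le (hkd z) ((min_le_left _ _).trans (min_le_right _ _))
  have hf1 := RLZ_fix k γ₁ p₁ q₁ hax₁ (hc₁ k hk hkd1) _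
    ((min_le_right _ _).trans (min_le_left _ _)) hkd
  have hf2 := RLZ_fix k γ₂ p₂ q₂ hax₂ (hc₂ k hk hkd2) _
    ((min_le_right _ _).trans (min_le_right _ _)) hkd
  have e : ∀ z, k z = z → (h * k * h⁻¹) (h z) = h z := by
    intro z hz
    change h (k (h.symm (h z))) = h z
    rw [h.symm_apply_apply, hz]
  have h9 := hMB3 (h * k * h⁻¹) (hh k hk) (h p₁) (h q₁) (h p₂)
    (fun h1 => hax₁.1 (h.injective h1)) (fun h1 => hp2q (h.injective h1).symm)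
    (fun h1 => hp21 (h.injective h1).symm) (e _ hf1.1) (e _ hf1.2) (e _ hf2.1)
  apply hk1
  have h10 : k = h⁻¹ * (h * k * h⁻¹) * h := by group
  rw [h10, h9, mul_one, inv_mul_cancel]

end Pool.CG
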