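import Pool.Agent.Work.MP_ae1ff6_cg.Interface2
import Pool.Agent.Work.MP_ae1ff6_cg.B_RLZ

/-!
# Block RL2: weakly realized groups are convergence groups
-/

open Topology Filter Set
open scoped ComplexConjugate

set_option autoImplicit false

namespace Pool.CG

theorem RL2_circ (p : Circle) : (p : ℂ) * conj (p : ℂ) = 1 := by
  rw [Complex.mul_conj, Circle.normSq_coe]
  norm_num

theorem RL2_real (γ : H) (α β : ℂ) (hp : Par γ α β) (p : Circle) (hpf : γ p = p) :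
    conj (conj β * (p : ℂ) + conj α) = conj β * (p : ℂ) + conj α := by
  have h1 := hp.2 p
  rw [hpf] at h1
  have h2 := RL2_circ p
  rw [map_add, map_mul, Complex.conj_conj, Complex.conj_conj]
  have h3 : conj (p : ℂ) * ((p : ℂ) * (conj β * (p : ℂ) + conj α)) = conj (p : ℂ) * (α * (p : ℂ) + β) := by
    rw [h1]
  linear_combination (-1 : ℂ) * h3 + (conj β * (p : ℂ) + conj α - α) * h2

theorem RL2_prod (γ : H) (α β : ℂ) (hp : Par γ α β) (p q : Circle) (hpf : γ p = p)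
    (hqf : γ q = q) (hpq : p ≠ q) :
    (conj β * (p : ℂ) + conj α) * (conj β * (q : ℂ) + conj α) = 1 := by
  have h1 := hp.2 p
  have h2 := hp.2 q
  rw [hpf] at h1
  rw [hqf] at h2
  have h3 : α * conj α - β * conj β = 1 := by
    rw [Complex.mul_conj, Complex.mul_conj, Complex.normSq_eq_norm_sq, Complex.normSq_eq_norm_sq]
    have := hp.1
    rw [← Complex.ofReal_sub, this, Complex.ofReal_one]
  have h4 : (p : ℂ) - (q : ℂ) ≠ 0 := by
    rw [sub_ne_zero]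
    exact fun h => hpq (Circle.ext h)
  apply mul_left_cancel₀ h4
  linear_combination (conj β * (q : ℂ) + conj α) * h1 - (conj β * (p : ℂ) + conj α) * h2 +
    ((p : ℂ) - (q : ℂ)) * h3

theorem RL2_scale (hMB1 : Stmt_MB1) (γ : H) (α β : ℂ) (hp : Par γ α β) (p q : Circle)
    (hpf : γ p = p) (hqf : γ q = q) (z : Circle) (hzq : z ≠ q) (n : ℕ) :
    dist ((γ ^ n) z) p / dist ((γ ^ n) z) q = dist z p / dist z q *
      (‖conj β * (q : ℂ) + conj α‖ / ‖conj β * (p : ℂ) + conj α‖) ^ n := by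
  obtain ⟨hD, hdist, -⟩ := hMB1.2 γ α β hp
  induction n with
  | zero => simp
  | succ n ih =>
    have h1 := hdist ((γ ^ n) z) p
    have h2 := hdist ((γ ^ n) z) q
    rw [hpf] at h1
    rw [hqf] at h2
    have e : (γ ^ (n + 1)) z = γ ((γ ^ n) z) := by
      rw [pow_succ']
      rfl
    have hne : (γ ^ n) z ≠ q := by
      intro h
      have h3 : ∀ m : ℕ, (γ ^ m) q = q := by
        intro m
        induction m with
        | zero => rfl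
        | succ m ihm =>
          rw [pow_succ']
          change γ ((γ ^ m) q) = q
          rw [ihm, hqf]
      exact hzq ((γ ^ n).injective (h.trans (h3 n).symm))
    have hd0 : dist ((γ ^ n) z) q ≠ 0 := dist_ne_zero.2 hne
    have hDz := norm_ne_zero_iff.2 (hD ((γ ^ n) z))
    have hDp := norm_ne_zero_iff.2 (hD p)
    have hDq := norm_ne_zero_iff.2 (hD q)
    have hd1 : dist (γ ((γ ^ n) z)) q ≠ 0 := by
      intro h
      rw [h, zero_mul] at h2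
      exact hd0 h2.symm
    rw [e, pow_succ, ← mul_assoc, ← ih]
    rw [← h1, ← h2]
    field_simp

theorem RL2_ord (hMB1 : Stmt_MB1) (γ : H) (hm : IsMob γ) (p q : Circle) (hax : Axis γ p q)
    (n : ℕ) (hn : 0 < n) : γ ^ n ≠ 1 := by
  intro hcon
  obtain ⟨α, β, hp⟩ := (hMB1.1 γ).1 hm
  have hpf : γ p = p := (hax.2 p).2 (Or.inl rfl)
  have hqf : γ q = q := (hax.2 q).2 (Or.inr rfl)
  obtain ⟨z, hz1, hz2⟩ := RLZ_third p q
  obtain ⟨hD, -⟩ := hMB1.2 γ α β hp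
  have h1 := RL2_scale hMB1 γ α β hp p q hpf hqf z hz2 n
  rw [hcon] at h1
  have h2 : (0 : ℝ) < dist z p / dist z q := div_pos (dist_pos.2 hz1) (dist_pos.2 hz2)
  have h3 : (‖conj β * (q : ℂ) + conj α‖ / ‖conj β * (p : ℂ) + conj α‖) ^ n = 1 := by
    have e : (1 : H) z = z := rfl
    rw [e] at h1
    have h4 : dist z p / dist z q * 1 = dist z p / dist z q *
      (‖conj β * (q : ℂ) + conj α‖ / ‖conj β * (p : ℂ) + conj α‖) ^ n := by
      rw [mul_one]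
      exact h1
    exact (mul_left_cancel₀ h2.ne' h4).symm
  have h4 : ‖conj β * (q : ℂ) + conj α‖ / ‖conj β * (p : ℂ) + conj α‖ = 1 :=
    (pow_eq_one_iff_of_nonneg (by positivity) hn.ne').1 h3
  have hDp := norm_ne_zero_iff.2 (hD p)
  have h5 : ‖conj β * (q : ℂ) + conj α‖ = ‖conj β * (p : ℂ) + conj α‖ := by
    rw [div_eq_one_iff_eq hDp] at h4
    exact h4
  obtain ⟨a, ha⟩ := Complex.conj_eq_iff_real.1 (RL2_real γ α β hp p hpf)
  obtain ⟨b, hb⟩ := Complex.conj_eq_iff_real.1 (RL2_real γ α β hp q hqf)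
  have h6 := RL2_prod γ α β hp p q hpf hqf hax.1
  rw [ha, hb, ← Complex.ofReal_mul] at h6
  have h7 : a * b = 1 := by exact_mod_cast h6
  rw [ha, hb, Complex.norm_real, Complex.norm_real, Real.norm_eq_abs, Real.norm_eq_abs] at h5
  have h8 : a = b := by
    rcases abs_eq_abs.1 h5 with h8 | h8
    · exact h8.symm
    · rw [h8] at h7
      nlinarith [mul_self_nonneg a]
  have h9 : conj β * ((p : ℂ) - (q : ℂ)) = 0 := by
    have h10 : conj β * (p : ℂ) + conj α = conj β * (q : ℂ) + conj α := by rw [ha, hb, h8]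
    linear_combination h10
  have hpq : (p : ℂ) - (q : ℂ) ≠ 0 := by
    rw [sub_ne_zero]
    exact fun h => hax.1 (Circle.ext h)
  have h10 : conj β = 0 := (mul_eq_zero.1 h9).resolve_right hpq
  have h11 : β = 0 := by
    rw [← Complex.conj_conj β, h10, map_zero]
  have h12 : conj α = (a : ℂ) := by
    rw [← ha, h10, zero_mul, zero_add]
  have h13 : α = (a : ℂ) := by
    rw [← Complex.conj_conj α, h12, Complex.conj_ofReal]
  have ha0 : (a : ℂ) ≠ 0 := by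
    intro h
    have h14 : a = 0 := by exact_mod_cast h
    rw [h14, zero_mul] at h7
    exact zero_ne_one h7
  have h14 : γ z = z := by
    have h15 := hp.2 z
    rw [h10, h11, h12, h13, zero_mul, zero_add, add_zero, mul_comm] at h15
    exact Circle.ext (mul_left_cancel₀ ha0 h15)
  rcases (hax.2 z).1 h14 with h | h
  · exact hz1 h
  · exact hz2 h

section

variable (G : Subgroup H) (ρ : G →* H) (π : Circle → Circle) (hc : Continuous π)
  (hs : Function.Surjective π) (hρ : ∀ (g : G) (x : Circle), π (ρ g x) = (g : H) (π x))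

include hs hρ in
theorem RL2_inj : Function.Injective ρ := by
  rw [injective_iff_map_eq_one]
  intro g hg
  apply Subtype.ext
  apply Homeomorph.ext
  intro z
  obtain ⟨x, rfl⟩ := hs z
  rw [← hρ, hg]
  rfl

include hc in
theorem RL2_unif (ε : ℝ) (hε : 0 < ε) :
    ∃ δ : ℝ, 0 < δ ∧ ∀ x y : Circle, dist x y < δ → dist (π x) (π y) < ε := by
  have h1 : UniformContinuous π := CompactSpace.uniformContinuous_of_continuous hc
  obtain ⟨δ, hδ, h2⟩ := Metric.uniformContinuous_iff.1 h1 ε hε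
  exact ⟨δ, hδ, fun x y hxy => h2 hxy⟩

include hc hs hρ in
theorem RL2_small (ε : ℝ) (hε : 0 < ε) :
    ∃ δ : ℝ, 0 < δ ∧ ∀ k : G, (∀ x, dist (ρ k x) x < δ) → ∀ z, dist ((k : H) z) z < ε := by
  obtain ⟨δ, hδ, h1⟩ := RL2_unif π hc ε hε
  refine ⟨δ, hδ, fun k hk z => ?_⟩
  obtain ⟨x, rfl⟩ := hs z
  rw [← hρ]
  exact h1 _ _ (hk x)

include hc hs hρ in
theorem RL2_mv (ε : ℝ) (hε : 0 < ε) :
    ∃ ε' : ℝ, 0 < ε' ∧ ∀ g : G, Mv ε (g : H) → Mv ε' (ρ g) := by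
  obtain ⟨δ, hδ, h1⟩ := RL2_unif π hc ε hε
  have h2 : ∀ x y : Circle, ε ≤ dist (π x) (π y) → δ ≤ dist x y := by
    intro x y hxy
    by_contra hcon
    exact absurd (h1 _ _ (not_le.1 hcon)) (not_lt.2 hxy)
  refine ⟨δ, hδ, ?_⟩
  rintro g ⟨a, b, c, ⟨f1, f2, f3⟩, ⟨f4, f5, f6⟩⟩
  obtain ⟨x, rfl⟩ := hs a
  obtain ⟨y, rfl⟩ := hs b
  obtain ⟨z, rfl⟩ := hs c
  rw [← hρ] at f4 f5 f6
  rw [← hρ] at f4 f5 f6
  exact ⟨x, y, z, ⟨h2 _ _ f1, h2 _ _ f2, h2 _ _ f3⟩, ⟨h2 _ _ f4, h2 _ _ f5, h2 _ _ f6⟩⟩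

include hc hs hρ in
theorem RL2_near (hMB1 : Stmt_MB1) (hBND : Stmt_BND) (hPIG : Stmt_PIG)
    (hm : ∀ g, IsMob (ρ g)) (ε : ℝ) (hε : 0 < ε)
    (hinf : {g : H | g ∈ G ∧ Mv ε g}.Infinite) (η : ℝ) (hη : 0 < η) :
    ∃ k : G, k ≠ 1 ∧ ∀ z, dist (ρ k z) z < η := by
  obtain ⟨ε', hε', hmv⟩ := RL2_mv G ρ π hc hs hρ ε hε
  have hinj := RL2_inj G ρ π hs hρ
  have hinf' : {g : G | Mv ε (g : H)}.Infinite := by
    intro hfin
    apply hinf
    refine (hfin.image (fun g : G => (g : H))).subset ?_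
    rintro g ⟨hg, hg'⟩
    exact ⟨⟨g, hg⟩, hg', rfl⟩
  have hinf'' := hinf'.image (hinj.injOn (s := {g : G | Mv ε (g : H)}))
  have hpar : ∀ g ∈ ρ '' {g : G | Mv ε (g : H)}, ∃ α β, Par g α β ∧ ‖β‖ ≤ 1 + 8 / ε' ^ 3 := by
    rintro g ⟨g', hg2, rfl⟩
    obtain ⟨α, β, hp⟩ := (hMB1.1 _).1 (hm g')
    refine ⟨α, β, hp, ?_⟩
    have h3 := hBND _ α β ε' hp hε' (hmv g' hg2)
    have h4 : 0 < ε' ^ 3 := pow_pos hε' 3
    have h5 : ‖β‖ ^ 2 ≤ 8 / ε' ^ 3 := by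
      rw [le_div_iff₀ h4]
      exact h3
    have h6 : 0 ≤ 8 / ε' ^ 3 := by positivity
    rcases le_total ‖β‖ 1 with h7 | h7
    · linarith
    · nlinarith
  obtain ⟨g1, hg1, g2, hg2, hne, hd⟩ := hPIG _ _ hinf'' hpar η hη
  obtain ⟨k1, -, rfl⟩ := hg1
  obtain ⟨k2, -, rfl⟩ := hg2
  refine ⟨k1⁻¹ * k2, ?_, ?_⟩
  · intro h1
    apply hne
    rw [inv_mul_eq_one] at h1
    rw [h1]
  · intro z
    rw [map_mul, map_inv]
    exact hd z

include hc hs hρ in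
theorem RL2_fp (hMB1 : Stmt_MB1) (hPIG : Stmt_PIG) (hELL : Stmt_ELL) (Γ : Subgroup H)
    (hΓ : FirstKind Γ) (hΓG : Γ ≤ G) (hm : ∀ g, IsMob (ρ g)) (γ : G) (hγ : (γ : H) ∈ Γ)
    (p q : Circle) (hax : Axis (γ : H) p q) :
    ρ γ ≠ 1 ∧ ∃ x, ρ γ x = x ∧ (π x = p ∨ π x = q) := by
  have hinj := RL2_inj G ρ π hs hρ
  have hord := RL2_ord hMB1 (γ : H) (hΓ.mob _ hγ) p q hax
  refine ⟨?_, ?_⟩
  · intro h
    have h1 : γ = 1 := hinj (by rw [h, map_one])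
    apply hord 1 one_pos
    rw [pow_one, h1]
    rfl
  · by_contra hcon
    have hno : ∀ z, ρ γ z ≠ z := by
      intro z hz
      apply hcon
      refine ⟨z, hz, ?_⟩
      apply (hax.2 _).1
      rw [← hρ, hz]
    obtain ⟨R, hR⟩ := hELL (ρ γ) (hm γ) hno
    obtain ⟨ε₀, hε₀, hdisc⟩ := hΓ.discrete
    obtain ⟨δ, hδ, hsm⟩ := RL2_small G ρ π hc hs hρ ε₀ hε₀
    have hpow : Function.Injective (fun n : ℕ => γ ^ n) := by
      intro m n hmn
      have key : ∀ m n : ℕ, m < n → γ ^ m ≠ γ ^ n := by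
        intro m n hlt h
        apply hord (n - m) (Nat.sub_pos_of_lt hlt)
        have h1 : γ ^ n = γ ^ m * γ ^ (n - m) := by
          rw [← pow_add]
          congr 1
          omega
        have h2 : γ ^ (n - m) = 1 := by
          rw [h1] at h
          exact (mul_eq_left.1 h.symm)
        have h3 := congrArg (fun g : G => (g : H)) h2
        simpa using h3
      rcases lt_trichotomy m n with h | h | h
      · exact absurd hmn (key m n h)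
      · exact h
      · exact absurd hmn.symm (key n m h)
    have hinfT : (range fun n : ℕ => (ρ γ) ^ n).Infinite := by
      apply Set.infinite_range_of_injective
      intro m n hmn
      apply hpow
      apply hinj
      change ρ (γ ^ m) = ρ (γ ^ n)
      rw [map_pow, map_pow]
      exact hmn
    obtain ⟨g1, ⟨m, rfl⟩, g2, ⟨n, rfl⟩, hne, hd⟩ := hPIG _ R hinfT (by
      rintro g ⟨n, rfl⟩
      exact hR n) δ hδ
    apply hne
    have h1 : ∀ z, dist (ρ ((γ ^ m)⁻¹ * γ ^ n) z) z < δ := by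
      intro z
      rw [map_mul, map_inv, map_pow, map_pow]
      exact hd z
    have h2 := hsm _ h1
    have h3 : (((γ ^ m)⁻¹ * γ ^ n : G) : H) ∈ Γ := by
      rw [Subgroup.coe_mul, Subgroup.coe_inv, Subgroup.coe_pow, Subgroup.coe_pow]
      exact Γ.mul_mem (Γ.inv_mem (Γ.pow_mem hγ m)) (Γ.pow_mem hγ n)
    have h4 := hdisc _ h3 h2
    have h5 : (γ ^ m)⁻¹ * γ ^ n = 1 := Subtype.ext h4
    rw [inv_mul_eq_one] at h5
    change (ρ γ) ^ m = (ρ γ) ^ n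
    rw [← map_pow, ← map_pow, h5]

end

/-- near to the identity a commuting map fixes each fixed point -/
theorem RL2_fixd (hMB3 : Stmt_MB3) (N : H) (hm : IsMob N) (hN : N ≠ 1) (x : Circle)
    (hx : N x = x) : ∃ η : ℝ, 0 < η ∧ ∀ M : H, M * N = N * M → (∀ z, dist (M z) z < η) →
      M x = x := by
  by_cases hy : ∃ y, y ≠ x ∧ N y = y
  · obtain ⟨y, hyx, hy⟩ := hy
    refine ⟨dist y x, dist_pos.2 hyx, fun M hM hd => ?_⟩
    by_contra hne
    have h1 : N (M x) = M x := by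
      have h2 := congrArg (fun f : H => f x) hM
      have h3 : M (N x) = N (M x) := h2
      rw [hx] at h3
      exact h3.symm
    have h2 : M x ≠ y := by
      intro h
      have h3 := hd x
      rw [h] at h3
      exact lt_irrefl _ h3
    exact hN (hMB3 N hm x y (M x) hyx.symm (Ne.symm h2) (Ne.symm hne) hx hy h1)
  · refine ⟨1, one_pos, fun M hM _ => ?_⟩
    by_contra hne
    apply hy
    refine ⟨M x, hne, ?_⟩
    have h2 := congrArg (fun f : H => f x) hM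
    have h3 : M (N x) = N (M x) := h2
    rw [hx] at h3
    exact h3.symm

theorem RL2_compl (S : Set Circle) (hS : S.Finite) : IsOpen Sᶜ ∧ (Sᶜ).Nonempty := by
  refine ⟨hS.isClosed.isOpen_compl, ?_⟩
  have h1 : Nontrivial Circle := by
    obtain ⟨r, hr, -⟩ := RLZ_third 1 1
    exact ⟨⟨r, 1, hr⟩⟩
  have h2 : Infinite Circle := PreconnectedSpace.infinite
  exact (hS.infinite_compl (α := Circle)).nonempty

theorem blk_RL2 (hMB1 : Stmt_MB1) (hMB3 : Stmt_MB3) (hBND : Stmt_BND) (hPIG : Stmt_PIG)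
    (hDNS : Stmt_DNS) (hELL : Stmt_ELL) : Stmt_RL2 := by
  classical
  intro Γ G hΓ hΓG hn ⟨ρ, π, hm, hc, hs, hρ⟩ ε hε
  by_contra hcon
  have hinf : {g : H | g ∈ G ∧ Mv ε g}.Infinite := hcon
  have hnear := RL2_near G ρ π hc hs hρ hMB1 hBND hPIG hm ε hε hinf
  obtain ⟨ε₀, hε₀, hdisc⟩ := hΓ.discrete
  obtain ⟨γ₁, hγ₁, p₁, -, q₁, -, hax₁⟩ := hDNS Γ hΓ univ univ isOpen_univ univ_nonempty
    isOpen_univ univ_nonempty
  obtain ⟨ho, hne⟩ := RL2_compl {p₁, q₁} ((Set.finite_singleton q₁).insert p₁)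
  obtain ⟨γ₂, hγ₂, p₂, hp₂, q₂, hq₂, hax₂⟩ := hDNS Γ hΓ _ _ ho hne ho hne
  obtain ⟨ho', hne'⟩ := RL2_compl {p₁, q₁, p₂, q₂}
    ((((Set.finite_singleton q₂).insert p₂).insert q₁).insert p₁)
  obtain ⟨γ₃, hγ₃, p₃, hp₃, q₃, hq₃, hax₃⟩ := hDNS Γ hΓ _ _ ho' hne' ho' hne'
  obtain ⟨hN1, x₁, hx₁, hπ₁⟩ := RL2_fp G ρ π hc hs hρ hMB1 hPIG hELL Γ hΓ hΓG hm
    ⟨γ₁, hΓG hγ₁⟩ hγ₁ p₁ q₁ hax₁
  obtain ⟨hN2, x₂, hx₂, hπ₂⟩ := RL2_fp G ρ π hc hs hρ hMB1 hPIG hELL Γ hΓ hΓG hm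
    ⟨γ₂, hΓG hγ₂⟩ hγ₂ p₂ q₂ hax₂
  obtain ⟨hN3, x₃, hx₃, hπ₃⟩ := RL2_fp G ρ π hc hs hρ hMB1 hPIG hELL Γ hΓ hΓG hm
    ⟨γ₃, hΓG hγ₃⟩ hγ₃ p₃ q₃ hax₃
  have h12 : x₁ ≠ x₂ := by
    intro h
    rw [h] at hπ₁
    rcases hπ₂ with h2 | h2 <;> rw [h2] at hπ₁
    · exact hp₂ hπ₁
    · exact hq₂ hπ₁
  have h13 : x₁ ≠ x₃ := by
    intro h
    rw [h] at hπ₁
    rcases hπ₃ with h2 | h2 <;> rw [h2] at hπ₁
    · exact hp₃ (hπ₁.elim Or.inl (fun h => Or.inr (Or.inl h)))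
    · exact hq₃ (hπ₁.elim Or.inl (fun h => Or.inr (Or.inl h)))
  have h23 : x₂ ≠ x₃ := by
    intro h
    rw [h] at hπ₂
    rcases hπ₃ with h2 | h2 <;> rw [h2] at hπ₂
    · exact hp₃ (hπ₂.elim (fun h => Or.inr (Or.inr (Or.inl h)))
        (fun h => Or.inr (Or.inr (Or.inr h))))
    · exact hq₃ (hπ₂.elim (fun h => Or.inr (Or.inr (Or.inl h)))
        (fun h => Or.inr (Or.inr (Or.inr h))))
  obtain ⟨η₁, hη₁, hc₁⟩ := RLZ_comm Γ G hΓG hn ε₀ hε₀ hdisc γ₁ hγ₁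
  obtain ⟨η₂, hη₂, hc₂⟩ := RLZ_comm Γ G hΓG hn ε₀ hε₀ hdisc γ₂ hγ₂
  obtain ⟨η₃, hη₃, hc₃⟩ := RLZ_comm Γ G hΓG hn ε₀ hε₀ hdisc γ₃ hγ₃
  obtain ⟨δ, hδ, hsm⟩ := RL2_small G ρ π hc hs hρ (min η₁ (min η₂ η₃))
    (lt_min hη₁ (lt_min hη₂ hη₃))
  obtain ⟨κ₁, hκ₁, hf₁⟩ := RL2_fixd hMB3 _ (hm _) hN1 x₁ hx₁
  obtain ⟨κ₂, hκ₂, hf₂⟩ := RL2_fixd hMB3 _ (hm _) hN2 x₂ hx₂
  obtain ⟨κ₃, hκ₃, hf₃⟩ := RL2_fixd hMB3 _ (hm _) hN3 x₃ hx₃
  obtain ⟨k, hk1, hkd⟩ := hnear (min δ (min κ₁ (min κ₂ κ₃)))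
    (lt_min hδ (lt_min hκ₁ (lt_min hκ₂ hκ₃)))
  have hkd' := hsm k (fun x => lt_of_lt_of_le (hkd x) (min_le_left _ _))
  have hcomm : ∀ (γ : H) (hγ : γ ∈ Γ), (k : H) * γ = γ * k →
      ρ k * ρ ⟨γ, hΓG hγ⟩ = ρ ⟨γ, hΓG hγ⟩ * ρ k := by
    intro γ hγ h
    rw [← map_mul, ← map_mul]
    congr 1
    exact Subtype.ext h
  have e1 := hc₁ k k.2 (fun z => lt_of_lt_of_le (hkd' z) (min_le_left _ _))
  have e2 := hc₂ k k.2 (fun z => lt_of_lt_of_le (hkd' z) ((min_le_right _ _).trans (min_le_left _ _)))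
  have e3 := hc₃ k k.2 (fun z => lt_of_lt_of_le (hkd' z) ((min_le_right _ _).trans (min_le_right _ _)))
  have f1 := hf₁ (ρ k) (hcomm γ₁ hγ₁ e1) (fun z => lt_of_lt_of_le (hkd z)
    ((min_le_right _ _).trans (min_le_left _ _)))
  have f2 := hf₂ (ρ k) (hcomm γ₂ hγ₂ e2) (fun z => lt_of_lt_of_le (hkd z)
    ((min_le_right _ _).trans ((min_le_right _ _).trans (min_le_left _ _))))
  have f3 := hf₃ (ρ k) (hcomm γ₃ hγ₃ e3) (fun z => lt_of_lt_of_le (hkd z)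
    ((min_le_right _ _).trans ((min_le_right _ _).trans (min_le_right _ _))))
  have h9 := hMB3 (ρ k) (hm k) x₁ x₂ x₃ h12 h23 h13 f1 f2 f3
  exact hk1 (RL2_inj G ρ π hs hρ (by rw [h9, map_one]))

end Pool.CG
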