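import Pool.Agent.Work.MP_ae1ff6_cg.B_LHI
import Pool.Agent.Work.MP_ae1ff6_cg.B_ARC
import Pool.Agent.Work.MP_ae1ff6_cg.B_LFV
import Pool.Agent.Work.MP_ae1ff6_cg.B_LOP
import Pool.Agent.Work.MP_ae1ff6_cg.B_LSX
import Pool.Agent.Work.MP_ae1ff6_cg.B_LUB
import Pool.Agent.Work.MP_ae1ff6_cg.B_MB1
import Pool.Agent.Work.MP_ae1ff6_cg.B_MB2
import Pool.Agent.Work.MP_ae1ff6_cg.B_MB3
import Pool.Agent.Work.MP_ae1ff6_cg.B_BND
import Pool.Agent.Work.MP_ae1ff6_cg.B_PIG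
import Pool.Agent.Work.MP_ae1ff6_cg.B_CNV
import Pool.Agent.Work.MP_ae1ff6_cg.B_ATT
import Pool.Agent.Work.MP_ae1ff6_cg.B_HFP
import Pool.Agent.Work.MP_ae1ff6_cg.B_DNS
import Pool.Agent.Work.MP_ae1ff6_cg.B_HYP
import Pool.Agent.Work.MP_ae1ff6_cg.B_CDB
import Pool.Agent.Work.MP_ae1ff6_cg.B_BDC
import Pool.Agent.Work.MP_ae1ff6_cg.B_RLZ
import Pool.Agent.Work.MP_ae1ff6_cg.B_CYC
import Pool.Agent.Work.MP_ae1ff6_cg.B_ELL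
import Pool.Agent.Work.MP_ae1ff6_cg.B_RL2
import Pool.Agent.Work.MP_ae1ff6_cg.B_EMB

/-!
# Groups of mapping classes and convergence groups: the theorem
-/

set_option autoImplicit false

namespace Pool.CG

theorem mb1 : Stmt_MB1 := blk_MB1
theorem bnd : Stmt_BND := blk_BND mb1
theorem pig : Stmt_PIG := blk_PIG mb1
theorem dns : Stmt_DNS := blk_DNS (blk_ATT mb1 (blk_MB2 mb1) pig) (blk_HFP mb1 (blk_MB2 mb1))

theorem main : Stmt_Main := by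
  intro Γ G hΓ hG hn
  exact ⟨⟨blk_CDB blk_LHI (blk_LUB blk_LFV) (blk_HYP mb1) Γ G hΓ hG hn,
    blk_BDC blk_LHI blk_LFV (blk_LOP blk_ARC) (blk_LSX blk_ARC) (blk_CNV mb1 bnd pig) dns
      Γ G hΓ hG hn⟩,
    blk_RLZ mb1 (blk_MB3 mb1) bnd pig dns Γ G hΓ hG hn⟩

theorem rl2 : Stmt_RL2 := blk_RL2 mb1 (blk_MB3 mb1) bnd pig dns (blk_ELL mb1 (blk_MB2 mb1))

theorem cyc : Stmt_Cyc := blk_CYC main

end Pool.CG
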