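import Pool.Agent.Work.MP_ae1ff6_cg.Interface2

/-!
# Block ELL (MP_ae1ff6_gt): elliptic elements have bounded powers (helper78)
-/

open Topology Filter Set
open scoped ComplexConjugate

set_option autoImplicit false

namespace Pool.CG

theorem ELL_mul (z : ℂ) : z * conj z = ((‖z‖ ^ 2 : ℝ) : ℂ) := by
  rw [Complex.mul_conj, Complex.normSq_eq_norm_sq]

theorem ELL_fix (hMB1 : Stmt_MB1) (N : H) (α β : ℂ) (h : Par N α β) (hc : 1 ≤ α.re ^ 2) :
    ∃ z, N z = z := by
  have hα : α = (α.re : ℂ) + (α.im : ℂ) * Complex.I := (Complex.re_add_im α).symm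
  have hαc : conj α = (α.re : ℂ) - (α.im : ℂ) * Complex.I := by
    conv_lhs => rw [hα]
    rw [map_add, map_mul, Complex.conj_ofReal, Complex.conj_ofReal, Complex.conj_I]
    ring
  have hn : α.re ^ 2 + α.im ^ 2 - ‖β‖ ^ 2 = 1 := by
    have h1 := h.1
    rw [← Complex.normSq_eq_norm_sq α, Complex.normSq_apply] at h1
    linarith
  by_cases hβ : β = 0
  · refine ⟨1, ?_⟩
    rw [hβ, norm_zero] at hn
    have hd : α.im = 0 := by nlinarith
    have hc0 : α.re ≠ 0 := by
      intro h0
      rw [h0] at hc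
      norm_num at hc
    have h2 := h.2 1
    rw [hβ, map_zero, zero_mul, zero_add, add_zero, hαc, hd] at h2
    apply Circle.ext
    rw [hα, hd] at h2
    simp only [Complex.ofReal_zero, zero_mul, sub_zero, add_zero, Complex.add_re,
      Complex.ofReal_re, Complex.mul_re, Complex.zero_re] at h2
    have h3 : (α.re : ℂ) ≠ 0 := by exact_mod_cast hc0
    apply mul_right_cancel₀ h3
    rw [h2]
    ring
  · have hβc : conj β ≠ 0 := by
      rwa [Ne, map_eq_zero]
    set s := Real.sqrt (α.re ^ 2 - 1) with hs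
    have hs2 : s ^ 2 = α.re ^ 2 - 1 := Real.sq_sqrt (by linarith)
    have hβn : 0 < ‖β‖ := norm_pos_iff.2 hβ
    have hnum : ‖(s : ℂ) + (α.im : ℂ) * Complex.I‖ = ‖β‖ := by
      have h1 : ‖(s : ℂ) + (α.im : ℂ) * Complex.I‖ ^ 2 = ‖β‖ ^ 2 := by
        rw [← Complex.normSq_eq_norm_sq, Complex.normSq_add_mul_I]
        linarith
      exact (pow_left_inj₀ (norm_nonneg _) (norm_nonneg _) two_ne_zero).1 h1
    have hp : ‖((s : ℂ) + (α.im : ℂ) * Complex.I) / conj β‖ = 1 := by
      rw [norm_div, hnum, Complex.norm_conj, div_self hβn.ne']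
    let P : Circle := ⟨((s : ℂ) + (α.im : ℂ) * Complex.I) / conj β, by
      show _ ∈ Metric.sphere (0 : ℂ) 1
      rw [mem_sphere_zero_iff_norm]
      exact hp⟩
    have hP : (P : ℂ) = ((s : ℂ) + (α.im : ℂ) * Complex.I) / conj β := rfl
    refine ⟨P, ?_⟩
    apply Circle.ext
    apply mul_right_cancel₀ ((hMB1.2 N α β h).1 P)
    rw [h.2 P]
    have h3 : conj β * (P : ℂ) = (s : ℂ) + (α.im : ℂ) * Complex.I := by
      rw [hP, mul_div_cancel₀ _ hβc]
    have h4 : (P : ℂ) * ((s : ℂ) - (α.im : ℂ) * Complex.I) = β := by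
      rw [hP, div_mul_eq_mul_div, div_eq_iff hβc, ELL_mul]
      have h5 : ‖β‖ ^ 2 = s ^ 2 + α.im ^ 2 := by linarith
      rw [h5]
      push_cast
      linear_combination (-(α.im : ℂ) ^ 2) * Complex.I_sq
    rw [h3, hαc]
    conv_lhs => rw [hα]
    linear_combination -h4

theorem blk_ELL (hMB1 : Stmt_MB1) (hMB2 : Stmt_MB2) : Stmt_ELL := by
  intro N hN hfix
  obtain ⟨α, β, h⟩ := (hMB1.1 N).1 hN
  have hc : α.re ^ 2 < 1 := by
    by_contra h1
    obtain ⟨z, hz⟩ := ELL_fix hMB1 N α β h (not_lt.1 h1)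
    exact hfix z hz
  have hα : α = (α.re : ℂ) + (α.im : ℂ) * Complex.I := (Complex.re_add_im α).symm
  have hαc : conj α = (α.re : ℂ) - (α.im : ℂ) * Complex.I := by
    conv_lhs => rw [hα]
    rw [map_add, map_mul, Complex.conj_ofReal, Complex.conj_ofReal, Complex.conj_I]
    ring
  have hn : α.re ^ 2 + α.im ^ 2 - ‖β‖ ^ 2 = 1 := by
    have h1 := h.1
    rw [← Complex.normSq_eq_norm_sq α, Complex.normSq_apply] at h1
    linarith
  have habs := abs_lt.1 ((sq_lt_one_iff_abs_lt_one α.re).1 hc)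
  set θ := Real.arccos α.re with hθ
  have hcos : Real.cos θ = α.re := Real.cos_arccos habs.1.le habs.2.le
  have hsin : Real.sin θ ^ 2 = 1 - α.re ^ 2 := by
    have := Real.sin_sq_add_cos_sq θ
    rw [hcos] at this
    linarith
  have hsin0 : Real.sin θ ≠ 0 := by
    intro h0
    rw [h0] at hsin
    norm_num at hsin
    linarith
  have hS2 : ((Real.sin θ : ℝ) : ℂ) ^ 2 = (α.im : ℂ) ^ 2 - β * conj β := by
    rw [ELL_mul, ← Complex.ofReal_pow, ← Complex.ofReal_pow, ← Complex.ofReal_sub]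
    congr 1
    rw [hsin]
    linarith
  have key : ∀ n : ℕ, Par (N ^ n)
      ((Real.cos (n * θ) : ℂ) + (α.im : ℂ) * ((Real.sin (n * θ) / Real.sin θ : ℝ) : ℂ) * Complex.I)
      (β * ((Real.sin (n * θ) / Real.sin θ : ℝ) : ℂ)) := by
    intro n
    induction n with
    | zero =>
      have h0 := hMB2.2.2
      simpa using h0
    | succ n ih =>
      have h1 := hMB2.1 (N ^ n) N _ _ α β ih h
      rw [← pow_succ] at h1
      have hC : Real.cos (((n + 1 : ℕ) : ℝ) * θ) =
          Real.cos (n * θ) * α.re - (Real.sin (n * θ) / Real.sin θ) * Real.sin θ ^ 2 := by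
        have e : ((n + 1 : ℕ) : ℝ) * θ = n * θ + θ := by push_cast; ring
        rw [e, Real.cos_add, hcos]
        field_simp
      have hw : Real.sin (((n + 1 : ℕ) : ℝ) * θ) / Real.sin θ =
          Real.cos (n * θ) + (Real.sin (n * θ) / Real.sin θ) * α.re := by
        have e : ((n + 1 : ℕ) : ℝ) * θ = n * θ + θ := by push_cast; ring
        rw [e, Real.sin_add, hcos]
        field_simp
        ring
      rw [hC, hw]
      generalize Real.sin (n * θ) / Real.sin θ = w at h1 ⊢
      generalize Real.cos (n * θ) = C at h1 ⊢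
      have e1 : ((C : ℂ) + (α.im : ℂ) * (w : ℂ) * Complex.I) * α + β * (w : ℂ) * conj β =
          ((C * α.re - w * Real.sin θ ^ 2 : ℝ) : ℂ) +
            (α.im : ℂ) * ((C + w * α.re : ℝ) : ℂ) * Complex.I := by
        conv_lhs => rw [hα]
        simp only [Complex.add_re, Complex.add_im, Complex.ofReal_re, Complex.ofReal_im,
          Complex.mul_re, Complex.mul_im, Complex.I_re, Complex.I_im, mul_zero, sub_self,
          add_zero, zero_add, mul_one]
        simp only [Complex.ofReal_mul, Complex.ofReal_sub, Complex.ofReal_add, Complex.ofReal_pow]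
        linear_combination (w : ℂ) * hS2 + (α.im : ℂ) ^ 2 * (w : ℂ) * Complex.I_sq
      have e2 : ((C : ℂ) + (α.im : ℂ) * (w : ℂ) * Complex.I) * β + β * (w : ℂ) * conj α =
          β * ((C + w * α.re : ℝ) : ℂ) := by
        rw [hαc]
        push_cast
        ring
      rw [e1, e2] at h1
      exact h1
  refine ⟨‖β‖ / |Real.sin θ|, fun n => ⟨_, _, key n, ?_⟩⟩
  rw [norm_mul, Complex.norm_real, Real.norm_eq_abs, abs_div, mul_div_assoc']
  have h1 := Real.abs_sin_le_one (n * θ)
  have h2 : 0 < |Real.sin θ| := abs_pos.2 hsin0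
  rw [div_le_div_iff_of_pos_right h2]
  nlinarith [norm_nonneg β]

end Pool.CG
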