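import Pool.Agent.Work.MP_ae1ff6_cg.Interface

/-! # Block LHI (typed by helper12) -/

open Topology Filter Set
open scoped ComplexConjugate

set_option autoImplicit false

namespace Pool.CG

theorem blk_LHI : Stmt_LHI := by
  intro g a b c d h
  obtain ⟨⟨h1, h2⟩, ⟨h3, h4⟩, h5⟩ := h
  refine ⟨⟨g.injective.ne h1, g.injective.ne h2⟩, ⟨g.injective.ne h3, g.injective.ne h4⟩,
    fun t ht hc hd => ?_⟩
  have h6 : IsPreconnected (g ⁻¹' t) := by
    rw [← g.image_symm]
    exact ht.image _ g.symm.continuous.continuousOn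
  exact h5 (g ⁻¹' t) h6 hc hd

end Pool.CG
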