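import Pool.Agent.Work.MP_ae1ff6_cg.Interface

/-!
# Theorem CG, block PIG: infinitely many Moebius maps with bounded parameters (helper89)
-/

open Topology Filter Set
open scoped ComplexConjugate

set_option autoImplicit false

namespace Pool.CG

/-- maps with close parameters are close -/
theorem PIG_close (h1 : Stmt_MB1) {g g' : H} {α β α' β' : ℂ} {R ε : ℝ} (hR : 0 ≤ R)
    (hg : Par g α β) (hg' : Par g' α' β') (hβ : ‖β‖ ≤ R) (ha : dist α α' ≤ ε)
    (hb : dist β β' ≤ ε) (z : Circle) : dist ((g⁻¹ * g') z) z ≤ 4 * ε * (2 * R + 1) ^ 3 := by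
  obtain ⟨-, m2, -, -, m5⟩ := h1.2 g α β hg
  have hε : 0 ≤ ε := dist_nonneg.trans ha
  have hD : ∀ z : Circle, 1 / (2 * R + 1) ≤ ‖conj β * (z : ℂ) + conj α‖ := fun z =>
    (one_div_le_one_div_of_le (by positivity) (by linarith)).trans (m5 z).1
  have hD' : ∀ z : Circle, ‖conj β * (z : ℂ) + conj α‖ ≤ 2 * R + 1 := fun z =>
    (m5 z).2.trans (by linarith)
  have hR1 : 0 < 2 * R + 1 := by linarith
  -- the values are close
  have e1 : dist (g' z) (g z) ≤ 4 * ε * (2 * R + 1) := by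
    have c1 : ((g z : ℂ) - (g' z : ℂ)) * (conj β * (z : ℂ) + conj α) =
        (α - α') * (z : ℂ) + (β - β') + (g' z : ℂ) * (conj (β' - β) * (z : ℂ) + conj (α' - α)) := by
      have k1 := hg.2 z
      have k2 := hg'.2 z
      rw [map_sub, map_sub]
      linear_combination k1 - k2
    have c2 : ‖(α - α') * (z : ℂ) + (β - β') +
        (g' z : ℂ) * (conj (β' - β) * (z : ℂ) + conj (α' - α))‖ ≤ 4 * ε := by
      have hz : ‖(z : ℂ)‖ = 1 := z.norm_coe
      have hgz : ‖(g' z : ℂ)‖ = 1 := (g' z).norm_coe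
      have ha' : ‖α - α'‖ ≤ ε := by rw [← dist_eq_norm]; exact ha
      have hb' : ‖β - β'‖ ≤ ε := by rw [← dist_eq_norm]; exact hb
      have ha'' : ‖α' - α‖ ≤ ε := by rw [← dist_eq_norm, dist_comm]; exact ha
      have hb'' : ‖β' - β‖ ≤ ε := by rw [← dist_eq_norm, dist_comm]; exact hb
      calc ‖(α - α') * (z : ℂ) + (β - β') +
            (g' z : ℂ) * (conj (β' - β) * (z : ℂ) + conj (α' - α))‖
          ≤ ‖(α - α') * (z : ℂ) + (β - β')‖ +
            ‖(g' z : ℂ) * (conj (β' - β) * (z : ℂ) + conj (α' - α))‖ := norm_add_le _ _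
        _ ≤ (‖(α - α') * (z : ℂ)‖ + ‖β - β'‖) +
            (‖conj (β' - β) * (z : ℂ)‖ + ‖conj (α' - α)‖) := by
            rw [norm_mul (g' z : ℂ), hgz, one_mul]
            exact add_le_add (norm_add_le _ _) (norm_add_le _ _)
        _ = (‖α - α'‖ + ‖β - β'‖) + (‖β' - β‖ + ‖α' - α‖) := by
            rw [norm_mul, norm_mul, hz, mul_one, mul_one, RCLike.norm_conj, RCLike.norm_conj]
        _ ≤ 4 * ε := by linarith
    rw [← c1, norm_mul] at c2
    rw [dist_comm]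
    show dist (g z : ℂ) (g' z : ℂ) ≤ _
    rw [dist_eq_norm]
    have c3 := hD z
    have c4 : ‖(g z : ℂ) - (g' z : ℂ)‖ * (1 / (2 * R + 1)) ≤ 4 * ε :=
      (mul_le_mul_of_nonneg_left c3 (norm_nonneg _)).trans c2
    rwa [mul_one_div, div_le_iff₀ hR1] at c4
  -- the inverse is Lipschitz
  have e2 := m2 ((g⁻¹ * g') z) z
  have e3 : g ((g⁻¹ * g') z) = g' z := by
    show g (g⁻¹ (g' z)) = g' z
    exact g.apply_symm_apply (g' z)
  rw [e3] at e2
  rw [← e2]
  calc dist (g' z) (g z) * (‖conj β * (((g⁻¹ * g') z : Circle) : ℂ) + conj α‖ *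
        ‖conj β * (z : ℂ) + conj α‖)
      ≤ (4 * ε * (2 * R + 1)) * ((2 * R + 1) * (2 * R + 1)) := by
        apply mul_le_mul e1 _ (by positivity) (by positivity)
        exact mul_le_mul (hD' _) (hD' _) (norm_nonneg _) hR1.le
    _ = 4 * ε * (2 * R + 1) ^ 3 := by ring

theorem blk_PIG (h1 : Stmt_MB1) : Stmt_PIG := by
  intro T R hT hpar η hη
  have hR : 0 ≤ R := by
    obtain ⟨g, hg⟩ := hT.nonempty
    obtain ⟨α, β, -, h⟩ := hpar g hg
    exact (norm_nonneg _).trans h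
  have hpar' : ∀ g : H, ∃ p : ℂ × ℂ, g ∈ T → Par g p.1 p.2 ∧ ‖p.2‖ ≤ R := by
    intro g
    by_cases hg : g ∈ T
    · obtain ⟨α, β, h⟩ := hpar g hg
      exact ⟨(α, β), fun _ => h⟩
    · exact ⟨0, fun h => absurd h hg⟩
  choose F hF using hpar'
  let e := hT.natEmbedding T
  have hb : ∀ n : ℕ, F (e n) ∈ Metric.closedBall (0 : ℂ × ℂ) (R + 1) := by
    intro n
    obtain ⟨k1, k2⟩ := hF (e n) (e n).2
    have k3 := (h1.2 _ _ _ k1).2.2.2.1
    rw [mem_closedBall_zero_iff, Prod.norm_def]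
    exact max_le (by linarith) (by linarith)
  obtain ⟨a, -, φ, hφ, hlim⟩ := tendsto_subseq_of_bounded Metric.isBounded_closedBall hb
  have hC : 0 < 4 * (2 * R + 1) ^ 3 := by positivity
  have hε : 0 < η / (2 * (4 * (2 * R + 1) ^ 3)) := by positivity
  obtain ⟨N, hN⟩ := Metric.cauchySeq_iff'.1 hlim.cauchySeq _ hε
  have hd := hN (N + 1) (Nat.le_succ N)
  obtain ⟨k1, k2⟩ := hF (e (φ (N + 1))) (e (φ (N + 1))).2
  obtain ⟨k3, k4⟩ := hF (e (φ N)) (e (φ N)).2
  rw [Prod.dist_eq] at hd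
  refine ⟨e (φ (N + 1)), (e (φ (N + 1))).2, e (φ N), (e (φ N)).2, ?_, fun z => ?_⟩
  · intro h
    have h2 := e.injective (Subtype.ext h)
    have h3 := hφ.injective h2
    omega
  · have h2 := PIG_close h1 hR k1 k3 k2 ((le_max_left _ _).trans hd.le)
      ((le_max_right _ _).trans hd.le) z
    refine h2.trans_lt ?_
    have h4 : 4 * (η / (2 * (4 * (2 * R + 1) ^ 3))) * (2 * R + 1) ^ 3 = η / 2 := by
      field_simp
    rw [h4]
    linarith

end Pool.CG
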