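import Mathlib

/-!
# Groups of mapping classes and convergence groups (MP_ae1ff6_gt): definitions

A hyperbolic surface `S = 𝔻 / Γ` is given by its group `Γ` of Möbius maps of the unit circle (the
circle at infinity). Mapping classes of `S` are given by their boundary maps: homeomorphisms of the
circle which normalise `Γ`, modulo `Γ`. So a group of mapping classes is `G / Γ` for a group `G` of
homeomorphisms of the circle which contains `Γ` as a normal subgroup. Closed geodesics of `S` are
given by the hyperbolic elements of `Γ`, that is the elements with exactly two fixed points on the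
circle (the ends of a lift of the geodesic).
-/

open Topology
open scoped ComplexConjugate

set_option autoImplicit false

namespace Pool.CG

/-- the homeomorphisms of the unit circle -/
abbrev H : Type := Circle ≃ₜ Circle

/-- `g` is a Möbius map of the unit disc (restricted to the unit circle), that is the boundary map
of an orientation preserving isometry of the hyperbolic plane -/
def IsMob (g : H) : Prop :=
  ∃ α β : ℂ, ‖α‖ ^ 2 - ‖β‖ ^ 2 = 1 ∧
    ∀ z : Circle, (g z : ℂ) = (α * (z : ℂ) + β) / (conj β * (z : ℂ) + conj α)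

/-- `Γ` is a Fuchsian group of the first kind: a discrete group of Möbius maps whose limit set is
the circle, that is all of its orbits on the circle are dense -/
structure FirstKind (Γ : Subgroup H) : Prop where
  mob : ∀ γ ∈ Γ, IsMob γ
  discrete : ∃ ε : ℝ, 0 < ε ∧ ∀ γ ∈ Γ, (∀ z, dist (γ z) z < ε) → γ = 1
  dense : ∀ z : Circle, Dense {w : Circle | ∃ γ ∈ Γ, w = γ z}

/-- the points `a`, `b` separate the points `c`, `d` of the circle: each connected set which
contains `c` and `d` contains `a` or `b` -/
def Link (a b c d : Circle) : Prop :=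
  (c ≠ a ∧ c ≠ b) ∧ (d ≠ a ∧ d ≠ b) ∧
    ∀ t : Set Circle, IsPreconnected t → c ∈ t → d ∈ t → a ∈ t ∨ b ∈ t

/-- `γ` has exactly two fixed points `p`, `q` (for `γ ∈ Γ`: `γ` is hyperbolic with the axis from
`p` to `q`) -/
def Axis (γ : H) (p q : Circle) : Prop := p ≠ q ∧ ∀ z, γ z = z ↔ z = p ∨ z = q

/-- `g` maps the geodesic from `p` to `q` to a geodesic which crosses or is equal to the geodesic
from `r` to `s` -/
def Meets (g : H) (p q r s : Circle) : Prop :=
  Link (g p) (g q) r s ∨ ({g p, g q} : Set Circle) = {r, s}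

/-- The group `G / Γ` of mapping classes displaces closed geodesics: for all closed geodesics `a`
(from `γ`) and `b` (from `δ`) only finitely many classes `g Γ`, `g ∈ G`, map `a` to a geodesic which
crosses or is equal to `b`. -/
def Displaces (Γ G : Subgroup H) : Prop :=
  ∀ γ ∈ Γ, ∀ δ ∈ Γ, ∀ p q r s : Circle, Axis γ p q → Axis δ r s →
    ∃ F : Set H, F.Finite ∧ ∀ g ∈ G, Meets g p q r s → ∃ h ∈ F, h⁻¹ * g ∈ Γ

/-- the pairwise distances of the three points are at least `ε` -/
def Far (ε : ℝ) (a b c : Circle) : Prop := ε ≤ dist a b ∧ ε ≤ dist b c ∧ ε ≤ dist a c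

/-- `g` maps some triple of points with pairwise distances at least `ε` to such a triple -/
def Mv (ε : ℝ) (g : H) : Prop := ∃ a b c : Circle, Far ε a b c ∧ Far ε (g a) (g b) (g c)

/-- `G` is a discrete convergence group: it acts properly discontinuously on the space of triples
of distinct points of the circle (which is the union of the compact sets `Far ε`) -/
def Conv (G : Subgroup H) : Prop := ∀ ε : ℝ, 0 < ε → {g : H | g ∈ G ∧ Mv ε g}.Finite

/-- `G / Γ` is realized by isometries: a homeomorphism `h` of the circle conjugates `G` into the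
Möbius maps (then `G / Γ` acts by isometries on the surface `𝔻 / h Γ h⁻¹`, and `h` is the boundary
map of a homeomorphism from `𝔻 / Γ` to this surface) -/
def Realized (G : Subgroup H) : Prop := ∃ h : H, ∀ g ∈ G, IsMob (h * g * h⁻¹)

/-- the theorem -/
def Stmt_Main : Prop :=
  ∀ Γ G : Subgroup H, FirstKind Γ → Γ ≤ G → (∀ g ∈ G, ∀ γ ∈ Γ, g * γ * g⁻¹ ∈ Γ) →
    (Conv G ↔ Displaces Γ G) ∧ (Realized G → Conv G)

/-- the theorem for one mapping class `f Γ` -/
def Stmt_Cyc : Prop :=
  ∀ (Γ : Subgroup H) (f : H), FirstKind Γ → (∀ γ, γ ∈ Γ ↔ f * γ * f⁻¹ ∈ Γ) →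
    (Conv (Γ ⊔ Subgroup.zpowers f) ↔ (∃ n : ℕ, 0 < n ∧ f ^ n ∈ Γ) ∨
      ∀ γ ∈ Γ, ∀ δ ∈ Γ, ∀ p q r s : Circle, Axis γ p q → Axis δ r s →
        {n : ℤ | ∃ κ ∈ Γ, Meets (κ * f ^ n) p q r s}.Finite) ∧
    (Realized (Γ ⊔ Subgroup.zpowers f) → Conv (Γ ⊔ Subgroup.zpowers f))

end Pool.CG
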