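import Pool.Agent.Work.MP_ae1ff6_cg.Defs

/-!
# Groups of mapping classes and convergence groups: interface

Block `X`: file `Pool/Agent/Work/MP_ae1ff6_cg/B_X.lean`, `import ...MP_ae1ff6_cg.Interface`,
`namespace Pool.CG`, the `open` lines of this file, `theorem blk_X (h1 : Stmt_Y) .. : Stmt_X` with
exactly the blocks of the column `uses`, in this order, as hypotheses; auxiliary lemmas with the
prefix `X_`. `H = Circle ≃ₜ Circle` is a group (`(g * h) z = g (h z)`, `g⁻¹ = g.symm`: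
`rfl` or `Homeomorph.mul_apply`). `dist z w = ‖(z : ℂ) - w‖` (`Subtype.dist_eq`, `dist_eq_norm`).
-/

open Topology Filter Set
open scoped ComplexConjugate

set_option autoImplicit false

namespace Pool.CG

/-! ### The circle -/

/-- LHI (20 lines): homeomorphisms preserve separation. Take the preimage (= image under `g⁻¹`) of
the connected set. -/
def Stmt_LHI : Prop :=
  ∀ (g : H) (a b c d : Circle), Link a b c d → Link (g a) (g b) (g c) (g d)

/-- ARC (90 lines): arcs. Open: the complement of `exp '' Ioo s t` is the compact set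
`exp '' Icc t (s + 2π)` (surjectivity: every `z` is `exp θ` with `θ ∈ Ico s (s + 2π)`, for example
`toIcoMod`; injectivity: `Circle.exp_injOn_Ico`; compare `Circle.compl_range_path`). Separation: the
complement of `{exp s, exp t}` is the union of the two disjoint open sets `exp '' Ioo s t` and
`exp '' Ioo t (s + 2π)`; a preconnected set in this union which meets both is impossible. -/
def Stmt_ARC : Prop :=
  ∀ s t : ℝ, s < t → t < s + 2 * Real.pi → IsOpen (Circle.exp '' Ioo s t) ∧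
    ∀ x ∈ Circle.exp '' Ioo s t, ∀ y ∈ Circle.exp '' Ioo t (s + 2 * Real.pi),
      Link (Circle.exp s) (Circle.exp t) x y

/-- LFV (80 lines): limits of separating pairs. Otherwise some `r > 0` (small) with
`r < dist ℓ u'`, `r < dist ℓ v'`; the set `{z | r ≤ dist z ℓ}` is preconnected: by rotation
`ℓ = 1`, and `{z | r ≤ ‖z - 1‖}` is the image under `Circle.exp` of an interval
`[θ, 2π - θ]` (`‖exp θ - 1‖ = 2 |sin (θ / 2)|`), or: it is the complement of an arc around `ℓ`,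
use `exp '' Icc (θ₀ + δ) (θ₀ + 2π - δ)` with `ℓ = exp θ₀` instead of a ball. It contains `u i`,
`v i` and not `x i`, `y i` for some `i`: a contradiction to `Link`. -/
def Stmt_LFV : Prop :=
  ∀ (ι : Type) (l : Filter ι) [l.NeBot] (x y u v : ι → Circle) (ℓ u' v' : Circle),
    Tendsto x l (𝓝 ℓ) → Tendsto y l (𝓝 ℓ) → Tendsto u l (𝓝 u') → Tendsto v l (𝓝 v') →
    (∀ᶠ i in l, Link (x i) (y i) (u i) (v i)) → ℓ = u' ∨ ℓ = v'

/-- LOP (80 lines; uses ARC). Let `x = exp s`, `y = exp t` with `s < t < s + 2π` and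
`δ = min (t - s) (s + 2π - t) / 4`; `A = exp '' Ioo (s - δ) (s + δ)`, `B = exp '' Ioo (t - δ) (t + δ)`
(open by ARC), `U = exp '' Ioo (s + δ) (t - δ)`, `V = exp '' Ioo (t + δ) (s + 2π - δ)`. For
`a = exp s'`, `b = exp t'` in `A`, `B`: `U ⊆ exp '' Ioo s' t'`, `V ⊆ exp '' Ioo t' (s' + 2π)`, ARC. -/
def Stmt_LOP : Prop :=
  ∀ x y : Circle, x ≠ y → ∃ A B U V : Set Circle, A ∈ 𝓝 x ∧ B ∈ 𝓝 y ∧ IsOpen U ∧ U.Nonempty ∧
    IsOpen V ∧ V.Nonempty ∧ ∀ a ∈ A, ∀ b ∈ B, ∀ c ∈ U, ∀ d ∈ V, Link a b c d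

/-- LSX (120 lines; uses ARC). Let `a = exp s`, `b = exp t`, `c = exp t'` with
`t, t' ∈ Ioo s (s + 2π)`, `δ` a fourth of the minimum of `t - s`, `t' - s`, `s + 2π - t`,
`s + 2π - t'`. `A = exp '' Ioo (s - δ) (s + δ)`, `U = exp '' Ioo (s + δ) (s + 2δ)`,
`V = exp '' Ioo (s - 2δ) (s - δ)`, `B = exp '' Ioo (t - δ) (t + δ)`, `C` in the same way. For
`p = exp σ ∈ U`, `q = exp τ ∈ V`: ARC for `τ < σ` gives `Link q p a' b'` and `Link q p a' c'`
(`Link` is symmetric in the first two points). -/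
def Stmt_LSX : Prop :=
  ∀ a b c : Circle, a ≠ b → a ≠ c → ∃ U V A B C : Set Circle, IsOpen U ∧ U.Nonempty ∧
    IsOpen V ∧ V.Nonempty ∧ A ∈ 𝓝 a ∧ B ∈ 𝓝 b ∧ C ∈ 𝓝 c ∧
    ∀ p ∈ U, ∀ q ∈ V, ∀ a' ∈ A, (∀ b' ∈ B, Link p q a' b') ∧ ∀ c' ∈ C, Link p q a' c'

/-- LUB (50 lines; uses LFV). Otherwise for each `n` there are `x n`, `y n` with
`dist (x n) (y n) < 1 / (n + 1)`; a subsequence converges (compactness, or an ultrafilter), both
to the same point `ℓ`; LFV (constant `u`, `v`): `ℓ = r` or `ℓ = s`, but the distances of `ℓ` from `r`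
and `s` are at least `ρ`. -/
def Stmt_LUB : Prop :=
  ∀ (r s : Circle) (ρ : ℝ), 0 < ρ → ∃ ε : ℝ, 0 < ε ∧ ∀ x y : Circle, ρ ≤ dist x r →
    ρ ≤ dist x s → Link x y r s → ε ≤ dist x y

/-! ### Möbius maps -/

/-- `g` is the Möbius map with the parameters `α`, `β` -/
def Par (g : H) (α β : ℂ) : Prop :=
  ‖α‖ ^ 2 - ‖β‖ ^ 2 = 1 ∧ ∀ z : Circle, (g z : ℂ) * (conj β * (z : ℂ) + conj α) = α * (z : ℂ) + β

/-- MB1 (120 lines). `‖conj β z + conj α‖ ≥ ‖α‖ - ‖β‖ > 0`. For `D z = conj β * z + conj α`: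
`g z - g w = (z - w) / (D z * D w)` (as `α conj α - β conj β = 1`), and
`g z - α / conj β = - 1 / (conj β * D z)`. Last claim: `‖α‖ ≤ ‖β‖ + 1` and `‖α‖ - ‖β‖ = 1 / (‖α‖ + ‖β‖)`. -/
def Stmt_MB1 : Prop :=
  (∀ g : H, IsMob g ↔ ∃ α β, Par g α β) ∧
  ∀ (g : H) (α β : ℂ), Par g α β →
    (∀ z : Circle, conj β * (z : ℂ) + conj α ≠ 0) ∧
    (∀ z w : Circle, dist (g z) (g w) * (‖conj β * (z : ℂ) + conj α‖ *
      ‖conj β * (w : ℂ) + conj α‖) = dist z w) ∧
    (β ≠ 0 → ∀ z : Circle, ‖(g z : ℂ) - α / conj β‖ * (‖β‖ * ‖conj β * (z : ℂ) + conj α‖) = 1) ∧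
    ‖α‖ ≤ ‖β‖ + 1 ∧ ∀ z : Circle, 1 / (2 * ‖β‖ + 1) ≤ ‖conj β * (z : ℂ) + conj α‖ ∧
      ‖conj β * (z : ℂ) + conj α‖ ≤ 2 * ‖β‖ + 1

/-- MB2 (80 lines; uses MB1). Products, inverses, the identity. (Multiply the defining relations;
the denominators are not zero.) -/
def Stmt_MB2 : Prop :=
  (∀ (g g' : H) (α β α' β' : ℂ), Par g α β → Par g' α' β' →
    Par (g * g') (α * α' + β * conj β') (α * β' + β * conj α')) ∧
  (∀ (g : H) (α β : ℂ), Par g α β → Par g⁻¹ (conj α) (-β)) ∧ Par 1 1 0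

/-- MB3 (60 lines; uses MB1). `z` is a fixed point iff
`conj β z ^ 2 + (conj α - α) z - β = 0`: a polynomial of degree at most two with three zeros is zero,
so `β = 0`, `α = conj α`, `g = 1`. -/
def Stmt_MB3 : Prop :=
  ∀ g : H, IsMob g → ∀ x y z : Circle, x ≠ y → y ≠ z → x ≠ z → g x = x → g y = y → g z = z → g = 1

/-- BND (80 lines; uses MB1). Let `β ≠ 0`, `P = - conj α / conj β`, `D z = conj β * (z - P)`. At most one
of the three points of the triple has a distance `< ε / 2` from `P`; for the two others, `x` and `y`,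
`‖D x‖, ‖D y‖ ≥ ‖β‖ ε / 2`, so `ε ≤ dist (g x) (g y) = dist x y / (‖D x‖ ‖D y‖) ≤ 8 / (‖β‖ ^ 2 ε ^ 2)`. -/
def Stmt_BND : Prop :=
  ∀ (g : H) (α β : ℂ) (ε : ℝ), Par g α β → 0 < ε → Mv ε g → ‖β‖ ^ 2 * ε ^ 3 ≤ 8

/-- PIG (150 lines; uses MB1). Choose parameters `(α g, β g)` for `g ∈ T`: they are in a bounded set
of `ℂ × ℂ`; `T` is infinite, so there are different `g, g' ∈ T` with parameters as close as we want
(totally bounded: cover by finitely many balls, pigeonhole; or an ultrafilter). From the formulas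
(`‖D z‖ ≥ 1 / (2 R + 1)`) `dist (g z) (g' z)` is small for all `z`; and
`dist (g⁻¹ (g' z)) z = dist (g⁻¹ (g' z)) (g⁻¹ (g z))`, where `g⁻¹` is Lipschitz with constant
`(2 R + 1) ^ 2` (second formula of MB1 for `g`, as `‖D‖ ≤ 2 R + 1`). -/
def Stmt_PIG : Prop :=
  ∀ (T : Set H) (R : ℝ), T.Infinite → (∀ g ∈ T, ∃ α β, Par g α β ∧ ‖β‖ ≤ R) → ∀ η : ℝ, 0 < η →
    ∃ g ∈ T, ∃ g' ∈ T, g ≠ g' ∧ ∀ z, dist ((g⁻¹ * g') z) z < η

/-- CNV (50 lines; uses MB1, BND, PIG). A discrete group of Möbius maps is a convergence group: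
`{γ ∈ Γ | Mv ε γ}` has bounded parameters (BND); if it is infinite, PIG gives `γ ≠ γ'` with
`γ⁻¹ γ' ∈ Γ` near the identity, so `γ⁻¹ γ' = 1`. -/
def Stmt_CNV : Prop := ∀ Γ : Subgroup H, FirstKind Γ → Conv Γ

/-- ATT (200 lines; uses MB1, MB2, PIG). Attracting and repelling points. Proof. `Γ` is infinite
(dense orbits, the circle is infinite and `T1`), so there is an ultrafilter `u` on `H` with `Γ ∈ u`,
finer than the cofinite filter. `‖β g‖ → ∞` along `u`: for each `R` the set of the `g ∈ Γ` with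
`‖β g‖ ≤ R` is finite (PIG and discreteness; as in CNV). The complex numbers
`P g = - conj α / conj β` have norms `‖α‖ / ‖β‖ → 1` (`‖α‖ ^ 2 = 1 + ‖β‖ ^ 2`), so they converge along
`u` to a point `η` of the circle (`IsCompact` of a ball, `Ultrafilter.le_nhds_of_...`), in the same
way `α / conj β → ζ`. For `z ≠ η`: `‖D z‖ = ‖β‖ ‖z - P g‖ → ∞`, so `g z - α / conj β → 0` (MB1), so
`g z → ζ`. The same for `g⁻¹` with the parameters `conj α`, `- β` (MB2): here the two points are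
`conj α / (- conj β) = P g → η` and `- α / (- conj β) → ζ`. -/
def Stmt_ATT : Prop :=
  ∀ Γ : Subgroup H, FirstKind Γ → ∃ (l : Filter H) (ζ η : Circle), l.NeBot ∧ (Γ : Set H) ∈ l ∧
    (∀ z, z ≠ η → Tendsto (fun g : H => g z) l (𝓝 ζ)) ∧
    ∀ z, z ≠ ζ → Tendsto (fun g : H => g⁻¹ z) l (𝓝 η)

/-- HFP (200 lines; uses MB1, MB2). Fixed points near the attracting and the repelling point. Proof.
Choose parameters. (1) For two different points `z, w ≠ η`: `dist (g z) (g w) → 0`, so by MB1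
`‖D z‖ ‖D w‖ → ∞`, so `‖β‖ → ∞` (`‖D‖ ≤ 2 ‖β‖ + 1`). (2) `α / conj β → ζ`: let `z, w ≠ η` be
different, `P = - conj α / conj β`; one of them has a distance `≥ dist z w / 2` from `P`, for this one
`‖g z - α / conj β‖ = 1 / (‖β‖ ^ 2 ‖z - P‖) ≤ 2 / (‖β‖ ^ 2 dist z w)`, and `g z → ζ`, `g w → ζ`. In the
same way for `g⁻¹` (MB2): `P → η`. (3) So `2 Re α / conj β = α / conj β - P → ζ - η ≠ 0`, hence
`|Re α| ≥ κ ‖β‖ > 1` eventually, for some `κ > 0`. (4) With `w = √((Re α) ^ 2 - 1)` and the sign `σ`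
of `Re α` the two numbers `p = (i Im α + σ w) / conj β`, `q = (i Im α - σ w) / conj β` have norm one
(`‖β‖ ^ 2 = (Re α) ^ 2 + (Im α) ^ 2 - 1`), are different, and are exactly the solutions of
`conj β z ^ 2 + (conj α - α) z - β = 0`, that is of `g z = z`. (5)
`‖p - α / conj β‖ = | |Re α| - w | / ‖β‖ ≤ 1 / ‖β‖ → 0` and `‖q - P‖ ≤ 1 / ‖β‖ → 0`. -/
def Stmt_HFP : Prop :=
  ∀ (l : Filter H) (ζ η : Circle), l.NeBot → (∀ᶠ g in l, IsMob g) → ζ ≠ η →
    (∀ z, z ≠ η → Tendsto (fun g : H => g z) l (𝓝 ζ)) →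
    (∀ z, z ≠ ζ → Tendsto (fun g : H => g⁻¹ z) l (𝓝 η)) →
    ∀ A ∈ 𝓝 ζ, ∀ B ∈ 𝓝 η, ∀ᶠ g in l, ∃ p ∈ A, ∃ q ∈ B, Axis g p q

/-- DNS (80 lines; uses ATT, HFP). Density of the axes. Proof. `l`, `ζ`, `η` from ATT. By density of
the orbits there are `σ, τ ∈ Γ` with `σ ζ ∈ U` and `τ η ∈ V \ {σ ζ}` (nonempty and open: the circle has
no isolated points). The filter `map (fun g => σ * g * τ⁻¹) l` satisfies the hypotheses of HFP
with `σ ζ`, `τ η`. -/
def Stmt_DNS : Prop :=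
  ∀ Γ : Subgroup H, FirstKind Γ → ∀ U V : Set Circle, IsOpen U → U.Nonempty → IsOpen V →
    V.Nonempty → ∃ γ ∈ Γ, ∃ p ∈ U, ∃ q ∈ V, Axis γ p q

/-- HYP (150 lines; uses MB1). Fundamental domain of a hyperbolic element. Proof. `β ≠ 0` (otherwise
`γ z = (α / conj α) z`, and `γ` has no fixed point or is the identity). `p`, `q` are the two solutions of
`conj β z ^ 2 + (conj α - α) z - β = 0`, so `conj β (p + q) = α - conj α`, `conj β p q = - β` and for
`D z = conj β z + conj α`: `D p + D q = α + conj α`, `D p * D q = 1`. `D p` is real: `α p + β = p D p`, so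
`conj (D p) = β conj p + α = D p`. So `‖D p‖ ≠ ‖D q‖` (else `D p = D q = ± 1`, as the product is `1`, but
`D p - D q = conj β (p - q) ≠ 0`). By MB1 for `φ z = dist z p / dist z q`:
`φ (γ z) = φ z * (‖D q‖ / ‖D p‖) = Λ φ z`, so `φ ((γ ^ n) z) = Λ ^ n φ z` for all `n : ℤ`,
`0 < Λ ≠ 1`. For `z ≠ p, q` there is `n` with `1 ≤ Λ ^ n φ z ≤ max Λ Λ⁻¹ = K`
(`exists_mem_Ico_zpow`), that is `dist w q ≤ dist w p ≤ K dist w q`, `w = (γ ^ n) z`; as
`dist w p + dist w q ≥ dist p q`, both distances are at least `ρ = dist p q / (2 K)` or so. -/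
def Stmt_HYP : Prop :=
  ∀ (γ : H) (p q : Circle), IsMob γ → Axis γ p q → ∃ ρ : ℝ, 0 < ρ ∧ ∀ z, z ≠ p → z ≠ q →
    ∃ n : ℤ, ρ ≤ dist ((γ ^ n) z) p ∧ ρ ≤ dist ((γ ^ n) z) q

/-! ### The theorem -/

/-- CDB (160 lines; uses LHI, LUB, HYP). Convergence groups displace geodesics. Proof. Let `γ`, `p`,
`q`, `δ`, `r`, `s` be given, `ρ₁`, `ρ₂` from HYP for `γ`, `δ` and `ε₁` from LUB for `r`, `s`, `ρ₂`. Claim: there is
`ε > 0` such that for each `g ∈ G` with `Meets g p q r s` there is `g' ∈ G` with `Mv ε g'` and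
`g'⁻¹ g ∈ Γ`; then `F = {g' ∈ G | Mv ε g'}` is finite and we are done. (Normality: for `κ, κ' ∈ Γ`,
`g' = κ g κ'` satisfies `g'⁻¹ g = κ'⁻¹ (g⁻¹ κ⁻¹ g) ∈ Γ`.) (1) `{g p, g q} = {r, s}`: fix `z ≠ p, q`;
`g z ≠ r, s`, HYP for `δ` gives `m` with `(δ ^ m) (g z)` far from `r`, `s`; `g' = δ ^ m g` maps the triple
`(p, q, z)` to `(r, s, (δ ^ m) (g z))` or `(s, r, ..)`. (2) `Link (g p) (g q) r s`: `g p ≠ r, s`, so there is
`m` with `x = (δ ^ m) (g p)`, `dist x r, dist x s ≥ ρ₂`. Let `y = (δ ^ m) (g q)`: `Link x y r s` (LHI,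
`δ ^ m` fixes `r` and `s`), so `ε₁ ≤ dist x y`. One of `dist y r`, `dist y s` is at least `dist r s / 2`; let
`r' ∈ {r, s}` be this point. `z = (δ ^ m g)⁻¹ r' ≠ p, q`, so there is `n` with `z' = (γ ^ n) z` far from
`p` and `q` (`ρ₁`). `g' = δ ^ m * g * (γ ^ n)⁻¹` maps `(p, q, z')` to `(x, y, r')`. -/
def Stmt_CDB : Prop :=
  ∀ Γ G : Subgroup H, FirstKind Γ → Γ ≤ G → (∀ g ∈ G, ∀ γ ∈ Γ, g * γ * g⁻¹ ∈ Γ) → Conv G →
    Displaces Γ G

/-- BDC (250 lines; uses LHI, LFV, LOP, LSX, CNV, DNS). Groups which displace geodesics are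
convergence groups. Proof. Suppose `T = {g ∈ G | Mv ε g}` is infinite and let `u` be an ultrafilter
on `H` with `T ∈ u`, finer than the cofinite filter. Case A: for some `h` the set of the `g` with
`h⁻¹ g ∈ Γ` is in `u`. Then infinitely many `γ = h⁻¹ g ∈ Γ` map a triple in `Far ε` to a triple `t`
with `h t` in `Far ε`, so `t` in `Far ε'` (uniform continuity of `h`): a contradiction to CNV. Case B:
no such `h`; so for each finite `F` the set of the `g` with `h⁻¹ g ∉ Γ` for all `h ∈ F` is in `u`. The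
circle is compact, so all functions to it have limits along `u`: let `L z = lim g z`; for the triples
`(a g, b g, c g)` of `Mv` (chosen for `g ∈ T`) let `a, b, c` be the limits and `a', b', c'` the limits
of `g (a g), g (b g), g (c g)`; `a, b, c` are different, and `a', b', c'` also. Claim 1: `L p = L q` for
each axis (`γ ∈ Γ`, `Axis γ p q`). Otherwise LOP for `L p`, `L q` gives `A, B, U, V`; DNS: `δ ∈ Γ`,
`Axis δ r s`, `r ∈ U`, `s ∈ V`; for `u`-almost all `g`: `g p ∈ A`, `g q ∈ B`, so `Meets g p q r s`; this is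
impossible by `Displaces` in case B. Claim 2: if `(x, y)` is an axis and `Link x y (u g) (v g)` for
almost all `g`, then with LHI and LFV (`Link (g x) (g y) (g (u g)) (g (v g))`, `g x → L x`,
`g y → L y = L x`): `L x` is the limit of `g (u g)` or of `g (v g)`. Now LSX for `a; b, c` gives
`U₁, V₁, A₁, B₁, C₁` and DNS an axis `(p₁, q₁)` in `U₁ × V₁`: Claim 2 for `(a g, b g)` and for `(a g, c g)`:
`L p₁ ∈ {a', b'} ∩ {a', c'}`, so `L p₁ = a'`. LSX for `b; a, c` gives `U₂, V₂, B₂, A₂, C₂` and an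
axis `(p₂, q₂)` with `L p₂ = b'`. DNS: an axis `(p, q)` with `p ∈ interior A₁`, `q ∈ interior B₂`. Claim 2
for `(p₁, q₁)` and the pair `(p, c g)`: `a' = L p₁ ∈ {L p, c'}`, so `L p = a'`; for `(p₂, q₂)` and
`(q, c g)`: `L q = b'`. But `L p = L q`. -/
def Stmt_BDC : Prop :=
  ∀ Γ G : Subgroup H, FirstKind Γ → Γ ≤ G → (∀ g ∈ G, ∀ γ ∈ Γ, g * γ * g⁻¹ ∈ Γ) →
    Displaces Γ G → Conv G

/-- RLZ (200 lines; uses MB1, MB3, BND, PIG, DNS). Realized groups are convergence groups. Proof. Let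
`h g h⁻¹` be Möbius for all `g ∈ G`, and suppose that `T = {g ∈ G | Mv ε g}` is infinite. `h⁻¹` is
uniformly continuous, so `h T h⁻¹` is an infinite set of Möbius maps which satisfy `Mv ε'`, so their
parameters are bounded (BND) and PIG gives for each `η > 0` elements `g ≠ g'` of `T` such that
`h (g⁻¹ g') h⁻¹` is `η`-near to the identity. So for each `η > 0` there is `k ∈ G`, `k ≠ 1`, with
`dist (k z) z < η` for all `z`, and the same for `k⁻¹` (uniform continuity of `h⁻¹`). DNS: `γ₁, γ₂ ∈ Γ`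
with axes `(p₁, q₁)`, `(p₂, q₂)`, four different points. For `η` small the commutators
`k γᵢ k⁻¹ γᵢ⁻¹ ∈ Γ` are near to the identity (uniform continuity of `γᵢ`), so equal to `1` by
discreteness. So `k` maps `{pᵢ, qᵢ}` to itself, and it moves no point by `dist pᵢ qᵢ` or more, so it fixes
`pᵢ` and `qᵢ`. The Möbius map `h k h⁻¹` fixes the four points `h pᵢ`, `h qᵢ`, so it is `1` (MB3). -/
def Stmt_RLZ : Prop :=
  ∀ Γ G : Subgroup H, FirstKind Γ → Γ ≤ G → (∀ g ∈ G, ∀ γ ∈ Γ, g * γ * g⁻¹ ∈ Γ) →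
    Realized G → Conv G

/-- CYC (120 lines; uses Main = `Stmt_Main`). Let `G = Γ ⊔ zpowers f`: its elements are the
`κ f ^ n` with `κ ∈ Γ`, `n : ℤ` (`f` normalises `Γ`; `Subgroup.mem_sup_of_normal_left` needs
normality in the whole group, so do it by hand, for example with the subgroup of all `κ f ^ n`), and
`Γ` is normal in `G`. By Main `Conv G ↔ Displaces Γ G`. If `f ^ n ∈ Γ` for some `n > 0`, there are only
finitely many cosets: `Displaces` holds with `F = {f ^ j | 0 ≤ j < n}` (`κ f ^ j = f ^ j κ'`). Otherwise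
the cosets of the `f ^ n`, `n : ℤ`, are different: for `F` finite the set of the `n` with
`h⁻¹ * κ f ^ n ∈ Γ` for some `h ∈ F`, `κ ∈ Γ` is finite; and conversely take
`F = {f ^ n | n in the finite set}`. -/
def Stmt_CYC : Prop := Stmt_Main → Stmt_Cyc

end Pool.CG
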