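import Pool.Agent.Work.MP_ae1ff6_cg.Interface

/-!
# Groups of mapping classes and convergence groups: all complete hyperbolic metrics

A complete hyperbolic metric on `S` may be of the second kind (with funnels or half planes). Then
the circle at infinity of the metric is mapped onto the circle of `Γ` by a continuous monotone
surjection `π` which collapses the intervals of discontinuity. (Suggestion of helper15.)
-/

open Topology Filter Set
open scoped ComplexConjugate

set_option autoImplicit false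

namespace Pool.CG

/-- The group `G / Γ` of mapping classes is realized by isometries of a complete hyperbolic metric
on the surface: there are a homomorphism `ρ` from `G` to the Möbius maps (the metric is the one of
`𝔻 / ρ(Γ)`, and the `ρ g` are lifts of its isometries) and a continuous map `π` from the circle
onto the circle (the boundary map of the marking) with `π ∘ ρ g = g ∘ π` for all `g ∈ G`. -/
def RealizedW (G : Subgroup H) : Prop :=
  ∃ (ρ : G →* H) (π : Circle → Circle), (∀ g, IsMob (ρ g)) ∧ Continuous π ∧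
    Function.Surjective π ∧ ∀ (g : G) (x : Circle), π (ρ g x) = (g : H) (π x)

/-- ELL (120 lines; uses MB1, MB2): elliptic elements have bounded powers. Proof. Let `Par N α β`,
`c = Re α`. If `1 ≤ |c|` there is a fixed point: for `β = 0` we have `‖α‖ = 1`, so `α = ± 1` and
`N z = z`; for `β ≠ 0` the number `p = (i Im α + √(c ^ 2 - 1)) / conj β` has norm one
(`‖β‖ ^ 2 = c ^ 2 + (Im α) ^ 2 - 1`) and solves `conj β p ^ 2 + (conj α - α) p - β = 0`, so `N p = p`
(`Circle.ofConjDivSelf` or `⟨p, _⟩`). So `|c| < 1`, `c = cos θ`, `sin θ ≠ 0` (`θ = arccos c`), and by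
induction on `n` (MB2, `N ^ (n + 1) = N ^ n * N`)
`Par (N ^ n) (cos (n θ) + i (Im α / sin θ) sin (n θ)) (β sin (n θ) / sin θ)`
(use `(Im α) ^ 2 - ‖β‖ ^ 2 = 1 - c ^ 2 = sin θ ^ 2` and the addition formulas). `R = ‖β‖ / |sin θ|`. -/
def Stmt_ELL : Prop :=
  ∀ N : H, IsMob N → (∀ z, N z ≠ z) → ∃ R : ℝ, ∀ n : ℕ, ∃ α β : ℂ, Par (N ^ n) α β ∧ ‖β‖ ≤ R

/-- RL2 (250 lines; uses MB1, MB3, BND, PIG, DNS, ELL): as block RLZ, for `RealizedW`. Proof.
(0) `ρ` is injective (`ρ g = 1` implies `g ∘ π = π`, `π` is onto). By uniform continuity of `π`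
(compactness): (U1) for `ε > 0` there is `ε' > 0` such that `ε ≤ dist (π x) (π y)` implies
`ε' ≤ dist x y`; (U2) for `ε > 0` there is `η > 0` such that for `k : G`, `dist (ρ k x) x < η` for all
`x` implies `dist (k z) z < ε` for all `z` (`z = π x`). (1) DNS: `γ₁, γ₂, γ₃ ∈ Γ` with axes
`(pᵢ, qᵢ)`, six different points. `Nᵢ = ρ γᵢ` has a fixed point `xᵢ` on the circle: otherwise by ELL all
`Nᵢ ^ n` have bounded parameters; they are different (`ρ` is injective, `γᵢ ^ n ≠ 1` for `n > 0`:
see (2)), so PIG and (U2) give `m ≠ n` such that `γᵢ ^ n` and `γᵢ ^ m` differ by an element of `Γ` so near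
to the identity that it is `1`: a contradiction. `π xᵢ ∈ {pᵢ, qᵢ}`, so `x₁, x₂, x₃` are different; `Nᵢ`
has at most two fixed points (MB3, `Nᵢ ≠ 1`). (2) `γᵢ ^ n ≠ 1`: `γ` hyperbolic in `Γ` has infinite
order; for example: if `γ ^ n = 1`, `n > 0`, then the powers of `γ` have bounded parameters; shorter:
from `Par γ α β` with two fixed points on the circle, `|Re α| > 1` (see HYP: `D p` real, `D p * D q = 1`,
`‖D p‖ ≠ 1`), and `φ (γ z) = Λ φ z` with `φ z = dist z p / dist z q`, `Λ ≠ 1`, so `φ (γ ^ n z) ≠ φ z` (you may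
import `B_HYP.lean` and use its lemmas, or add `Stmt_HYP`-like lemmas with your prefix). (3) Suppose
`T = {g ∈ G | Mv ε g}` is infinite. For `g ∈ T` with the triple `a, b, c` take `x, y, z` with
`π x = a`, ..: by (U1) `Mv ε' (ρ g)`. So `ρ T` is an infinite set of Möbius maps with bounded
parameters (BND), and PIG gives for each `η > 0` elements `g ≠ g'` of `T` with
`ρ (g⁻¹ g')` `η`-near to the identity. So for each `η > 0` there is `k ∈ G`, `k ≠ 1`, with
`dist (ρ k x) x < η` for all `x`, and then (U2) `k` and `k⁻¹` are near to the identity. (4) As in RLZ: for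
`η` small `k γᵢ k⁻¹ γᵢ⁻¹ ∈ Γ` is near to the identity, so `1`. So `ρ k` commutes with `Nᵢ` and maps `xᵢ` to
a fixed point of `Nᵢ`; for `η` small `ρ k xᵢ = xᵢ`. So `ρ k` has three fixed points, `ρ k = 1`, `k = 1`. -/
def Stmt_RL2 : Prop :=
  ∀ Γ G : Subgroup H, FirstKind Γ → Γ ≤ G → (∀ g ∈ G, ∀ γ ∈ Γ, g * γ * g⁻¹ ∈ Γ) →
    RealizedW G → Conv G

/-- EMB (20 lines): `ρ g = h g h⁻¹`, `π = h⁻¹`. -/
def Stmt_EMB : Prop := ∀ G : Subgroup H, Realized G → RealizedW G

end Pool.CG
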